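import Pool.Agent.T6.H66.EQ.Defs

/-!
Project EQ (MP_aea6d5_co, slot 2), module A1: rotations.
-/

set_option autoImplicit false

namespace Pool.Agent.T6.H66.EQ

open Finset Filter Topology KN KN.KQ
open scoped Classical

namespace ModA1

theorem rt_comp {d f d1 f1 : Dir} (hdf : perp d f) (h11 : perp d1 f1) (e : Dir) :
    rt (rt d f d1) (rt d f f1) e = rt d f (rt d1 f1 e) := by
  obtain ⟨-, hneg, -, -⟩ := T_rtc_proof d f hdf
  have hc := (KQ.K3YROT.rt_perp d f d1 f1 hdf h11).2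
  cases e
  · rfl
  · exact (hneg d1).symm
  · exact hc
  · show neg (cr (rt d f f1) (rt d f d1)) = rt d f (neg (cr f1 d1))
    rw [hc, hneg]
  · rfl
  · exact (hneg f1).symm

theorem rmd_rot {T L : ℕ} {d f d1 f1 : Dir} (hdf : perp d f) (h11 : perp d1 f1) {w : List Dir}
    {y : Z3} (h : RmD T L d1 f1 w y) :
    RmD T L (rt d f d1) (rt d f f1) (w.map (rt d f)) (Rp d f y) := by
  obtain ⟨⟨d'', f'', -, -, -, -, -, hinv, -⟩, -, hpp, hadd⟩ := T_rtc_proof d f hdf
  have key : ∀ h : Z3, y + Rp d1 f1 h ∉ path w →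
      Rp d f y + Rp (rt d f d1) (rt d f f1) h ∉ path (w.map (rt d f)) := by
    intro h hn hcon
    rw [(hpp _).2, KQ.K3YROT.Rp_comp T_rtc_proof hdf h11, ← hadd, List.mem_map] at hcon
    obtain ⟨p, hp, hpe⟩ := hcon
    have hpe2 := congrArg (Rp d'' f'') hpe
    rw [hinv, hinv] at hpe2
    rw [hpe2] at hp
    exact hn hp
  exact ⟨fun j h1 h2 => ⟨key _ (h.1 j h1 h2).1, key _ (h.1 j h1 h2).2⟩,
    fun p a1 a2 a3 a4 a5 => key _ (h.2 p a1 a2 a3 a4 a5)⟩

theorem vb_rot {T L : ℕ} {v : ℕ → List Dir} {w : List Dir} {i : ℕ} {d1 f1 : Dir}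
    {l1 l2 : List Dir} (h : OV.VB T L v w i d1 f1 l1 l2) {d f : Dir} (hdf : perp d f) :
    OV.VB T L v (w.map (rt d f)) i (rt d f d1) (rt d f f1) (l1.map (rt d f))
      (l2.map (rt d f)) := by
  obtain ⟨hw, hp, hr⟩ := h
  obtain ⟨-, -, hpp, -⟩ := T_rtc_proof d f hdf
  refine ⟨?_, (KQ.K3YROT.rt_perp d f d1 f1 hdf hp).1, ?_⟩
  · rw [hw, List.map_append, List.map_append, List.map_map]
    congr 2
    apply List.map_congr_left
    intro e _
    exact (rt_comp hdf hp e).symm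
  · have := rmd_rot hdf hp hr
    rw [List.map_append, List.map_cons, ← (hpp l2).1] at this
    exact this

end ModA1

theorem a1 : StmtA1 := by
  intro T₀ Lr v₀ d f hdf w m hm
  unfold EP at hm ⊢
  rw [Finset.mem_filter, Finset.mem_range] at hm ⊢
  obtain ⟨hm1, d1, f1, l1, l2, hl, hVB⟩ := hm
  obtain ⟨⟨d', f', hp', -, -, hinv, -, -, -⟩, -, -, -⟩ := T_rtc_proof d f hdf
  refine ⟨by simpa using hm1, rt d' f' d1, rt d' f' f1, l1.map (rt d' f'), l2.map (rt d' f'),
    by rw [List.length_map]; exact hl, ?_⟩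
  have h := ModA1.vb_rot hVB hp'
  have hw : (w.map (rt d f)).map (rt d' f') = w := by
    rw [List.map_map]
    conv_rhs => rw [← List.map_id w]
    apply List.map_congr_left
    intro e _
    exact hinv e
  rw [hw] at h
  exact h

end Pool.Agent.T6.H66.EQ
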