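import Pool.Agent.T6.H66.EQ.Defs

/-!
Project EQ (MP_aea6d5_co), module A2: a change of a short subword creates boundedly many engine
blocks.
-/

set_option autoImplicit false

namespace Pool.Agent.T6.H66.EQ

open Finset Filter Topology KN KN.KQ
open scoped Classical

namespace A2

/-- interior vertices of a subwalk -/
def inn (B : List Dir) : List Z3 := (path B).dropLast.tail

theorem path_dropLast (B : List Dir) (hB : B ≠ []) : (path B).dropLast = pos B :: inn B := by
  cases B with
  | nil => exact absurd rfl hB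
  | cons d B =>
    simp only [inn, path, List.dropLast_cons_of_ne_nil (path_ne_nil B), List.tail_cons, pos]

theorem path_block (L1 B L2 : List Dir) (f : Dir) (hB : pos B = vec f) (hne : B ≠ []) :
    path (L1 ++ B ++ L2) = ((path L1).dropLast.map (fun p => p + pos (f :: L2))) ++
      (pos (f :: L2) :: ((inn B).map (fun p => p + pos L2) ++ path L2)) := by
  have h1 : pos (B ++ L2) = pos (f :: L2) := by
    rw [pos_append, hB]; simp only [pos]; abel
  have h2 : pos B + pos L2 = pos (f :: L2) := by rw [← pos_append, h1]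
  rw [List.append_assoc, path_append L1 (B ++ L2), h1, path_append B L2, path_dropLast B hne,
    List.map_cons, h2, List.cons_append]

theorem path_edge (L1 L2 : List Dir) (f : Dir) :
    path (L1 ++ f :: L2) = ((path L1).dropLast.map (fun p => p + pos (f :: L2))) ++
      (pos (f :: L2) :: path L2) := by
  rw [path_append L1 (f :: L2)]
  simp only [path, pos]

theorem mem_block {L1 B L2 : List Dir} {f : Dir} (hB : pos B = vec f) (hne : B ≠ []) {q : Z3}
    (hq : q ∈ path (L1 ++ B ++ L2)) :
    q ∈ path (L1 ++ f :: L2) ∨ ∃ p ∈ inn B, q = p + pos L2 := by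
  rw [path_block L1 B L2 f hB hne, List.mem_append, List.mem_cons, List.mem_append,
    List.mem_map] at hq
  rw [path_edge, List.mem_append, List.mem_cons]
  rcases hq with h | h | h | h
  · exact Or.inl (Or.inl (List.mem_map.2 h))
  · exact Or.inl (Or.inr (Or.inl h))
  · obtain ⟨p, hp, rfl⟩ := List.mem_map.1 h
    exact Or.inr ⟨p, hp, rfl⟩
  · exact Or.inl (Or.inr (Or.inr h))

theorem list_aux {α : Type} (A I P : List α) (x o : α) (ho : o ∈ P)
    (hh : (A ++ x :: (I ++ P)).head? = some o) (hnd : (A ++ x :: (I ++ P)).tail.Nodup) :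
    ∀ q ∈ I, q ∉ A ++ x :: P := by
  intro q hq hmem
  cases A with
  | nil =>
    simp only [List.nil_append, List.head?_cons, Option.some.injEq, List.tail_cons] at hh hnd hmem
    rw [List.nodup_append] at hnd
    rcases List.mem_cons.1 hmem with h | h
    · exact hnd.2.2 q hq o ho (by rw [h, hh])
    · exact hnd.2.2 q hq q h rfl
  | cons a A =>
    simp only [List.cons_append, List.head?_cons, Option.some.injEq, List.tail_cons] at hh hnd hmem
    rw [List.nodup_append, List.nodup_cons, List.nodup_append] at hnd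
    obtain ⟨-, ⟨h1, -, -, h2⟩, h3⟩ := hnd
    rcases List.mem_cons.1 hmem with h | h
    · exact h2 q hq o ho (by rw [h, hh])
    · rcases List.mem_append.1 h with h | h
      · exact h3 q h q (List.mem_cons_of_mem _ (List.mem_append_left _ hq)) rfl
      · rcases List.mem_cons.1 h with h | h
        · exact h1 (List.mem_append_left _ (h ▸ hq))
        · exact h2 q hq q h rfl

theorem inner_ne {L1 B L2 : List Dir} {f : Dir} (hB : pos B = vec f) (hne : B ≠ [])
    (hS : SAP (L1 ++ B ++ L2)) {p : Z3} (hp : p ∈ inn B) :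
    p + pos L2 ∉ path (L1 ++ f :: L2) := by
  have h1 := path_block L1 B L2 f hB hne
  have h2 : (path (L1 ++ B ++ L2)).head? = some 0 := by
    rw [List.head?_eq_some_head (path_ne_nil _), head_path, hS.2.1]
  have h3 := hS.2.2
  rw [h1] at h2 h3
  have h4 := list_aux _ _ _ _ _ (KN.zero_mem_path L2) h2 h3 (p + pos L2) (List.mem_map.2 ⟨p, hp, rfl⟩)
  rwa [path_edge]

theorem region {T L : ℕ} {d f : Dir} {w : List Dir} {y : Z3}
    (h : ∀ x : Z3, |x.1| ≤ T + L + 1 → |x.2.1| ≤ T + L + 1 → |x.2.2| ≤ T + L + 1 →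
      (x.2.1 = 0 ∧ (x.2.2 = 0 ∨ x.2.2 = 1) ∧ 1 ≤ x.1 ∧ x.1 ≤ T) ∨
      ((T : ℤ) + 1 ≤ x.1 ∧ x.1 ≤ T + L + 1 ∧ |x.2.1| ≤ L ∧ -(L : ℤ) ≤ x.2.2 ∧ x.2.2 ≤ L + 1) →
      y + Rp d f x ∉ path w) : RmD T L d f w y := by
  have hT : (0:ℤ) ≤ T := Nat.cast_nonneg T
  have hL : (0:ℤ) ≤ L := Nat.cast_nonneg L
  constructor
  · intro j hj1 hj2
    have hj1' : (1:ℤ) ≤ j := by exact_mod_cast hj1
    have hj2' : (j:ℤ) ≤ T := by exact_mod_cast hj2
    constructor
    · refine h _ ?_ ?_ ?_ (Or.inl ⟨rfl, Or.inl rfl, hj1', hj2'⟩)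
      · simp only; rw [abs_le]; constructor <;> omega
      · simp only [abs_zero]; omega
      · simp only [abs_zero]; omega
    · refine h _ ?_ ?_ ?_ (Or.inl ⟨rfl, Or.inr rfl, hj1', hj2'⟩)
      · simp only; rw [abs_le]; constructor <;> omega
      · simp only [abs_zero]; omega
      · simp only [abs_one]; omega
  · intro x h1 h2 h3 h4 h5
    refine h x ?_ ?_ ?_ (Or.inr ⟨h1, h2, h3, h4, h5⟩)
    · rw [abs_le]; constructor <;> omega
    · omega
    · rw [abs_le]; constructor <;> omega

theorem out_of {T L : ℕ} {d f : Dir} {w : List Dir} {y : Z3} (h : RmD T L d f w y) {x : Z3}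
    (hx : (x.2.1 = 0 ∧ (x.2.2 = 0 ∨ x.2.2 = 1) ∧ 1 ≤ x.1 ∧ x.1 ≤ T) ∨
      ((T : ℤ) + 1 ≤ x.1 ∧ x.1 ≤ T + L + 1 ∧ |x.2.1| ≤ L ∧ -(L : ℤ) ≤ x.2.2 ∧ x.2.2 ≤ L + 1)) :
    y + Rp d f x ∉ path w := by
  obtain ⟨x1, x2, x3⟩ := x
  simp only at hx
  rcases hx with ⟨h1, h2, h3, h4⟩ | ⟨h1, h2, h3, h4, h5⟩
  · obtain ⟨j, rfl⟩ : ∃ j : ℕ, x1 = j := ⟨x1.toNat, by omega⟩
    have := h.1 j (by exact_mod_cast h3) (by exact_mod_cast h4)
    rcases h2 with h2 | h2
    · rw [h1, h2]; exact this.1
    · rw [h1, h2]; exact this.2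
  · exact h.2 _ h1 h2 h3 h4 h5

/-- a block is carried over to another word -/
theorem transfer {T L : ℕ} {d f : Dir} (hp : perp d f) {B L1 L2 M1 M2 : List Dir}
    (hB : pos B = vec f) (hne : B ≠ []) {z : Z3} (hS : SAP (M1 ++ B ++ M2))
    (hpos : pos M2 = pos L2)
    (hsub : ∀ p ∈ path (M1 ++ B ++ M2), p ∈ path (L1 ++ B ++ L2) ∨ p = z)
    (hR : RmD T L d f (L1 ++ f :: L2) (pos L2)) (hfar : ¬ near (T + L + 3) (pos L2) z) :
    RmD T L d f (M1 ++ f :: M2) (pos M2) := by
  refine region ?_
  intro x hx1 hx2 hx3 hx hm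
  have h1 := (T_Wrep_proof M1 M2 B f hB hne).1 _ hm
  rcases hsub _ h1 with h2 | h2
  · rcases mem_block hB hne h2 with h3 | ⟨p, hpB, h3⟩
    · rw [hpos] at h3
      exact out_of hR hx h3
    · have h4 := inner_ne hB hne hS hpB
      apply h4
      rw [hpos, ← h3]
      exact hm
  · apply hfar
    obtain ⟨r1, r2, r3⟩ := KN.KQ.K3YFLIP.Rp_le d f hp x _ hx1 hx2 hx3
    rw [hpos] at h2
    have e1 := congrArg (fun p : Z3 => p.1) h2
    have e2 := congrArg (fun p : Z3 => p.2.1) h2
    have e3 := congrArg (fun p : Z3 => p.2.2) h2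
    simp only [Prod.fst_add, Prod.snd_add] at e1 e2 e3
    rw [abs_le] at r1 r2 r3
    refine ⟨?_, ?_, ?_⟩ <;> rw [abs_le] <;> push_cast <;> constructor <;> omega

theorem drop_inj {w : List Dir} (hS : SAP w) {i j : ℕ} (hi : 1 ≤ i) (hi' : i ≤ w.length)
    (hj : 1 ≤ j) (hj' : j ≤ w.length) (h : pos (w.drop i) = pos (w.drop j)) : i = j := by
  have h1 := hS.2.2
  have hlen := path_length w
  have hl : (path w).tail.length = w.length := by rw [List.length_tail, hlen]; omega
  have a1 : i - 1 < (path w).tail.length := by omega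
  have a2 : j - 1 < (path w).tail.length := by omega
  have e1 : (path w).tail[i - 1] = pos (w.drop i) := by
    rw [List.getElem_tail, path_getElem]
    congr 2
    omega
  have e2 : (path w).tail[j - 1] = pos (w.drop j) := by
    rw [List.getElem_tail, path_getElem]
    congr 2
    omega
  have e3 : (path w).tail[i - 1] = (path w).tail[j - 1] := by rw [e1, e2, h]
  have := (List.Nodup.getElem_inj_iff h1).1 e3
  omega

end A2

open A2 in
theorem a2 : StmtA2 := by
  intro T₀ Lr v₀ hv
  set b := (blk T₀ v₀).length with hb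
  have hb0 : 0 < b := KN.K3YOVER.blk_pos T₀ v₀
  refine ⟨(2 * b + 2) + (2 * (T₀ + Lr + 3) + 1) ^ 3, ?_⟩
  rintro l1 I J l2 hS hS' hpIJ hJ ⟨z, hz⟩
  set w := l1 ++ I ++ l2 with hw
  set w' := l1 ++ J ++ l2 with hw'
  have hposB : ∀ d f : Dir, perp d f → pos ((blk T₀ v₀).map (rt d f)) = vec f := by
    intro d f hdf
    obtain ⟨_, _, hpp, _⟩ := T_rtc_proof d f hdf
    rw [(hpp _).1, KN.KQ.K3YTYPE.pos_blk T₀ hv.1, KN.K3YROT.Rp_vec]
    rfl
  have hneB : ∀ d f : Dir, (blk T₀ v₀).map (rt d f) ≠ [] := by
    intro d f h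
    have := congrArg List.length h
    rw [List.length_map] at this
    simp only [List.length_nil] at this
    omega
  set r := T₀ + Lr + 3 with hr
  set y : ℕ → Z3 := fun m => pos (w'.drop (m + b)) with hy
  set φ : ℕ → ℕ := fun m => if m + b ≤ l1.length then m else m - J.length + I.length with hφ
  have hmem : ∀ (u : List Dir) (m : ℕ), m ∈ EP T₀ Lr v₀ u ↔ ∃ (d f : Dir) (L1 L2 : List Dir),
      L1.length = m ∧ OV.VB T₀ Lr (fun _ => v₀) u 0 d f L1 L2 := by
    intro u m
    unfold EP
    rw [Finset.mem_filter, Finset.mem_range]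
    constructor
    · exact fun h => h.2
    · intro h
      refine ⟨?_, h⟩
      obtain ⟨d, f, L1, L2, h1, h2, -⟩ := h
      rw [h2, ← h1]
      simp only [List.length_append]
      omega
  have hcover : EP T₀ Lr v₀ w' ⊆
      (Finset.Ico (l1.length + 1 - b) (l1.length + J.length)) ∪
      ((EP T₀ Lr v₀ w').filter (fun m => near r (y m) z)) ∪
      ((EP T₀ Lr v₀ w').filter (fun m => (m + b ≤ l1.length ∨ l1.length + J.length ≤ m) ∧
        ¬ near r (y m) z)) := by
    intro m hm
    by_cases h1 : near r (y m) z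
    · exact Finset.mem_union_left _ (Finset.mem_union_right _ (Finset.mem_filter.2 ⟨hm, h1⟩))
    · by_cases h2 : m + b ≤ l1.length ∨ l1.length + J.length ≤ m
      · exact Finset.mem_union_right _ (Finset.mem_filter.2 ⟨hm, h2, h1⟩)
      · refine Finset.mem_union_left _ (Finset.mem_union_left _ (Finset.mem_Ico.2 ?_))
        omega
  have hZ : ((EP T₀ Lr v₀ w').filter (fun m => near r (y m) z)).card ≤ (2 * r + 1) ^ 3 := by
    rw [← KN.KQ.K3YCNT.card_box r z]
    refine Finset.card_le_card_of_injOn y ?_ ?_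
    · intro m hm
      exact KN.KQ.K3YCNT.mem_box.2 (Finset.mem_filter.1 hm).2
    · intro m hm m' hm' he
      have hlen : ∀ m, m ∈ (EP T₀ Lr v₀ w').filter (fun m => near r (y m) z) →
          m + b ≤ w'.length := by
        intro m hm
        obtain ⟨d, f, L1, L2, h1, h2, -⟩ := (hmem _ _).1 (Finset.mem_filter.1 hm).1
        rw [h2, ← h1]
        simp only [List.length_append, List.length_map]
        omega
      have := drop_inj hS' (i := m + b) (j := m' + b) (by omega) (hlen m hm) (by omega)
        (hlen m' hm') he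
      omega
  have hRst : ((EP T₀ Lr v₀ w').filter (fun m => (m + b ≤ l1.length ∨ l1.length + J.length ≤ m) ∧
        ¬ near r (y m) z)).card ≤ (EP T₀ Lr v₀ w).card := by
    refine Finset.card_le_card_of_injOn φ ?_ ?_
    · intro m hm
      obtain ⟨hm1, hm2, hm3⟩ := Finset.mem_filter.1 hm
      obtain ⟨d, f, L1, L2, e1, e2, e3, e4⟩ := (hmem _ _).1 hm1
      have hy2 : y m = pos L2 := by
        simp only [hy]
        rw [e2, List.drop_left']
        simp only [List.length_append, List.length_map]
        omega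
      rw [hy2] at hm3
      rw [Finset.mem_coe, hmem]
      rcases hm2 with hm2 | hm2
      · have hφm : φ m = m := by simp only [hφ]; rw [if_pos hm2]
        obtain ⟨K, hK1, hK2⟩ : ∃ K, l1 = L1 ++ (blk T₀ v₀).map (rt d f) ++ K ∧
            L2 = K ++ (J ++ l2) := by
          have h1 : l1 ++ (J ++ l2) = (L1 ++ (blk T₀ v₀).map (rt d f)) ++ L2 := by
            rw [← List.append_assoc, ← hw', e2]
          rcases List.append_eq_append_iff.1 h1 with ⟨K, h2, h3⟩ | ⟨K, h2, h3⟩
          · have h4 := congrArg List.length h2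
            simp only [List.length_append, List.length_map] at h4
            have h5 : K = [] := List.length_eq_zero_iff.1 (by omega)
            subst h5
            refine ⟨[], ?_, ?_⟩
            · rw [List.append_nil]; rw [List.append_nil] at h2; exact h2.symm
            · rw [List.nil_append]; rw [List.nil_append] at h3; exact h3.symm
          · exact ⟨K, h2, h3⟩
        refine ⟨d, f, L1, K ++ (I ++ l2), by rw [hφm, e1], ?_, e3, ?_⟩
        · rw [hw, hK1]; simp only [List.append_assoc]
        · refine transfer (L1 := L1) (L2 := L2) (z := z) e3 (hposB d f e3) (hneB d f) ?_ ?_ ?_ e4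
            hm3
          · have : L1 ++ (blk T₀ v₀).map (rt d f) ++ (K ++ (I ++ l2)) = w := by
              rw [hw, hK1]; simp only [List.append_assoc]
            rw [this]; exact hS
          · rw [hK2]; simp only [pos_append, hpIJ]
          · have h1 : L1 ++ (blk T₀ v₀).map (rt d f) ++ (K ++ (I ++ l2)) = w := by
              rw [hw, hK1]; simp only [List.append_assoc]
            have h2 : L1 ++ (blk T₀ v₀).map (rt d f) ++ L2 = w' := e2.symm
            rw [h1, h2]
            exact hz
      · have hφm : φ m = m - J.length + I.length := by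
          simp only [hφ]
          by_cases h : m + b ≤ l1.length
          · omega
          · rw [if_neg h]
        obtain ⟨K, hK1, hK2⟩ : ∃ K, L1 = l1 ++ J ++ K ∧
            l2 = K ++ ((blk T₀ v₀).map (rt d f) ++ L2) := by
          have h1 : (l1 ++ J) ++ l2 = L1 ++ ((blk T₀ v₀).map (rt d f) ++ L2) := by
            rw [← hw', e2, List.append_assoc]
          rcases List.append_eq_append_iff.1 h1 with ⟨K, h2, h3⟩ | ⟨K, h2, h3⟩
          · exact ⟨K, h2, h3⟩
          · have h4 := congrArg List.length h2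
            simp only [List.length_append] at h4
            have h5 : K = [] := List.length_eq_zero_iff.1 (by omega)
            subst h5
            refine ⟨[], ?_, ?_⟩
            · rw [List.append_nil]; rw [List.append_nil] at h2; exact h2.symm
            · rw [List.nil_append]; rw [List.nil_append] at h3; exact h3.symm
        have h1 : (l1 ++ I ++ K) ++ (blk T₀ v₀).map (rt d f) ++ L2 = w := by
          rw [hw, hK2]; simp only [List.append_assoc]
        refine ⟨d, f, l1 ++ I ++ K, L2, ?_, h1.symm, e3, ?_⟩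
        · rw [hφm, ← e1, hK1]
          simp only [List.length_append]
          omega
        · refine transfer (L1 := L1) (L2 := L2) (z := z) e3 (hposB d f e3) (hneB d f) ?_ rfl ?_ e4
            hm3
          · rw [h1]; exact hS
          · have h2 : L1 ++ (blk T₀ v₀).map (rt d f) ++ L2 = w' := e2.symm
            rw [h1, h2]
            exact hz
    · intro m hm m' hm' he
      obtain ⟨-, hm2, -⟩ := Finset.mem_filter.1 hm
      obtain ⟨-, hm2', -⟩ := Finset.mem_filter.1 hm'
      simp only [hφ] at he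
      split_ifs at he <;> omega
  have hc := Finset.card_le_card hcover
  have u1 := Finset.card_union_le ((Finset.Ico (l1.length + 1 - b) (l1.length + J.length)) ∪
      ((EP T₀ Lr v₀ w').filter (fun m => near r (y m) z)))
      ((EP T₀ Lr v₀ w').filter (fun m => (m + b ≤ l1.length ∨ l1.length + J.length ≤ m) ∧
        ¬ near r (y m) z))
  have u2 := Finset.card_union_le (Finset.Ico (l1.length + 1 - b) (l1.length + J.length))
      ((EP T₀ Lr v₀ w').filter (fun m => near r (y m) z))
  have u3 : (Finset.Ico (l1.length + 1 - b) (l1.length + J.length)).card ≤ 2 * b + 2 := by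
    rw [Nat.card_Ico]
    omega
  omega

end Pool.Agent.T6.H66.EQ
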