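import Pool.Agent.T6.H66.EQ.Defs

/-!
Project EQ, module A3: one more block, in words with few engine blocks.
-/

set_option autoImplicit false

namespace Pool.Agent.T6.H66.EQ

open Finset Filter Topology KN KN.KQ KN.KQ.K3YCNT
open scoped Classical

namespace ModA3

/-- vertices of a concatenation -/
theorem mem_path_app (x y : List Dir) (p : Z3) :
    p ∈ path (x ++ y) ↔ (∃ q ∈ path x, p = q + pos y) ∨ p ∈ path y := by
  induction x with
  | nil =>
    constructor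
    · intro h
      exact Or.inr h
    · rintro (⟨q, hq, rfl⟩ | h)
      · have : q = 0 := by simpa [path] using hq
        rw [this, zero_add]
        exact KN.pos_mem_path y
      · exact h
  | cons d x ih =>
    rw [List.cons_append, path, List.mem_cons, ih, pos_append]
    constructor
    · rintro (rfl | ⟨q, hq, rfl⟩ | h)
      · refine Or.inl ⟨pos x + vec d, ?_, by abel⟩
        rw [path]
        exact List.mem_cons_self
      · refine Or.inl ⟨q, ?_, rfl⟩
        rw [path]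
        exact List.mem_cons_of_mem _ hq
      · exact Or.inr h
    · rintro (⟨q, hq, rfl⟩ | h)
      · rw [path, List.mem_cons] at hq
        rcases hq with rfl | hq
        · left
          abel
        · exact Or.inr (Or.inl ⟨q, hq, rfl⟩)
      · exact Or.inr (Or.inr h)

/-- the middle part of a word is changed -/
theorem path_change (l1 l2 I J : List Dir) (hp : pos I = pos J) (z : Z3)
    (h : ∀ q ∈ path I, q ∈ path J ∨ q = z) :
    ∀ p ∈ path (l1 ++ I ++ l2), p ∈ path (l1 ++ J ++ l2) ∨ p = z + pos l2 := by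
  intro p hpm
  rw [mem_path_app] at hpm
  rcases hpm with ⟨q, hq, rfl⟩ | hpm
  · rw [mem_path_app] at hq
    rcases hq with ⟨q', hq', rfl⟩ | hq
    · left
      rw [mem_path_app]
      left
      refine ⟨q' + pos I, ?_, rfl⟩
      rw [mem_path_app]
      left
      exact ⟨q', hq', by rw [hp]⟩
    · rcases h q hq with h1 | rfl
      · left
        rw [mem_path_app]
        left
        refine ⟨q, ?_, rfl⟩
        rw [mem_path_app]
        exact Or.inr h1
      · exact Or.inr rfl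
  · left
    rw [mem_path_app]
    exact Or.inr hpm

/-- the counting, for subsets -/
theorem count' {𝒬 : List V → Prop} (T L : ℕ) (v : ℕ → List Dir) (N n : ℕ)
    (S S' : Finset (List Sz)) (hS : S ⊆ VZ 𝒬 T L v N n) (C : List Sz → Finset Z3)
    (h : ∀ W ∈ S, ∀ x ∈ C W, ∃ (d f : Dir) (A B : List Sz), perp d f ∧
      ((A ++ .bl N .xp .zp :: B) ∈ VZ 𝒬 T L v (N + 1) n → (A ++ .bl N .xp .zp :: B) ∈ S') ∧
      VaZ 𝒬 T L v (A ++ .bl N .xp .zp :: B) ∧ near 6 (pos (EZ T v B)) (Rp d f x) ∧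
      RlZ W d f A B) :
    ∑ W ∈ S, (C W).card ≤ S'.card * (6 * (6 * (3 * 13 ^ 3))) := by
  have hmem : Y_mem 𝒬 := q_mem
  have hrtc : T_rtc := T_rtc_proof
  rw [← Finset.card_sigma]
  have hcard : (S' ×ˢ ((univ : Finset Dir) ×ˢ
      ((univ : Finset Dir) ×ˢ ((univ : Finset (Fin 3)) ×ˢ box 6 0)))).card =
      S'.card * (6 * (6 * (3 * 13 ^ 3))) := by
    rw [card_product, card_product, card_product, card_product, card_box,
      card_univ, card_univ]
    have e1 : Fintype.card Dir = 6 := rfl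
    have e2 : Fintype.card (Fin 3) = 3 := rfl
    rw [e1, e2]
  rw [← hcard]
  apply Finset.card_le_card_of_forall_subsingleton
    (fun (p : (_ : List Sz) × Z3) (q : List Sz × Dir × Dir × Fin 3 × Z3) =>
      ∃ A B : List Sz, perp q.2.1 q.2.2.1 ∧ q.1 = A ++ .bl N .xp .zp :: B ∧ N ∉ lab A ∧
        Ra q.2.2.2.1 p.1 q.2.1 q.2.2.1 A B ∧
        q.2.2.2.2 = Rp q.2.1 q.2.2.1 p.2 - pos (EZ T v B))
  · rintro ⟨W, x⟩ hp
    rw [mem_sigma] at hp
    obtain ⟨hW, hx⟩ := hp
    simp only at hW hx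
    obtain ⟨d, f, A, B, h1, h1', h2, h3, h4⟩ := h W hW x hx
    obtain ⟨i, hi⟩ := exists_Ra h4
    obtain ⟨k1, k2⟩ := Ra_lab hi
    have hW := hS hW
    rw [hmem] at hW
    have hN : N ∉ lab A ++ lab B := by
      rw [k1]
      intro hN
      have := hW.2.1.mem_iff.1 hN
      exact absurd this (by simp)
    refine ⟨(A ++ .bl N .xp .zp :: B, d, f, i, Rp d f x - pos (EZ T v B)), ?_, A, B, h1, rfl,
      fun hA => hN (List.mem_append_left _ hA), hi, rfl⟩
    simp only [mem_product, mem_univ, true_and]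
    refine ⟨h1' ?_, ?_⟩
    · rw [hmem, k2 N]
      refine ⟨hW.1, ?_, h2⟩
      rw [lab_append, lab_cons_bl]
      refine List.perm_middle.trans ?_
      rw [k1, List.range_succ]
      refine (hW.2.1.cons N).trans ?_
      exact (List.perm_append_singleton N (List.range N)).symm
    · rw [mem_box]
      unfold near at h3 ⊢
      obtain ⟨h5, h6, h7⟩ := h3
      rw [abs_sub_comm] at h5 h6 h7
      refine ⟨?_, ?_, ?_⟩
      · simpa using h5
      · simpa using h6
      · simpa using h7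
  · rintro ⟨W', d, f, i, y⟩ _ ⟨W₁, x₁⟩ h1 ⟨W₂, x₂⟩ h2
    simp only [Set.mem_ofPred_eq] at h1 h2
    obtain ⟨-, A, B, hp, e1, e2, e3, e4⟩ := h1
    obtain ⟨-, A', B', -, e1', e2', e3', e4'⟩ := h2
    rw [e1] at e1'
    obtain ⟨rfl, rfl⟩ := split_unique N A A' B B' _ _ _ _ e2 e2' e1'
    have hW : W₁ = W₂ := (List.map_injective_iff.2 (rZ_inj hrtc hp)) (Ra_unique e3 e3')
    have hx : x₁ = x₂ := by
      rw [e4] at e4'
      exact Rp_inj hrtc hp (sub_left_injective e4')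
    subst hW hx
    rfl

theorem EZ_app (T : ℕ) (v : ℕ → List Dir) (A B : List Sz) :
    EZ T v (A ++ B) = EZ T v A ++ EZ T v B := by
  unfold EZ
  rw [List.flatMap_append]

/-- few engine blocks after the insertion of a block -/
theorem few (hA1 : StmtA1) {T₀ Lr : ℕ} {v₀ : List Dir} (hv₀ : SmR Lr v₀) {C : ℕ}
    (hC : ∀ l1 I J l2 : List Dir,
      SAP (l1 ++ I ++ l2) → SAP (l1 ++ J ++ l2) → pos I = pos J →
      J.length ≤ (blk T₀ v₀).length + 2 →
      (∃ z : Z3, ∀ p ∈ path (l1 ++ I ++ l2), p ∈ path (l1 ++ J ++ l2) ∨ p = z) →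
      (EP T₀ Lr v₀ (l1 ++ J ++ l2)).card ≤ (EP T₀ Lr v₀ (l1 ++ I ++ l2)).card + C)
    {𝒬 : List V → Prop} {W : List Sz} (hW : VaZ 𝒬 T₀ Lr (fun _ => v₀) W) {M : ℕ}
    (hM : (EP T₀ Lr v₀ (EZ T₀ (fun _ => v₀) W)).card ≤ M) {d f : Dir} (hdf : perp d f)
    {A B : List Sz} {i : ℕ} (hnew : VaZ 𝒬 T₀ Lr (fun _ => v₀) (A ++ .bl i .xp .zp :: B))
    (hR : RlZ W d f A B) :
    (EP T₀ Lr v₀ (EZ T₀ (fun _ => v₀) (A ++ .bl i .xp .zp :: B))).card ≤ M + C := by
  have hv : SmB Lr (blk 0 v₀).length (fun _ => v₀) := fun _ => ⟨hv₀, le_rfl⟩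
  have hrot : (EZ T₀ (fun _ => v₀) W).map (rt d f) = EZ T₀ (fun _ => v₀) (W.map (rZ d f)) :=
    ((e_bas T₀ Lr _ _ hv W).2.2.2.2 d f hdf
      (fun A B' i d' f' h => (hW.room A B' i d' f' h).1)).1
  have hE : (EP T₀ Lr v₀ (EZ T₀ (fun _ => v₀) (W.map (rZ d f)))).card ≤ M := by
    rw [← hrot]
    exact (card_le_card (hA1 T₀ Lr v₀ d f hdf _)).trans hM
  have hS : SAP (EZ T₀ (fun _ => v₀) (W.map (rZ d f))) := by
    rw [← hrot]
    exact (T_rt_proof d f hdf _ hW.ext).1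
  have hS' := hnew.ext
  have hpb : pos ((blk T₀ v₀).map (rt .xp .zp)) = vec .zp :=
    OV.posI T_rtc_proof hv 0 (show perp .xp .zp by decide)
  have hlb : ((blk T₀ v₀).map (rt .xp .zp)).length = (blk T₀ v₀).length := List.length_map _
  generalize hbk : (blk T₀ v₀).map (rt .xp .zp) = Bk at hpb hlb
  have key : ∀ l1 I J l2 : List Dir, EZ T₀ (fun _ => v₀) (W.map (rZ d f)) = l1 ++ I ++ l2 →
      EZ T₀ (fun _ => v₀) (A ++ .bl i .xp .zp :: B) = l1 ++ J ++ l2 → pos I = pos J →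
      J.length ≤ (blk T₀ v₀).length + 2 → (∃ z, ∀ q ∈ path I, q ∈ path J ∨ q = z) →
      (EP T₀ Lr v₀ (EZ T₀ (fun _ => v₀) (A ++ .bl i .xp .zp :: B))).card ≤ M + C := by
    rintro l1 I J l2 e1 e2 e3 e4 ⟨z, e5⟩
    rw [e1] at hS hE
    rw [e2] at hS' ⊢
    exact (hC l1 I J l2 hS hS' e3 e4 ⟨_, path_change l1 l2 I J e3 z e5⟩).trans
      (Nat.add_le_add_right hE C)
  have hZ : EZ T₀ (fun _ => v₀) (A ++ .bl i .xp .zp :: B) =
      EZ T₀ (fun _ => v₀) A ++ Bk ++ EZ T₀ (fun _ => v₀) B := by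
    rw [EZ_app, ← hbk]
    simp [EZ, szw]
  rcases hR with h | ⟨M', hM', h⟩ | ⟨M', hM', h⟩
  · refine key (EZ T₀ (fun _ => v₀) A) [.zp] Bk (EZ T₀ (fun _ => v₀) B) ?_ hZ ?_ (by omega)
      ⟨0, ?_⟩
    · rw [h, EZ_app]
      simp [EZ, szw]
    · rw [hpb]
      simp [pos]
    · intro q hq
      simp only [path, pos, zero_add, List.mem_cons, List.not_mem_nil, or_false] at hq
      left
      rcases hq with rfl | rfl
      · rw [← hpb]
        exact KN.pos_mem_path _
      · exact KN.zero_mem_path _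
  · refine key (EZ T₀ (fun _ => v₀) M') [.zp, .xm] (.xm :: Bk) (EZ T₀ (fun _ => v₀) B) ?_ ?_ ?_
      (by rw [List.length_cons]; omega) ⟨vec .xm, ?_⟩
    · rw [h, EZ_app]
      simp [EZ, szw]
    · rw [hZ, hM', EZ_app]
      simp [EZ, szw]
    · simp only [pos, hpb]
      abel
    · intro q hq
      simp only [path, pos, zero_add, List.mem_cons, List.not_mem_nil, or_false] at hq
      rcases hq with rfl | rfl | rfl
      · left
        have : vec .xm + vec .zp = pos (.xm :: Bk) := by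
          rw [pos, hpb]
          abel
        rw [this]
        exact KN.pos_mem_path _
      · right
        rfl
      · left
        exact KN.zero_mem_path _
  · refine key (EZ T₀ (fun _ => v₀) A) [.xp, .zp] (Bk ++ [.xp]) (EZ T₀ (fun _ => v₀) M') ?_ ?_ ?_
      (by rw [List.length_append, List.length_singleton]; omega) ⟨vec .zp, ?_⟩
    · rw [h, EZ_app]
      simp [EZ, szw]
    · rw [hZ, hM']
      simp [EZ, szw]
    · simp only [pos_append, pos, hpb]
      abel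
    · intro q hq
      simp only [path, pos, zero_add, List.mem_cons, List.not_mem_nil, or_false] at hq
      rcases hq with rfl | rfl | rfl
      · left
        have : vec .zp + vec .xp = pos (Bk ++ [.xp]) := by
          rw [pos_append, hpb]
          simp [pos]
        rw [this]
        exact KN.pos_mem_path _
      · right
        rfl
      · left
        exact KN.zero_mem_path _

end ModA3

open ModA3

/-- one more block: version for words with few engine blocks -/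
theorem a3 (hA1 : StmtA1) (hA2 : StmtA2) : StmtA3 := by
  intro T₀ Lr R v₀ hv₀ hLL hR
  obtain ⟨Cc, hCc⟩ := hA2 T₀ Lr v₀ hv₀
  obtain ⟨v, hvd⟩ : ∃ v : ℕ → List Dir, v = fun _ => v₀ := ⟨_, rfl⟩
  obtain ⟨B, hB⟩ : ∃ B : ℕ, B = (blk 0 v₀).length := ⟨_, rfl⟩
  have hv : SmB Lr B v := by
    intro i
    rw [hvd, hB]
    exact ⟨hv₀, le_rfl⟩
  obtain ⟨c, hc, hev⟩ := d_many R hR
  obtain ⟨n₀, hn₀⟩ := eventually_atTop.1 hev
  obtain ⟨r, hr⟩ : ∃ r, r = raZ T₀ Lr B := ⟨_, rfl⟩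
  obtain ⟨q, hq⟩ : ∃ q : ℕ, q = (2 * r + 1) ^ 3 := ⟨_, rfl⟩
  have hq0 : (0 : ℝ) < q := by
    rw [hq]
    positivity
  obtain ⟨Q, hQ⟩ : ∃ Q : ℕ, Q = (6 * (6 * (3 * 13 ^ 3))) := ⟨_, rfl⟩
  have hQ0 : (0 : ℝ) < Q := by
    rw [hQ]
    positivity
  refine ⟨c / (2 * Q), c / (2 * q), Cc, max n₀ 1, by positivity, by positivity,
    le_max_right _ _, ?_⟩
  intro 𝒬 hTC n hn N M hN
  rw [← hvd]
  have hn' : n₀ ≤ n := (le_max_left _ _).trans hn
  obtain ⟨D, hD⟩ : ∃ D : ℕ, D = ((List.range N).map (fun i => (blk T₀ (v i)).length - 1)).sum :=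
    ⟨_, rfl⟩
  have hn1 := hn₀ (n + D) (by omega)
  have hM0 : ((N * q : ℕ) : ℝ) ≤ c / 2 * (n : ℝ) ^ (2 / 3 : ℝ) := by
    push_cast
    have h1 := mul_le_mul_of_nonneg_right hN hq0.le
    refine h1.trans (le_of_eq ?_)
    field_simp
  have hC : ∀ W : List Sz, ∃ C : Finset Z3, W ∈ VZ 𝒬 T₀ Lr v N n →
      (c / 2 * (n : ℝ) ^ (2 / 3 : ℝ) ≤ C.card ∧ ∀ x ∈ C, ¬ near 6 x 0 ∧
        (∃ N, Cont R {p | p ∈ path (EZ T₀ v W)} x N) ∧ faZ T₀ v r W x) := by
    intro W
    by_cases hW : W ∈ VZ 𝒬 T₀ Lr v N n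
    swap
    · exact ⟨∅, fun h => absurd h hW⟩
    rw [q_mem] at hW
    obtain ⟨hW1, hW2, hW3⟩ := hW
    have hlen : (EZ T₀ v W).length = n + D := by
      rw [(e_bas T₀ Lr B v hv W).2.2.1, hW1, (hW2.map _).sum_eq, hD]
    obtain ⟨C, hC1, hC2⟩ := hn1 (EZ T₀ v W) hW3.ext hlen
    refine ⟨C.filter (fun x => faZ T₀ v r W x), fun _ => ⟨?_, ?_⟩⟩
    · have hbad : (C.filter (fun x => ¬ faZ T₀ v r W x)).card ≤ N * q := by
        have hsub : C.filter (fun x => ¬ faZ T₀ v r W x) ⊆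
            (bps T₀ v W).toFinset.biUnion (fun q => box r q) := by
          intro x hx
          rw [mem_filter] at hx
          obtain ⟨-, hx⟩ := hx
          unfold faZ at hx
          push Not at hx
          obtain ⟨A, B', i, d, f, hAB, hx⟩ := hx
          rw [mem_biUnion]
          refine ⟨pos (EZ T₀ v B'), ?_, mem_box.2 hx⟩
          rw [List.mem_toFinset, hAB]
          exact mem_bps T₀ v A B' i d f
        refine (card_le_card hsub).trans ?_
        refine (card_biUnion_le_card_mul _ _ ((2 * r + 1) ^ 3) (fun q _ => (card_box r q).le)).trans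
          ?_
        rw [hq]
        apply Nat.mul_le_mul_right
        refine (List.toFinset_card_le _).trans ?_
        rw [bps_length, hW2.length_eq, List.length_range]
      have hsum := card_filter_add_card_filter_not (s := C) (fun x => faZ T₀ v r W x)
      have hn3 : (n : ℝ) ^ (2 / 3 : ℝ) ≤ ((n + D : ℕ) : ℝ) ^ (2 / 3 : ℝ) := by
        apply Real.rpow_le_rpow (by positivity) _ (by norm_num)
        exact_mod_cast Nat.le_add_right _ _
      have hn4 : c * (n : ℝ) ^ (2 / 3 : ℝ) ≤ C.card :=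
        (mul_le_mul_of_nonneg_left hn3 hc.le).trans hC1
      have hb' : ((C.filter (fun x => ¬ faZ T₀ v r W x)).card : ℝ) ≤ ((N * q : ℕ) : ℝ) := by
        exact_mod_cast hbad
      have hs' : ((C.filter (fun x => faZ T₀ v r W x)).card : ℝ) +
          ((C.filter (fun x => ¬ faZ T₀ v r W x)).card : ℝ) = C.card := by
        exact_mod_cast hsum
      linarith
    · intro x hx
      rw [mem_filter] at hx
      exact ⟨(hC2 x hx.1).1, (hC2 x hx.1).2, hx.2⟩
  choose C hC using hC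
  obtain ⟨S, hSd⟩ : ∃ S, S = (VZ 𝒬 T₀ Lr v N n).filter
    (fun W => (EP T₀ Lr v₀ (EZ T₀ v W)).card ≤ M) := ⟨_, rfl⟩
  obtain ⟨S', hSd'⟩ : ∃ S', S' = (VZ 𝒬 T₀ Lr v (N + 1) n).filter
    (fun W => (EP T₀ Lr v₀ (EZ T₀ v W)).card ≤ M + Cc) := ⟨_, rfl⟩
  rw [← hSd, ← hSd']
  have key := count' T₀ Lr v N n S S' (by rw [hSd]; exact filter_subset _ _) C (by
    intro W hW x hx
    rw [hSd, mem_filter] at hW
    obtain ⟨hW, hWM⟩ := hW
    obtain ⟨-, h3⟩ := hC W hW
    obtain ⟨h4, ⟨N', h5⟩, h6⟩ := h3 x hx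
    rw [hr] at h6
    obtain ⟨d, f, A, B', k1, k2, k3, k4⟩ :=
      q_con hTC T₀ Lr B R v hv hLL W ((q_mem _ _ _ _ _ _).1 hW).2.2 x N' h5 h4 h6 N
    refine ⟨d, f, A, B', k1, fun hmem => ?_, k2, k3, k4⟩
    rw [hSd', mem_filter]
    refine ⟨hmem, ?_⟩
    have hVW := ((q_mem _ _ _ _ _ _).1 hW).2.2
    rw [hvd] at hVW hWM k2 ⊢
    exact few hA1 hv₀ hCc hVW hWM k1 k2 k4)
  have hlow : c / 2 * (n : ℝ) ^ (2 / 3 : ℝ) * S.card ≤
      ((∑ W ∈ S, (C W).card : ℕ) : ℝ) := by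
    push_cast
    rw [mul_comm, ← nsmul_eq_mul]
    refine Finset.card_nsmul_le_sum _ _ _ (fun W hW => (hC W ?_).1)
    rw [hSd, mem_filter] at hW
    exact hW.1
  have key' : ((∑ W ∈ S, (C W).card : ℕ) : ℝ) ≤ S'.card * Q := by
    rw [hQ]
    exact_mod_cast key
  have hfin := hlow.trans key'
  rw [div_mul_eq_mul_div, div_mul_eq_mul_div, div_le_iff₀ (by positivity)]
  calc c * (n : ℝ) ^ (2 / 3 : ℝ) * S.card
      = 2 * (c / 2 * (n : ℝ) ^ (2 / 3 : ℝ) * S.card) := by ring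
    _ ≤ 2 * (S'.card * Q) := by linarith
    _ = S'.card * (2 * Q) := by ring

end Pool.Agent.T6.H66.EQ
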