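import Pool.Agent.T6.H66.EQ.Defs

/-!
Project EQ, module A4: multiplicity.
-/

set_option autoImplicit false

namespace Pool.Agent.T6.H66.EQ

open Finset Filter Topology KN KN.KQ
open scoped Classical

namespace A4

open KN.K3YMUL

theorem sub (T₀ Lr : ℕ) (v₀ : List Dir) (𝒬 : List V → Prop) (w : List Dir) (W : List Sz)
    (hV : VaZ 𝒬 T₀ Lr (fun _ => v₀) W) (hw : EZ T₀ (fun _ => v₀) W = w) :
    Pool.Agent.T6.H44.LK.Ps T₀ (fun _ => v₀) 0 W ⊆ EP T₀ Lr v₀ w := by
  intro m hm
  unfold Pool.Agent.T6.H44.LK.Ps at hm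
  rw [Finset.mem_image] at hm
  obtain ⟨⟨m', i, d, f⟩, hm, rfl⟩ := hm
  obtain ⟨A, B', h1, h2⟩ := Sp_mem T₀ (fun _ => v₀) W 0 m' i d f hm
  unfold EP
  rw [Finset.mem_filter, Finset.mem_range]
  have h3 := OV.vb_of hV h1
  rw [hw] at h3
  have h4 : m' = (EZ T₀ (fun _ => v₀) A).length := by omega
  refine ⟨?_, d, f, EZ T₀ (fun _ => v₀) A, EZ T₀ (fun _ => v₀) B', h4.symm, h3⟩
  show m' < w.length + 1
  have h8 := congrArg List.length hw
  rw [h1, EZ_append, List.length_append] at h8
  omega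

end A4

theorem a4 : StmtA4 := by
  intro T₀ Lr v₀ hv 𝒬 N n M w hM
  have hcard : ((EP T₀ Lr v₀ w).powerset ×ˢ (((List.range N).permutations.toFinset) ×ˢ
      ((univ : Finset (Fin N → Dir × Dir)).image List.ofFn))).card ≤
      2 ^ M * (N.factorial * 36 ^ N) := by
    rw [card_product, card_product, card_powerset]
    refine Nat.mul_le_mul (Nat.pow_le_pow_right (by norm_num) hM) (Nat.mul_le_mul ?_ ?_)
    · refine (List.toFinset_card_le _).trans ?_
      rw [List.length_permutations, List.length_range]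
    · refine Finset.card_image_le.trans ?_
      rw [Finset.card_univ, Fintype.card_fun, Fintype.card_fin, Fintype.card_prod]
      have : Fintype.card Dir = 6 := rfl
      rw [this]
  refine le_trans ?_ hcard
  refine Finset.card_le_card_of_injOn
    (fun W => (Pool.Agent.T6.H44.LK.Ps T₀ (fun _ => v₀) 0 W, lab W,
      Pool.Agent.T6.H44.LK.drs W)) ?_ ?_
  · intro W hW
    rw [Finset.mem_coe] at hW
    rw [Finset.mem_filter, q_mem] at hW
    obtain ⟨⟨_, hlab, hV⟩, hw⟩ := hW
    rw [Finset.mem_coe, mem_product, mem_product]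
    refine ⟨Finset.mem_powerset.2 (A4.sub T₀ Lr v₀ 𝒬 w W hV hw), ?_, ?_⟩
    · rw [List.mem_toFinset, List.mem_permutations]
      exact hlab
    · rw [Finset.mem_image]
      have hlen : (Pool.Agent.T6.H44.LK.drs W).length = N := by
        rw [Pool.Agent.T6.H44.LK.drs_length, hlab.length_eq, List.length_range]
      refine ⟨fun i => (Pool.Agent.T6.H44.LK.drs W).get (Fin.cast hlen.symm i),
        Finset.mem_univ _, ?_⟩
      apply List.ext_getElem
      · rw [List.length_ofFn, hlen]
      · intro i h2 h3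
        rw [List.getElem_ofFn]
        rfl
  · intro W hW W' hW' he
    rw [Finset.mem_coe, Finset.mem_filter] at hW hW'
    simp only [Prod.mk.injEq] at he
    exact Pool.Agent.T6.H44.LK.inj2 T₀ (fun _ => v₀) W W' 0 (by rw [hW.2, hW'.2])
      he.1 he.2.1 he.2.2

end Pool.Agent.T6.H66.EQ
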