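import Pool.Agent.T6.H66.EQ.Defs

/-!
Project EQ, module A5: few engine blocks are rare in a class closed under connected sums.
-/

set_option autoImplicit false

namespace Pool.Agent.T6.H66.EQ

open Finset Filter Topology KN KN.KQ
open scoped Classical

namespace A5

open Pool.Agent.T6.H44.LK

/-- words with `N` blocks and at most `M` engine blocks -/
noncomputable def X (𝒬 : List V → Prop) (T₀ Lr : ℕ) (v₀ : List Dir) (n N M : ℕ) : ℕ :=
  ((VZ 𝒬 T₀ Lr (fun _ => v₀) N n).filter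
    (fun W => (EP T₀ Lr v₀ (EZ T₀ (fun _ => v₀) W)).card ≤ M)).card

theorem iter {𝒬 : List V → Prop} {T₀ Lr : ℕ} {v₀ : List Dir} {c₁ s t : ℝ} (hc₁ : 0 ≤ c₁ * s)
    {C n : ℕ}
    (h : ∀ N M : ℕ, (N : ℝ) ≤ t →
      c₁ * s * (X 𝒬 T₀ Lr v₀ n N M : ℝ) ≤ (X 𝒬 T₀ Lr v₀ n (N + 1) (M + C) : ℝ)) (M : ℕ) :
    ∀ N : ℕ, (N : ℝ) ≤ t →
      (c₁ * s) ^ N * (X 𝒬 T₀ Lr v₀ n 0 M : ℝ) ≤ (X 𝒬 T₀ Lr v₀ n N (M + N * C) : ℝ) := by
  intro N
  induction N with
  | zero => intro _; simp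
  | succ N ih =>
    intro hN
    push_cast at hN
    have h1 := ih (by linarith)
    have h2 := h N (M + N * C) (by linarith)
    have h3 : M + (N + 1) * C = M + N * C + C := by ring
    rw [h3]
    refine le_trans ?_ h2
    rw [pow_succ']
    calc c₁ * s * (c₁ * s) ^ N * (X 𝒬 T₀ Lr v₀ n 0 M : ℝ)
        = c₁ * s * ((c₁ * s) ^ N * (X 𝒬 T₀ Lr v₀ n 0 M : ℝ)) := by ring
      _ ≤ c₁ * s * (X 𝒬 T₀ Lr v₀ n N (M + N * C) : ℝ) := mul_le_mul_of_nonneg_left h1 hc₁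

open KN.KQ.K3YZERO in
theorem zero {Q : List Dir → Prop} (hQ : KClass Q) (T₀ Lr : ℕ) (v₀ : List Dir) (n M : ℕ) :
    ((K Q n).filter (fun w => (EP T₀ Lr v₀ w).card ≤ M)).card ≤ X (up Q) T₀ Lr v₀ n 0 M := by
  unfold X
  refine Finset.card_le_card_of_injOn (fun w => w.map Sz.lt) ?_ ?_
  · intro w hw
    rw [Finset.mem_coe, Finset.mem_filter] at hw
    obtain ⟨hw, hM⟩ := hw
    obtain ⟨h1, h2, h3⟩ := mem_K.1 hw
    rw [Finset.mem_coe, Finset.mem_filter]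
    refine ⟨(q_mem T₀ Lr (fun _ => v₀) 0 n _).2
      ⟨by rw [List.length_map, h1], by rw [KN.KQ.K3YZERO.lab_map]; rfl, ?_⟩, ?_⟩
    · refine ⟨?_, ?_, ?_, ?_⟩
      · rw [KN.KQ.K3YZERO.BZ_map]; exact (up_iff hQ h2).2 h3
      · rw [KN.KQ.K3YZERO.BZ_map]; exact h2
      · rw [KN.KQ.K3YZERO.EZ_map]; exact h2
      · intro A B i d f h
        exfalso
        have h4 : KN.lab (w.map Sz.lt) = [] := KN.KQ.K3YZERO.lab_map w
        have h5 : w.map Sz.lt = A ++ Sz.bl i d f :: B := h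
        rw [h5] at h4
        unfold KN.lab at h4
        rw [List.filterMap_eq_nil_iff] at h4
        have := h4 (.bl i d f) (by simp)
        simp at this
    · rw [KN.KQ.K3YZERO.EZ_map]; exact hM
  · intro w1 _ w2 _ h
    have h1 := congrArg BZ h
    simp only [KN.KQ.K3YZERO.BZ_map] at h1
    exact h1

theorem upper (ha4 : StmtA4) {Q : List Dir → Prop} (hQ : KClass Q) (hc : CSum Q)
    {T₀ Lr : ℕ} {v₀ : List Dir} (hv0 : SmR Lr v₀) (hq : Q (.zm :: v₀)) (n N M : ℕ) :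
    X (up Q) T₀ Lr v₀ n N M ≤
      2 ^ M * (N.factorial * 36 ^ N) * a Q (n + N * ((blk T₀ v₀).length - 1)) := by
  obtain ⟨B, hB⟩ : ∃ B, B = (blk 0 v₀).length := ⟨_, rfl⟩
  have hv : SmB Lr B (fun _ => v₀) := fun _ => ⟨hv0, hB.ge⟩
  obtain ⟨b, hb⟩ : ∃ b, b = (blk T₀ v₀).length - 1 := ⟨_, rfl⟩
  rw [← hb]
  have hsum : ∀ W : List Sz, (KN.lab W).Perm (List.range N) →
      ((KN.lab W).map (fun _ => (blk T₀ v₀).length - 1)).sum = N * b := by
    intro W hW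
    rw [List.map_const', List.sum_replicate, hW.length_eq, List.length_range, smul_eq_mul, hb]
  unfold X
  obtain ⟨F, hF⟩ : ∃ F, F = (VZ (up Q) T₀ Lr (fun _ => v₀) N n).filter
    (fun W => (EP T₀ Lr v₀ (EZ T₀ (fun _ => v₀) W)).card ≤ M) := ⟨_, rfl⟩
  rw [← hF]
  have h4 : F.card ≤ 2 ^ M * (N.factorial * 36 ^ N) * (F.image (EZ T₀ (fun _ => v₀))).card := by
    apply Finset.card_le_mul_card_image
    intro w hw
    obtain ⟨W, hW, rfl⟩ := Finset.mem_image.1 hw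
    rw [hF, Finset.mem_filter] at hW
    refine le_trans (Finset.card_le_card ?_) (ha4 T₀ Lr v₀ hv0 (up Q) N n M _ hW.2)
    intro W' hW'
    rw [Finset.mem_filter, hF, Finset.mem_filter] at hW'
    rw [Finset.mem_filter]
    exact ⟨hW'.1.1, hW'.2⟩
  refine h4.trans (Nat.mul_le_mul_left _ ?_)
  unfold a
  apply Finset.card_le_card
  intro w hw
  obtain ⟨W, hW, rfl⟩ := Finset.mem_image.1 hw
  rw [hF, Finset.mem_filter] at hW
  obtain ⟨hW1, hW2, hW3⟩ := (q_mem T₀ Lr (fun _ => v₀) N n W).1 hW.1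
  rw [mem_K]
  refine ⟨?_, hW3.ext, ?_⟩
  · rw [(e_bas T₀ Lr B (fun _ => v₀) hv W).2.2.1, hW1, hsum W hW2]
  · have h5 := q_type (up_TC Q) (fun _ => vl (.zm :: v₀)) T₀ Lr B (fun _ => v₀) hv N
      (fun i _ => Same.refl _) W hW2 hW3
    have hk : up Q (vl (.zm :: v₀)) := (up_iff hQ hv0.1).2 hq
    exact (up_iff hQ hW3.ext).1 (sums_up hQ hc hk (fun l hl => hl) N _ h5)

/-- the inequality for the numbers of the polygons -/
theorem pow_bound {Q : List Dir → Prop} (hQ : KClass Q) (hc : CSum Q)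
    (hne : ∃ w, SAP w ∧ Q w) : ∃ (G : ℝ) (J : ℕ), 1 ≤ G ∧ ∀ j : ℕ, J ≤ j → 1 ≤ j →
      ∀ N b : ℕ, (a Q (2 * j + N * (2 * b)) : ℝ) ≤ ((1 + 2 * b) * G ^ b) ^ N * a Q (2 * j) := by
  obtain ⟨G, J, hG, h⟩ := ratio_pow hQ hc hne
  refine ⟨G, J, hG, fun j hj hj1 N b => ?_⟩
  have h1 := h j hj (N * b)
  have hb0 : (0 : ℝ) ≤ b := Nat.cast_nonneg b
  have hN0 : (0 : ℝ) ≤ N := Nat.cast_nonneg N
  have hjr : (1 : ℝ) ≤ j := by exact_mod_cast hj1
  have h6 : 2 * j + N * (2 * b) = 2 * j + 2 * (N * b) := by ring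
  rw [h6]
  unfold pq at h1
  obtain ⟨x, hx⟩ : ∃ x : ℝ, x = (a Q (2 * j + 2 * (N * b)) : ℝ) := ⟨_, rfl⟩
  obtain ⟨y, hy⟩ : ∃ y : ℝ, y = (a Q (2 * j) : ℝ) := ⟨_, rfl⟩
  have hy0 : 0 ≤ y := by rw [hy]; exact Nat.cast_nonneg _
  rw [← hx, ← hy] at h1 ⊢
  rw [← mul_div_assoc, div_le_div_iff₀ (by positivity) (by positivity)] at h1
  have h2 : ((2 * j + 2 * (N * b) : ℕ) : ℝ) ≤ 2 * j * (1 + 2 * b) ^ N := by
    have h3 : 1 + (N : ℝ) * (2 * b) ≤ (1 + 2 * b) ^ N := one_add_mul_le_pow (by linarith) N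
    push_cast
    have h5 : (0 : ℝ) ≤ N * (2 * b) := by positivity
    nlinarith
  have h7 : x * (2 * (2 * j : ℝ)) ≤ ((1 + 2 * b) * G ^ b) ^ N * y * (2 * (2 * j : ℝ)) := by
    calc x * (2 * (2 * j : ℝ)) = x * (2 * ((2 * j : ℕ) : ℝ)) := by push_cast; ring
      _ ≤ G ^ (N * b) * y * (2 * ((2 * j + 2 * (N * b) : ℕ) : ℝ)) := h1
      _ ≤ G ^ (N * b) * y * (2 * (2 * j * (1 + 2 * b) ^ N)) :=
          mul_le_mul_of_nonneg_left (by linarith) (by positivity)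
      _ = ((1 + 2 * b) * G ^ b) ^ N * y * (2 * (2 * j : ℝ)) := by
          rw [mul_comm N b, pow_mul, mul_pow]
          ring
  exact le_of_mul_le_mul_right h7 (by positivity)

end A5

open A5 Pool.Agent.T6.H44.LK in
theorem a5 (ha3 : StmtA3) (ha4 : StmtA4) : StmtA5 := by
  intro T₀ Lr R v₀ hv0 hLL hR Q hQ hc hq
  have hne : ∃ w, SAP w ∧ Q w := ⟨.zm :: v₀, hv0.1, hq⟩
  obtain ⟨c₁, c₂, C, n₀, hc₁, hc₂, hn₀, hmain⟩ := ha3 T₀ Lr R v₀ hv0 hLL hR
  obtain ⟨G, J, hG, hratio⟩ := pow_bound hQ hc hne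
  have hG0 : 0 < G := by linarith
  -- the length of the blocks
  obtain ⟨b, hb⟩ : ∃ b, (blk T₀ v₀).length - 1 = 2 * b := by
    have hlen : (blk T₀ v₀).length = 2 * (T₀ + 1) + v₀.length := by
      unfold blk
      simp only [List.length_append, List.length_replicate]
      omega
    have hodd : (v₀.length + 1) % 2 = 0 := by
      have h2 := even_of_closed (hv0.1.2.1)
      simpa using h2
    exact ⟨((blk T₀ v₀).length - 1) / 2, by omega⟩
  -- the constants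
  obtain ⟨K2, hK2⟩ : ∃ K2 : ℝ, K2 = 2 * 2 ^ C * 36 * ((1 + 2 * b) * G ^ b) := ⟨_, rfl⟩
  have hK20 : 0 < K2 := by rw [hK2]; positivity
  obtain ⟨c₄, hc₄⟩ : ∃ c₄ : ℝ, c₄ = min c₂ (c₁ / (Real.exp 2 * K2)) := ⟨_, rfl⟩
  have hc₄0 : 0 < c₄ := by rw [hc₄]; exact lt_min hc₂ (by positivity)
  have hc₄2 : c₄ ≤ c₂ := by rw [hc₄]; exact min_le_left _ _
  have hc₄1 : K2 * c₄ / c₁ ≤ Real.exp (-2) := by
    have h1 : c₄ ≤ c₁ / (Real.exp 2 * K2) := by rw [hc₄]; exact min_le_right _ _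
    rw [div_le_iff₀ hc₁]
    calc K2 * c₄ ≤ K2 * (c₁ / (Real.exp 2 * K2)) := mul_le_mul_of_nonneg_left h1 hK20.le
      _ = Real.exp (-2) * c₁ := by
        rw [Real.exp_neg]
        field_simp
  obtain ⟨n₂, hn₂⟩ : ∃ n₂ : ℕ, n₂ = max n₀ (2 * J) := ⟨_, rfl⟩
  refine ⟨c₄, max (Real.exp 2) (Real.exp (c₄ * (n₂ : ℝ) ^ (2 / 3 : ℝ))), hc₄0,
    lt_max_of_lt_right (Real.exp_pos _), ?_⟩
  intro j
  obtain ⟨n, hn⟩ : ∃ n, n = 2 * j := ⟨_, rfl⟩
  have hnr : (2 * j : ℝ) = (n : ℝ) := by rw [hn]; push_cast; ring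
  rw [hnr, ← hn]
  have hpq0 : (0 : ℝ) ≤ a Q n := Nat.cast_nonneg _
  rcases Nat.lt_or_ge n n₂ with hsmall | hbig
  · -- small lengths
    have h1 : (((K Q n).filter
        (fun w => ((EP T₀ Lr v₀ w).card : ℝ) ≤ c₄ * (n : ℝ) ^ (2 / 3 : ℝ))).card : ℝ) ≤ a Q n := by
      unfold a
      exact_mod_cast Finset.card_filter_le _ _
    refine h1.trans ?_
    have h2 : (n : ℝ) ^ (2 / 3 : ℝ) ≤ (n₂ : ℝ) ^ (2 / 3 : ℝ) := by
      refine Real.rpow_le_rpow (Nat.cast_nonneg n) ?_ (by norm_num)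
      exact_mod_cast hsmall.le
    have h3 : 1 ≤ max (Real.exp 2) (Real.exp (c₄ * (n₂ : ℝ) ^ (2 / 3 : ℝ))) *
        Real.exp (-(c₄ * (n : ℝ) ^ (2 / 3 : ℝ))) := by
      calc (1 : ℝ) = Real.exp (c₄ * (n : ℝ) ^ (2 / 3 : ℝ)) *
            Real.exp (-(c₄ * (n : ℝ) ^ (2 / 3 : ℝ))) := by
            rw [← Real.exp_add]
            simp
        _ ≤ max (Real.exp 2) (Real.exp (c₄ * (n₂ : ℝ) ^ (2 / 3 : ℝ))) *
            Real.exp (-(c₄ * (n : ℝ) ^ (2 / 3 : ℝ))) := by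
            refine mul_le_mul_of_nonneg_right (le_trans ?_ (le_max_right _ _)) (Real.exp_pos _).le
            exact Real.exp_le_exp.2 (mul_le_mul_of_nonneg_left h2 hc₄0.le)
    nlinarith
  · -- large lengths
    have hb0 : n₀ ≤ n := (le_max_left _ _).trans (hn₂ ▸ hbig)
    have hbJ : 2 * J ≤ n := (le_max_right _ _).trans (hn₂ ▸ hbig)
    have hJj : J ≤ j := by omega
    have hj1 : 1 ≤ j := by omega
    have hnpos : (1 : ℝ) ≤ n := by
      have : 1 ≤ n := hn₀.trans hb0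
      exact_mod_cast this
    obtain ⟨s, hs⟩ : ∃ s : ℝ, s = (n : ℝ) ^ (2 / 3 : ℝ) := ⟨_, rfl⟩
    have hs1 : 1 ≤ s := by rw [hs]; exact Real.one_le_rpow hnpos (by norm_num)
    have hs0 : 0 < s := by linarith
    rw [← hs]
    obtain ⟨N, hN⟩ : ∃ N : ℕ, N = ⌊c₄ * s⌋₊ := ⟨_, rfl⟩
    have hN1 : (N : ℝ) ≤ c₄ * s := by rw [hN]; exact Nat.floor_le (by positivity)
    have hN2 : c₄ * s < N + 1 := by rw [hN]; exact Nat.lt_floor_add_one _
    obtain ⟨x, hx⟩ : ∃ x : ℝ, x = (((K Q n).filter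
        (fun w => ((EP T₀ Lr v₀ w).card : ℝ) ≤ c₄ * s)).card : ℝ) := ⟨_, rfl⟩
    obtain ⟨y, hy⟩ : ∃ y : ℝ, y = (a Q n : ℝ) := ⟨_, rfl⟩
    rw [← hx, ← hy]
    rw [← hy] at hpq0
    have h1 : x ≤ (X (up Q) T₀ Lr v₀ n 0 N : ℝ) := by
      rw [hx]
      have h2 : ((K Q n).filter (fun w => ((EP T₀ Lr v₀ w).card : ℝ) ≤ c₄ * s)).card ≤
          X (up Q) T₀ Lr v₀ n 0 N := by
        refine le_trans (Finset.card_le_card ?_) (zero hQ T₀ Lr v₀ n N)
        intro w hw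
        rw [Finset.mem_filter] at hw ⊢
        refine ⟨hw.1, ?_⟩
        rw [hN]
        exact Nat.le_floor hw.2
      exact_mod_cast h2
    have h2 := iter (𝒬 := up Q) (T₀ := T₀) (Lr := Lr) (v₀ := v₀) (c₁ := c₁) (s := s)
      (t := c₂ * s) (by positivity) (C := C) (n := n)
      (fun N M hNM => by
        have := hmain (up Q) (up_TC Q) n hb0 N M (by rw [← hs]; exact hNM)
        rw [← hs] at this
        exact this) N N (hN1.trans (mul_le_mul_of_nonneg_right hc₄2 hs0.le))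
    have h3 := upper ha4 hQ hc hv0 hq (T₀ := T₀) n N (N + N * C)
    rw [hb] at h3
    have h4 := hratio j hJj hj1 N b
    rw [← hn, ← hy] at h4
    have h5 : (c₁ * s) ^ N * x ≤ N.factorial * K2 ^ N * y := by
      calc (c₁ * s) ^ N * x ≤ (c₁ * s) ^ N * (X (up Q) T₀ Lr v₀ n 0 N : ℝ) :=
            mul_le_mul_of_nonneg_left h1 (by positivity)
        _ ≤ (X (up Q) T₀ Lr v₀ n N (N + N * C) : ℝ) := h2
        _ ≤ ((2 ^ (N + N * C) * (N.factorial * 36 ^ N) * a Q (n + N * (2 * b)) : ℕ) : ℝ) := by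
            exact_mod_cast h3
        _ = 2 ^ (N + N * C) * (N.factorial * 36 ^ N) * (a Q (n + N * (2 * b)) : ℝ) := by
            push_cast
            ring
        _ ≤ 2 ^ (N + N * C) * (N.factorial * 36 ^ N) * (((1 + 2 * b) * G ^ b) ^ N * y) :=
            mul_le_mul_of_nonneg_left h4 (by positivity)
        _ = N.factorial * K2 ^ N * y := by
            have e1 : K2 ^ N = 2 ^ N * (2 ^ C) ^ N * 36 ^ N * ((1 + 2 * b) * G ^ b) ^ N := by
              rw [hK2, mul_pow (2 * 2 ^ C * 36), mul_pow (2 * 2 ^ C), mul_pow 2]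
            rw [e1, pow_add, mul_comm N C, pow_mul]
            ring
    have h6 : (N.factorial : ℝ) ≤ (c₄ * s) ^ N := by
      have h7 : (N.factorial : ℝ) ≤ (N : ℝ) ^ N := by exact_mod_cast Nat.factorial_le_pow N
      exact h7.trans (pow_le_pow_left₀ (Nat.cast_nonneg N) hN1 N)
    have h7 : x ≤ Real.exp (-2) ^ N * y := by
      have h8 : N.factorial * K2 ^ N * y ≤ (c₁ * s) ^ N * (Real.exp (-2) ^ N * y) := by
        calc N.factorial * K2 ^ N * y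
            ≤ (c₄ * s) ^ N * K2 ^ N * y := by gcongr
          _ = y * (s * (K2 * c₄)) ^ N := by
              rw [mul_pow, mul_pow, mul_pow]
              ring
          _ ≤ y * (s * (Real.exp (-2) * c₁)) ^ N := by
              refine mul_le_mul_of_nonneg_left (pow_le_pow_left₀ (by positivity)
                (mul_le_mul_of_nonneg_left ?_ hs0.le) N) (by positivity)
              rwa [div_le_iff₀ hc₁] at hc₄1
          _ = (c₁ * s) ^ N * (Real.exp (-2) ^ N * y) := by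
              rw [mul_pow, mul_pow, mul_pow]
              ring
      exact le_of_mul_le_mul_left (h5.trans h8) (by positivity)
    have h9 : Real.exp (-2) ^ N ≤ Real.exp 2 * Real.exp (-(2 * (c₄ * s))) := by
      rw [← Real.exp_nat_mul, ← Real.exp_add, Real.exp_le_exp]
      linarith
    refine h7.trans ?_
    refine mul_le_mul_of_nonneg_right ?_ hpq0
    refine h9.trans ?_
    refine mul_le_mul (le_max_left _ _) (Real.exp_le_exp.2 ?_) (Real.exp_pos _).le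
      (le_trans (by positivity) (le_max_left _ _))
    have : 0 ≤ c₄ * s := by positivity
    linarith

end Pool.Agent.T6.H66.EQ
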