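import Pool.Agent.T6.H66.EQ.Defs

/-! Module CONT: good contents (helper32). -/

set_option autoImplicit false

namespace Pool.Agent.T6.H66.EQ

open Finset Filter Topology KN KN.KQ
open scoped Classical

namespace CONTx

theorem mem_app {l1 l2 : List Dir} {p : Z3} (h : p ∈ path (l1 ++ l2)) :
    (∃ q ∈ path l1, p = q + pos l2) ∨ p ∈ path l2 := by
  rw [path_append] at h
  rcases List.mem_append.1 h with h | h
  · obtain ⟨q, hq, rfl⟩ := List.mem_map.1 h
    exact Or.inl ⟨q, List.mem_of_mem_dropLast hq, rfl⟩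
  · exact Or.inr h

theorem sap1 : SAP ([.zm, .ym] ++ .zp :: [.yp]) :=
  (T_rt_proof .yp .zp (by decide) sqw c_sq.2.1).1

theorem U1 : U ([.zm, .ym] ++ .zp :: [.yp]) :=
  Or.inl (T_rt_proof .yp .zp (by decide) sqw c_sq.2.1).2.symm

theorem sap2 : SAP ([.zm, .yp] ++ .zp :: [.ym]) :=
  (T_rt_proof .ym .zp (by decide) sqw c_sq.2.1).1

theorem fst1 : ∀ p ∈ path ([.zm, .ym] ++ .zp :: [.yp]), p.1 = 0 := by decide
theorem fst2 : ∀ p ∈ path ([.zm, .yp] ++ .zp :: [.ym]), p.1 = 0 := by decide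

theorem spot1 (L : ℕ) : Spot 0 L [.zm, .ym] [.yp] := by
  refine ⟨sap1, ?_, ?_⟩
  · intro j h1 h2
    omega
  · intro h h1 h2 _ _ _ hmem
    have h3 := fst1 _ hmem
    have h4 : (pos [Dir.yp] + h).1 = h.1 := by
      simp [pos, vec]
    rw [h4] at h3
    push_cast at h1
    omega

theorem spot2 (L : ℕ) : Spot 0 L [.zm, .yp] [.ym] := by
  refine ⟨sap2, ?_, ?_⟩
  · intro j h1 h2
    omega
  · intro h h1 h2 _ _ _ hmem
    have h3 := fst2 _ hmem
    have h4 : (pos [Dir.ym] + h).1 = h.1 := by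
      simp [pos, vec]
    rw [h4] at h3
    push_cast at h1
    omega

theorem pos_v {L : ℕ} {v : List Dir} (hv : SmR L v) : pos v = (0, 0, 1) := by
  have h := hv.1.2.1
  rw [pos] at h
  have : pos v = - vec .zm := by
    rw [← add_eq_zero_iff_eq_neg]
    exact h
  rw [this]
  rfl

/-- the box of a wrapped content -/
theorem smr_wrap {a : Dir} (ha : a = .ym ∨ a = .yp) {L' L : ℕ} {v : List Dir} (hv : SmR L' v)
    (hL : L' + 1 ≤ L) (hs : SAP (.zm :: (a :: blk 0 v ++ [neg a]))) :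
    SmR L (a :: blk 0 v ++ [neg a]) := by
  refine ⟨hs, ?_⟩
  intro p hp
  have e : a :: blk 0 v ++ [neg a] = [a, .xm] ++ (v ++ [.xp, neg a]) := by
    simp [blk]
  rw [e] at hp
  have hpv := pos_v hv
  have hL' : (L' : ℤ) + 1 ≤ L := by exact_mod_cast hL
  have hp0 : (0 : ℤ) ≤ (L' : ℤ) := Int.natCast_nonneg _
  have e2 : pos (v ++ [.xp, neg a]) = (0, 0, 1) + (vec (neg a) + (1, 0, 0)) := by
    rw [pos_append, hpv]
    simp only [pos, zero_add]
    rfl
  have key : ∀ p : Z3, ((∃ q ∈ path [a, .xm], p = q + pos (v ++ [.xp, neg a])) ∨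
      (∃ q ∈ path v, p = q + pos [.xp, neg a]) ∨ p ∈ path [.xp, neg a]) →
      0 ≤ p.1 ∧ p.1 ≤ L ∧ |p.2.1| ≤ L ∧ -(L : ℤ) ≤ p.2.2 ∧ p.2.2 ≤ L + 1 := by
    rintro p (⟨q, hq, rfl⟩ | ⟨q, hq, rfl⟩ | hp)
    · rw [e2]
      rcases ha with rfl | rfl <;>
      · simp only [path, pos, List.mem_cons, List.mem_nil_iff, or_false] at hq
        rcases hq with rfl | rfl | rfl <;> simp [vec, neg] <;> omega
    · obtain ⟨g1, g2, g3, g4, g5⟩ := hv.2 q hq
      rw [abs_le] at g3
      rcases ha with rfl | rfl <;>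
      · simp only [pos, neg, vec, Prod.fst_add, Prod.snd_add, zero_add, Prod.fst_zero,
          Prod.snd_zero, abs_le]
        omega
    · rcases ha with rfl | rfl <;>
      · simp only [path, pos, List.mem_cons, List.mem_nil_iff, or_false] at hp
        rcases hp with rfl | rfl | rfl <;> simp [vec, neg] <;> omega
  apply key
  rcases mem_app hp with h | h
  · exact Or.inl h
  · rcases mem_app h with h | h
    · exact Or.inr (Or.inl h)
    · exact Or.inr (Or.inr h)

/-- the hairpin -/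
theorem smr_hp (T : ℕ) : SmR (T + 2) (hp (T + 1)) := by
  have h0 : SAP ([.zm, .xm] ++ .zp :: [.xp]) := c_sq.2.1
  have hpx : pos [Dir.xp] = (1, 0, 0) := by decide
  have hsq : ∀ p ∈ path ([.zm, .xm] ++ .zp :: [.xp]), 0 ≤ p.1 ∧ p.1 ≤ 1 ∧ p.2.1 = 0 ∧
    0 ≤ p.2.2 ∧ p.2.2 ≤ 1 := by decide
  obtain ⟨h1, -, h3⟩ := T_hair_proof T [.zm, .xm] [.xp] h0 (by
    intro j hj hj'
    rw [hpx]
    constructor
    · intro h
      have := (hsq _ h).2.1
      simp only [Prod.mk_add_mk] at this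
      omega
    · intro h
      have := (hsq _ h).2.1
      simp only [Prod.mk_add_mk] at this
      omega)
  have e : hairL T [.zm, .xm] ++ .zp :: hairR T [.xp] = .zm :: hp (T + 1) := by
    unfold hairL hairR hp
    rw [List.replicate_succ, ← List.replicate_succ' (n := T) (a := Dir.xp)]
    simp
  rw [e] at h1 h3
  refine ⟨h1, fun p hpp => ?_⟩
  have hp' : p ∈ path (.zm :: hp (T + 1)) := by
    rw [path]
    exact List.mem_cons_of_mem _ hpp
  rcases h3 p hp' with h4 | ⟨j, hj, hj', h4⟩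
  · obtain ⟨g1, g2, g3, g4, g5⟩ := hsq p h4
    rw [g3]
    push_cast
    refine ⟨g1, by omega, by simp; omega, by omega, by omega⟩
  · rw [hpx] at h4
    rcases h4 with rfl | rfl <;>
    · push_cast
      simp only [Prod.mk_add_mk]
      refine ⟨by omega, by omega, by simp; omega, by omega, by omega⟩

end CONTx

open CONTx

theorem cont : StmtCONT := by
  intro k hk
  obtain ⟨L', v, hv, hvk⟩ := T_vex_proof k hk
  -- the length of `v` is odd
  obtain ⟨T, hT⟩ : ∃ T : ℕ, v.length = 2 * (T + 1) + 1 := by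
    have h1 := even_of_closed hv.1.2.1
    have h2 := hv.1.1
    simp only [List.length_cons] at h1 h2
    exact ⟨(v.length - 3) / 2, by omega⟩
  have hw1 := d_T1 0 L' [.zm, .ym] [.yp] v (spot1 L') hv U1
  have hw2 := d_ssap 0 (T + 2) [.zm, .yp] [.ym] (hp (T + 1)) (spot2 (T + 2)) (smr_hp T)
  have e1 : [Dir.zm, .ym] ++ blk 0 v ++ [.yp] = .zm :: (.ym :: blk 0 v ++ [.yp]) := by simp
  have e2 : [Dir.zm, .yp] ++ blk 0 (hp (T + 1)) ++ [.ym] =
    .zm :: (.yp :: blk 0 (hp (T + 1)) ++ [.ym]) := by simp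
  rw [e1] at hw1
  rw [e2] at hw2
  have hT1 : Same (vl (.zm :: (.ym :: blk 0 v ++ [.yp]))) k := hw1.2.trans hvk
  refine ⟨L' + T + 6, fun i => cond i (Dir.ym :: blk 0 v ++ [Dir.yp])
    (Dir.yp :: blk 0 (hp (T + 1)) ++ [Dir.ym]), ?_, hT1, T + 1, rfl⟩
  refine ⟨?_, ?_, ?_, ?_, ?_⟩
  · intro i
    cases i
    · exact smr_wrap (a := .yp) (Or.inr rfl) (smr_hp T) (by omega) hw2
    · exact smr_wrap (a := .ym) (Or.inl rfl) hv (by omega) hw1.1
  · simp only [cond_true, cond_false, blk, hp]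
    simp [hT]
    omega
  · simp only [cond_true, cond_false]
    intro h
    simp at h
  · intro i
    cases i <;> simp
  · intro i
    cases i
    · show (Dir.yp :: blk 0 (hp (T + 1)) ++ [Dir.ym]).getLast? ≠ some .xp
      rw [List.getLast?_concat]
      simp
    · show (Dir.ym :: blk 0 v ++ [Dir.yp]).getLast? ≠ some .xp
      rw [List.getLast?_concat]
      simp

end Pool.Agent.T6.H66.EQ
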