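import Pool.Agent.T6.H66.EQ.Defs

/-! Module DEEP: the deep content has the same type. -/

set_option autoImplicit false

namespace Pool.Agent.T6.H66.EQ

open Finset Filter Topology KN KN.KQ
open scoped Classical

namespace DEEP

lemma pos_app (a b : List Dir) : pos (a ++ b) = pos a + pos b := by
  induction a with
  | nil => simp [pos]
  | cons d a ih =>
    rw [List.cons_append, pos, pos, ih]
    abel

lemma pos_mem (b : List Dir) : pos b ∈ path b := by
  cases b with
  | nil => simp [pos, path]
  | cons d b => simp [pos, path]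

lemma mem_path_app (a b : List Dir) (p : Z3) (h : p ∈ path (a ++ b)) :
    (∃ q ∈ path a, p = q + pos b) ∨ p ∈ path b := by
  induction a with
  | nil => right; exact h
  | cons d a ih =>
    rw [List.cons_append, path, List.mem_cons] at h
    rcases h with h | h
    · left
      refine ⟨pos a + vec d, ?_, ?_⟩
      · rw [path]; exact List.mem_cons_self
      · rw [h, pos_app]; abel
    · rcases ih h with ⟨q, hq, e⟩ | h'
      · left
        refine ⟨q, ?_, e⟩
        rw [path]; exact List.mem_cons_of_mem _ hq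
      · right; exact h'

lemma pos_xp (s : ℕ) : pos (List.replicate s Dir.xp) = ((s : ℤ), 0, 0) := by
  induction s with
  | zero => rfl
  | succ s ih =>
    rw [List.replicate_succ, pos, ih]
    simp [vec]

lemma pos_xm (s : ℕ) : pos (List.replicate s Dir.xm) = (-(s : ℤ), 0, 0) := by
  induction s with
  | zero => rfl
  | succ s ih =>
    rw [List.replicate_succ, pos, ih]
    simp [vec]
    ring

lemma path_xp (s : ℕ) (p : Z3) (h : p ∈ path (List.replicate s Dir.xp)) :
    ∃ j : ℕ, j ≤ s ∧ p = ((j : ℤ), 0, 0) := by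
  induction s with
  | zero =>
    refine ⟨0, le_refl _, ?_⟩
    simp [path] at h
    rw [h]; rfl
  | succ s ih =>
    rw [List.replicate_succ, path, List.mem_cons] at h
    rcases h with h | h
    · refine ⟨s + 1, le_refl _, ?_⟩
      rw [h, pos_xp]
      simp [vec]
    · obtain ⟨j, hj, e⟩ := ih h
      exact ⟨j, by omega, e⟩

lemma path_xm (s : ℕ) (p : Z3) (h : p ∈ path (List.replicate s Dir.xm)) :
    ∃ j : ℕ, j ≤ s ∧ p = (-(j : ℤ), 0, 0) := by
  induction s with
  | zero =>
    refine ⟨0, le_refl _, ?_⟩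
    simp [path] at h
    rw [h]; rfl
  | succ s ih =>
    rw [List.replicate_succ, path, List.mem_cons] at h
    rcases h with h | h
    · refine ⟨s + 1, le_refl _, ?_⟩
      rw [h, pos_xm]
      simp [vec]
      ring
    · obtain ⟨j, hj, e⟩ := ih h
      exact ⟨j, by omega, e⟩

lemma deep_eq (s : ℕ) (hs : 2 ≤ s) (c : List Dir) :
    Dir.zm :: deep s c = [Dir.zm, Dir.xm] ++ blk (s - 2) c ++ [Dir.xp] := by
  unfold deep blk
  obtain ⟨t, rfl⟩ : ∃ t, s = t + 2 := ⟨s - 2, by omega⟩
  rw [show t + 2 - 2 = t by omega, show List.replicate (t + 2) Dir.xm =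
    Dir.xm :: List.replicate (t + 1) Dir.xm from List.replicate_succ,
    show List.replicate (t + 2) Dir.xp = List.replicate (t + 1) Dir.xp ++ [Dir.xp] from
      List.replicate_succ']
  simp [List.append_assoc]

lemma sq_sap : SAP ([Dir.zm, Dir.xm] ++ Dir.zp :: [Dir.xp]) := by
  refine ⟨by decide, by decide, by decide⟩

lemma sq_bd : ∀ p ∈ path ([Dir.zm, Dir.xm] ++ Dir.zp :: [Dir.xp]), p.1 ≤ 1 := by decide

lemma sq_spot (T L : ℕ) : Spot T L [Dir.zm, Dir.xm] [Dir.xp] := by
  refine ⟨sq_sap, ?_, ?_⟩
  · intro j hj _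
    constructor
    · intro h
      have := sq_bd _ h
      have e : (pos [Dir.xp]).1 = 1 := by decide
      rw [Prod.fst_add, e] at this
      simp only at this
      omega
    · intro h
      have := sq_bd _ h
      have e : (pos [Dir.xp]).1 = 1 := by decide
      rw [Prod.fst_add, e] at this
      simp only at this
      omega
  · intro h h1 _ _ _ _ hmem
    have := sq_bd _ hmem
    have e : (pos [Dir.xp]).1 = 1 := by decide
    rw [Prod.fst_add, e] at this
    omega

lemma sq_U : U ([Dir.zm, Dir.xm] ++ Dir.zp :: [Dir.xp]) := Or.inl (Relation.EqvGen.refl _)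

end DEEP

open DEEP in
/-- Module DEEP. -/
theorem deep_proof : StmtDEEP := by
  intro L s c hc hs
  have h1 := d_T1 (s - 2) L [Dir.zm, Dir.xm] [Dir.xp] c (sq_spot _ _) hc sq_U
  rw [← deep_eq s hs c] at h1
  refine ⟨⟨h1.1, ?_⟩, fun k hk => Relation.EqvGen.trans _ _ _ h1.2 hk⟩
  have hpc : pos c = (0, 0, 1) := by
    have := hc.1.2.1
    rw [pos] at this
    have h2 : pos c = - vec Dir.zm := eq_neg_of_add_eq_zero_left this
    rw [h2]; simp [vec]
  intro p hp
  unfold deep at hp
  rw [List.append_assoc] at hp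
  rcases mem_path_app _ _ _ hp with ⟨q, hq, e⟩ | hp
  · obtain ⟨j, hj, hq⟩ := path_xm s q hq
    rw [pos_app, hpc, pos_xp] at e
    rw [e, hq]
    simp only [Prod.mk_add_mk]
    push_cast
    refine ⟨by omega, by omega, ?_, by omega, by omega⟩
    simp
    omega
  · rcases mem_path_app _ _ _ hp with ⟨q, hq, e⟩ | hp
    · have hb := hc.2 q hq
      rw [pos_xp] at e
      obtain ⟨q1, q2, q3⟩ := q
      rw [e]
      simp only [Prod.mk_add_mk] at hb ⊢
      push_cast
      refine ⟨by omega, by omega, ?_, by omega, by omega⟩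
      have := hb.2.2.1
      rw [add_zero]
      omega
    · obtain ⟨j, hj, hq⟩ := path_xp s p hp
      rw [hq]
      push_cast
      refine ⟨by omega, by omega, ?_, by omega, by omega⟩
      simp
      omega

end Pool.Agent.T6.H66.EQ
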