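import Pool.Agent.T6.H66.EQ.Defs

/-!
Project EQ (helper66), module G1 (helper3): different blocks overlap only in their corridors.
-/

set_option autoImplicit false

namespace Pool.Agent.T6.H66.EQ

open Finset Filter Topology KN KN.KQ
open scoped Classical

noncomputable section

namespace ModG1

lemma vec_inj {a b : Dir} (h : vec a = vec b) : a = b := by
  cases a <;> cases b <;> simp_all [vec]

lemma neg_inj {a b : Dir} (h : neg a = neg b) : a = b := by
  cases a <;> cases b <;> simp_all [neg]

lemma rt_inj {d f : Dir} (h : perp d f) {a b : Dir} (hab : rt d f a = rt d f b) : a = b := by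
  revert d f a b
  decide

lemma pos_append (a b : List Dir) : pos (a ++ b) = pos b + pos a := by
  induction a with
  | nil => simp [pos]
  | cons x a ih => rw [List.cons_append, pos, pos, ih, add_assoc]

lemma vec_neg (a : Dir) : vec (neg a) = -vec a := by cases a <;> simp [vec, neg]

lemma pos_rep (n : ℕ) (a : Dir) : pos (List.replicate n a) = (n : ℤ) • vec a := by
  induction n with
  | zero => simp [pos]
  | succ n ih => rw [List.replicate_succ, pos, ih]; push_cast; rw [add_smul, one_smul]

lemma vec_rt (d f e : Dir) : vec (rt d f e) = Rp d f (vec e) := by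
  have e1 : vec .xp = (1, 0, 0) := rfl
  have e2 : vec .xm = (-1, 0, 0) := rfl
  have e3 : vec .yp = (0, 1, 0) := rfl
  have e4 : vec .ym = (0, -1, 0) := rfl
  have e5 : vec .zp = (0, 0, 1) := rfl
  have e6 : vec .zm = (0, 0, -1) := rfl
  cases e
  · rw [e1]; simp [rt, Rp]
  · rw [e2]; simp [rt, Rp, vec_neg]
  · rw [e3]; simp [rt, Rp]
  · rw [e4]; simp [rt, Rp, vec_neg]
  · rw [e5]; simp [rt, Rp]
  · rw [e6]; simp [rt, Rp, vec_neg]

lemma Rp_add (d f : Dir) (p q : Z3) : Rp d f (p + q) = Rp d f p + Rp d f q := by
  unfold Rp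
  simp only [Prod.fst_add, Prod.snd_add, add_smul]
  abel

lemma pos_map (d f : Dir) (w : List Dir) : pos (w.map (rt d f)) = Rp d f (pos w) := by
  induction w with
  | nil => simp [pos, Rp]
  | cons x w ih => rw [List.map_cons, pos, pos, ih, vec_rt, Rp_add]

/-- displacement of the content -/
lemma pos_u {L : ℕ} {v : List Dir} (h : SmR L v) : pos v = (0, 0, 1) := by
  have h1 := h.1.2.1
  rw [pos] at h1
  have h2 : pos v = -vec .zm := eq_neg_of_add_eq_zero_left h1
  rw [h2]
  simp [vec]

lemma len_u {L : ℕ} {v : List Dir} (h : SmR L v) : 3 ≤ v.length := by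
  have h1 := h.1.1
  simp only [List.length_cons] at h1
  omega

lemma pos_blk {T L : ℕ} {v : List Dir} (h : SmR L v) : pos (blk T v) = (0, 0, 1) := by
  unfold blk
  rw [pos_append, pos_append, pos_u h, pos_rep, pos_rep]
  simp [vec]

lemma mem_path_drop (w : List Dir) (m : ℕ) : pos (w.drop m) ∈ path w := by
  induction w generalizing m with
  | nil => simp [pos, path]
  | cons x w ih =>
    cases m with
    | zero => simp [pos, path]
    | succ m =>
      rw [List.drop_succ_cons, path]
      exact List.mem_cons_of_mem _ (ih m)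

lemma pos_drop_run (w : List Dir) (e : Dir) (s k : ℕ) (h : ∀ t < k, w[s + t]? = some e) :
    pos (w.drop s) = pos (w.drop (s + k)) + (k : ℤ) • vec e := by
  induction k with
  | zero => simp
  | succ k ih =>
    rw [ih fun t ht => h t (by omega)]
    have h1 := h k (by omega)
    obtain ⟨h2, h3⟩ := List.getElem?_eq_some_iff.1 h1
    rw [List.drop_eq_getElem_cons h2, pos, h3]
    push_cast
    rw [add_smul, one_smul, add_assoc, add_comm (vec e)]
    rfl

/-- no long runs in the content -/
lemma no_run {L T : ℕ} {v : List Dir} (h : SmR L v) (hT : 2 * L + 4 ≤ T) (e : Dir) (s : ℕ)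
    (hr : ∀ t < T + 1, v[s + t]? = some e) : False := by
  have h1 := pos_drop_run v e s (T + 1) hr
  have h2 := h.2 _ (mem_path_drop v s)
  have h3 := h.2 _ (mem_path_drop v (s + (T + 1)))
  generalize pos (v.drop s) = p at *
  generalize pos (v.drop (s + (T + 1))) = q at *
  obtain ⟨p1, p2, p3⟩ := p
  obtain ⟨q1, q2, q3⟩ := q
  simp only [abs_le] at h2 h3
  obtain ⟨a1, a2, ⟨a3, a4⟩, a5, a6⟩ := h2
  obtain ⟨b1, b2, ⟨b3, b4⟩, b5, b6⟩ := h3
  cases e <;> simp only [vec, Prod.smul_mk, smul_eq_mul, mul_one, mul_zero, Prod.mk_add_mk,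
    Prod.mk.injEq, mul_neg] at h1 <;> obtain ⟨c1, c2, c3⟩ := h1 <;> push_cast at * <;> omega

section places

variable {T : ℕ} {u : Bool → List Dir} {w : List Dir} {i : Bool} {X : Pt}

lemma bk_eq (T : ℕ) (u : Bool → List Dir) (i : Bool) (d f : Dir) :
    bk T u i d f = List.replicate (T + 1) (neg d) ++ ((u i).map (rt d f) ++
      List.replicate (T + 1) d) := by
  unfold bk blk
  rw [List.map_append, List.map_append, List.map_replicate, List.map_replicate,
    List.append_assoc]
  rfl

lemma len_bk (T : ℕ) (u : Bool → List Dir) (i : Bool) (d f : Dir) :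
    (bk T u i d f).length = 2 * (T + 1) + (u i).length := by
  rw [bk_eq]
  simp only [List.length_append, List.length_replicate, List.length_map]
  omega

/-- the first run -/
lemma run1 (h : At T u w i X) (t : ℕ) (ht : t ≤ T) : w[X.1 + t]? = some (neg X.2.1) := by
  obtain ⟨-, l1, l2, h1, h2⟩ := h
  rw [h2, List.append_assoc, List.getElem?_append_right (by omega), h1,
    show X.1 + t - X.1 = t by omega, bk_eq, List.append_assoc,
    List.getElem?_append_left (by simp; omega), List.getElem?_replicate]
  simp; omega

/-- the content -/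
lemma run2 (h : At T u w i X) (t : ℕ) (ht : t < (u i).length) :
    w[X.1 + (T + 1) + t]? = (u i)[t]?.map (rt X.2.1 X.2.2) := by
  obtain ⟨-, l1, l2, h1, h2⟩ := h
  rw [h2, List.append_assoc, List.getElem?_append_right (by omega), h1,
    show X.1 + (T + 1) + t - X.1 = (T + 1) + t by omega, bk_eq, List.append_assoc,
    List.getElem?_append_right (by simp)]
  rw [List.length_replicate, Nat.add_sub_cancel_left, List.append_assoc,
    List.getElem?_append_left (by simpa using ht), List.getElem?_map]

/-- the last run -/
lemma run3 (h : At T u w i X) (t : ℕ) (ht : t ≤ T) :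
    w[X.1 + (T + 1) + (u i).length + t]? = some X.2.1 := by
  obtain ⟨-, l1, l2, h1, h2⟩ := h
  rw [h2, List.append_assoc, List.getElem?_append_right (by omega), h1,
    show X.1 + (T + 1) + (u i).length + t - X.1 = (T + 1) + ((u i).length + t) by omega, bk_eq,
    List.append_assoc, List.getElem?_append_right (by simp)]
  rw [List.length_replicate, Nat.add_sub_cancel_left, List.append_assoc,
    List.getElem?_append_right (by simp), List.length_map, Nat.add_sub_cancel_left,
    List.getElem?_append_left (by simp; omega), List.getElem?_replicate]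
  simp; omega

/-- the block is a segment of the word -/
lemma seg (h : At T u w i X) :
    (w.drop X.1).take (2 * (T + 1) + (u i).length) = bk T u i X.2.1 X.2.2 := by
  obtain ⟨-, l1, l2, h1, h2⟩ := h
  rw [h2, List.append_assoc, ← h1, List.drop_left]
  rw [← len_bk T u i X.2.1 X.2.2, List.take_left]

end places

lemma len_eq {L : ℕ} {u : Bool → List Dir} (hu : Good L u) (i j : Bool) :
    (u i).length = (u j).length := by
  cases i <;> cases j <;> simp [hu.len]

lemma one_side (T L : ℕ) (u : Bool → List Dir) (hu : Good L u) (hT : 2 * L + 4 ≤ T)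
    (w : List Dir) (X Y : Pt) (i j : Bool) (hX : At T u w i X) (hY : At T u w j Y)
    (hne : X ≠ Y) (hle : X.1 ≤ Y.1) : X.1 + (T + 1) + (u true).length ≤ Y.1 := by
  by_contra hcon
  rw [← len_eq hu i true] at hcon
  have hl := len_u (hu.smr i)
  rcases Nat.lt_or_ge 0 (Y.1 - X.1) with h0 | h0
  · rcases Nat.lt_or_ge T (Y.1 - X.1) with h1 | h1
    · -- the first run of `Y` starts in the content of `X`
      obtain ⟨s, hs⟩ : ∃ s, Y.1 = X.1 + (T + 1) + s := ⟨Y.1 - (X.1 + (T + 1)), by omega⟩
      have hsl : s < (u i).length := by omega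
      rcases Nat.lt_or_ge (u i).length (s + (T + 1)) with h2 | h2
      · -- the run contains the end of the content
        have a1 := run1 hY ((u i).length - s) (by omega)
        have a2 := run3 hX 0 (by omega)
        rw [show Y.1 + ((u i).length - s) = X.1 + (T + 1) + (u i).length + 0 by omega, a2] at a1
        have a3 : X.2.1 = neg Y.2.1 := Option.some.inj a1
        have b1 := run1 hY ((u i).length - 1 - s) (by omega)
        have b2 := run2 hX ((u i).length - 1) (by omega)
        rw [show Y.1 + ((u i).length - 1 - s) = X.1 + (T + 1) + ((u i).length - 1) by omega,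
          b2] at b1
        rw [Option.map_eq_some_iff] at b1
        obtain ⟨e, he, he'⟩ := b1
        have h3 : e = .xp := by
          apply rt_inj hX.1
          rw [he', ← a3]
          rfl
        apply hu.lt i
        rw [List.getLast?_eq_getElem?, he, h3]
      · -- the run lies in the content
        have hr : ∀ t < T + 1, ∃ e, (u i)[s + t]? = some e ∧ rt X.2.1 X.2.2 e = neg Y.2.1 := by
          intro t ht
          have b1 := run1 hY t (by omega)
          have b2 := run2 hX (s + t) (by omega)
          rw [show Y.1 + t = X.1 + (T + 1) + (s + t) by omega, b2, Option.map_eq_some_iff] at b1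
          exact b1
        obtain ⟨e, -, he⟩ := hr 0 (by omega)
        refine no_run (hu.smr i) hT e s fun t ht => ?_
        obtain ⟨e', h3, h4⟩ := hr t ht
        rw [h3, rt_inj hX.1 (h4.trans he.symm)]
    · -- overlapping first runs
      have a1 := run1 hX (Y.1 - X.1) (by omega)
      have a2 := run1 hY 0 (by omega)
      rw [show X.1 + (Y.1 - X.1) = Y.1 + 0 by omega, a2] at a1
      have a3 : Y.2.1 = X.2.1 := neg_inj (Option.some.inj a1)
      have b1 := run1 hY (T + 1 - (Y.1 - X.1)) (by omega)
      have b2 := run2 hX 0 (by omega)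
      rw [show Y.1 + (T + 1 - (Y.1 - X.1)) = X.1 + (T + 1) + 0 by omega, b2,
        Option.map_eq_some_iff] at b1
      obtain ⟨e, he, he'⟩ := b1
      have h3 : e = .xm := by
        apply rt_inj hX.1
        rw [he', a3]
        rfl
      apply hu.hd i
      rw [List.head?_eq_getElem?, he, h3]
  · -- equal positions
    have heq : X.1 = Y.1 := by omega
    have a1 := run1 hX 0 (by omega)
    have a2 := run1 hY 0 (by omega)
    rw [heq, a2] at a1
    have a3 : Y.2.1 = X.2.1 := neg_inj (Option.some.inj a1)
    have b1 := seg hX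
    have b2 := seg hY
    rw [← heq, len_eq hu j i, b1] at b2
    have b3 := congrArg pos b2
    unfold bk at b3
    rw [pos_map, pos_map, pos_blk (hu.smr i), pos_blk (hu.smr j)] at b3
    have b4 : X.2.2 = Y.2.2 := by
      apply vec_inj
      simpa [Rp] using b3
    exact hne (Prod.ext heq (Prod.ext a3.symm b4))

end ModG1

open ModG1 in
theorem g1 : StmtG1 := by
  intro T L u hu hT w X Y ⟨i, hX⟩ ⟨j, hY⟩ hne
  rcases Nat.le_total X.1 Y.1 with h | h
  · exact Or.inl (one_side T L u hu hT w X Y i j hX hY hne h)
  · exact Or.inr (one_side T L u hu hT w Y X j i hY hX hne.symm h)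

end

end Pool.Agent.T6.H66.EQ
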