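import Pool.Agent.T6.H66.EQ.G1

/-!
Project EQ (helper66), module G2 (helper3): swaps and places.
-/

set_option autoImplicit false

namespace Pool.Agent.T6.H66.EQ

open Finset Filter Topology KN KN.KQ
open scoped Classical

noncomputable section

namespace ModG2

open ModG1

section

variable {T L : ℕ} {u : Bool → List Dir} {w : List Dir} {i j : Bool} {X Y : Pt}

lemma bl_eq (T : ℕ) (u : Bool → List Dir) : bl T u = 2 * (T + 1) + (u true).length := by
  unfold bl blk
  simp only [List.length_append, List.length_replicate]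
  omega

lemma len_bk' (hu : Good L u) (T : ℕ) (i : Bool) (d f : Dir) :
    (bk T u i d f).length = bl T u := by
  rw [ModG1.len_bk, bl_eq, ModG1.len_eq hu i true]

lemma bk_inj (hu : Good L u) {T : ℕ} {i j : Bool} {d f : Dir} (hp : perp d f)
    (h : bk T u i d f = bk T u j d f) : i = j := by
  by_contra hne
  have h1 : (u i).map (rt d f) = (u j).map (rt d f) := by
    rw [ModG1.bk_eq, ModG1.bk_eq] at h
    have h2 := List.append_cancel_left h
    exact List.append_cancel_right h2
  have h2 : u i = u j := List.map_injective_iff.2 (fun a b hab => ModG1.rt_inj hp hab) h1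
  have h3 := hu.ne
  cases i <;> cases j <;> simp_all

lemma take_l {l1 l2 c : List Dir} {n : ℕ} (h : l1.length = n) : (l1 ++ c ++ l2).take n = l1 := by
  rw [List.append_assoc, ← h, List.take_left]

lemma drop_l {l1 l2 c : List Dir} {n m : ℕ} (h : l1.length = n) (h' : c.length = m) :
    (l1 ++ c ++ l2).drop (n + m) = l2 := by
  rw [← h, ← h', ← List.length_append, List.drop_left]

lemma ty_eq (hu : Good L u) (h : At T u w i X) : ty T u w X = i := by
  unfold ty
  have key : At T u w true X → i = true := by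
    intro h'
    have h1 := ModG1.seg h
    have h2 := ModG1.seg h'
    rw [ModG1.len_eq hu true i, h1] at h2
    exact bk_inj hu h.1 h2
  cases i
  · rw [decide_eq_false_iff_not]
    intro h'
    exact absurd (key h') (by simp)
  · rw [decide_eq_true_iff]
    exact h

lemma swp_eq (hu : Good L u) {l1 l2 : List Dir} {d f : Dir} (hp : perp d f) (i : Bool) :
    swp T u (l1 ++ bk T u i d f ++ l2) (l1.length, d, f) = l1 ++ bk T u (!i) d f ++ l2 := by
  have h : At T u (l1 ++ bk T u i d f ++ l2) i (l1.length, d, f) := ⟨hp, l1, l2, rfl, rfl⟩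
  unfold swp
  rw [ty_eq hu h]
  simp only
  rw [take_l rfl, drop_l rfl (len_bk' hu T i d f)]

lemma bs_eq (hu : Good L u) {l1 l2 : List Dir} {d f : Dir} (i : Bool) :
    bs T u (l1 ++ bk T u i d f ++ l2) (l1.length, d, f) = l1 ++ f :: l2 := by
  unfold bs
  simp only
  rw [take_l rfl, drop_l rfl (len_bk' hu T i d f)]

lemma py_eq (hu : Good L u) {l1 l2 : List Dir} {d f : Dir} (i : Bool) :
    py T u (l1 ++ bk T u i d f ++ l2) (l1.length, d, f) = pos l2 := by
  unfold py
  simp only
  rw [drop_l rfl (len_bk' hu T i d f)]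

lemma at_iff (hu : Good L u) : At T u w j Y ↔ perp Y.2.1 Y.2.2 ∧
    (w.drop Y.1).take (bl T u) = bk T u j Y.2.1 Y.2.2 := by
  constructor
  · intro h
    refine ⟨h.1, ?_⟩
    have := ModG1.seg h
    rwa [ModG1.len_eq hu j true, ← bl_eq] at this
  · rintro ⟨hp, h⟩
    refine ⟨hp, w.take Y.1, (w.drop Y.1).drop (bl T u), ?_, ?_⟩
    · rw [List.length_take]
      have h1 := congrArg List.length h
      rw [len_bk' hu, List.length_take, List.length_drop] at h1
      have h2 := bl_eq T u
      omega
    · rw [← h, List.append_assoc, List.take_append_drop, List.take_append_drop]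

/-- a change of a subword of the same length and displacement does not change the blocks and the
starting points elsewhere -/
lemma change (hu : Good L u) {a c c' b : List Dir} (hl : c.length = c'.length)
    (hpos : pos c = pos c') (h : At T u (a ++ c ++ b) j Y)
    (hY : a.length + c.length ≤ Y.1 ∨ Y.1 + bl T u ≤ a.length) :
    At T u (a ++ c' ++ b) j Y ∧ py T u (a ++ c' ++ b) Y = py T u (a ++ c ++ b) Y := by
  rw [at_iff hu] at h ⊢
  unfold py
  rcases hY with hY | hY
  · have h0 : ∀ (e : List Dir) (m : ℕ), (a ++ e ++ b).drop (a.length + e.length + m) =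
        b.drop m := by
      intro e m
      rw [← List.length_append, ← List.drop_drop, List.drop_left]
    have h1 : ∀ n, a.length + c.length ≤ n → (a ++ c' ++ b).drop n = (a ++ c ++ b).drop n := by
      intro n hn
      obtain ⟨m, rfl⟩ := Nat.exists_eq_add_of_le hn
      rw [h0 c m, hl, h0 c' m]
    rw [h1 _ hY, h1 _ (by omega)]
    exact ⟨h, rfl⟩
  · have h1 : ∀ n e, n ≤ a.length → (a ++ e ++ b).drop n = a.drop n ++ (e ++ b) := by
      intro n e hn
      rw [List.append_assoc, List.drop_append_of_le_length hn]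
    rw [h1 _ _ (by omega)] at h
    rw [h1 _ _ (by omega), h1 _ _ hY, h1 _ _ hY]
    have h2 : ∀ e : List Dir, (a.drop Y.1 ++ e).take (bl T u) = (a.drop Y.1).take (bl T u) := by
      intro e
      rw [List.take_append_of_le_length]
      rw [List.length_drop]
      omega
    rw [h2] at h
    rw [h2]
    refine ⟨h, ?_⟩
    rw [ModG1.pos_append, ModG1.pos_append, ModG1.pos_append, ModG1.pos_append, hpos]

/-- the blocks at the places different from `X` are kept by the swap -/
lemma keep (hg1 : StmtG1) (hu : Good L u) (hT : 2 * L + 4 ≤ T) (hX : isPl T u w X)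
    (hY : At T u w j Y) (hne : Y ≠ X) :
    At T u (swp T u w X) j Y ∧ py T u (swp T u w X) Y = py T u w Y := by
  have hg := hg1 T L u hu hT w X Y hX ⟨j, hY⟩ hne.symm
  obtain ⟨i, hp, l1, l2, h1, h2⟩ := hX
  obtain ⟨n, d, f⟩ := X
  simp only at h1 h2 hp hg
  subst h1
  subst h2
  rw [swp_eq hu hp]
  have e : ∀ k : Bool, l1 ++ bk T u k d f ++ l2 = (l1 ++ List.replicate (T + 1) (neg d)) ++
      (u k).map (rt d f) ++ (List.replicate (T + 1) d ++ l2) := by
    intro k
    rw [ModG1.bk_eq]
    simp only [List.append_assoc]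
  rw [e] at hY ⊢
  rw [e]
  refine change hu ?_ ?_ hY ?_
  · rw [List.length_map, List.length_map]
    exact ModG1.len_eq hu i (!i)
  · rw [ModG1.pos_map, ModG1.pos_map, ModG1.pos_u (hu.smr i), ModG1.pos_u (hu.smr (!i))]
  · rw [List.length_append, List.length_replicate, List.length_map, bl_eq, ModG1.len_eq hu i true]
    omega

end

end ModG2

open ModG1 ModG2 in
theorem g2 (hg1 : StmtG1) : StmtG2 := by
  intro T L u hu hT w X hX
  have hX' := hX
  obtain ⟨i, hp, l1, l2, h1, h2⟩ := hX'
  obtain ⟨n, d, f⟩ := X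
  simp only at h1 h2 hp
  subst h1
  have hs : swp T u w (l1.length, d, f) = l1 ++ bk T u (!i) d f ++ l2 := by
    rw [h2]; exact swp_eq hu hp i
  have hss : swp T u (swp T u w (l1.length, d, f)) (l1.length, d, f) = w := by
    rw [hs, swp_eq hu hp, Bool.not_not, h2]
  have hA : At T u w i (l1.length, d, f) := ⟨hp, l1, l2, rfl, h2⟩
  have hA' : At T u (swp T u w (l1.length, d, f)) (!i) (l1.length, d, f) :=
    ⟨hp, l1, l2, rfl, hs⟩
  refine ⟨?_, hss, ?_, ?_, ?_, ?_, ?_⟩
  · rw [hs, h2]
    simp only [List.length_append, len_bk' hu]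
  · rw [hs, h2, bs_eq hu, bs_eq hu]
  · rw [ty_eq hu hA, ty_eq hu hA']
  · intro Y
    by_cases hY : Y = (l1.length, d, f)
    · rw [hY]
      exact ⟨fun _ => ⟨i, hA⟩, fun _ => ⟨!i, hA'⟩⟩
    · constructor
      · rintro ⟨j, hj⟩
        have := (keep hg1 hu hT ⟨!i, hA'⟩ hj hY).1
        rw [hss] at this
        exact ⟨j, this⟩
      · rintro ⟨j, hj⟩
        exact ⟨j, (keep hg1 hu hT hX hj hY).1⟩
  · rintro Y ⟨j, hj⟩
    by_cases hY : Y = (l1.length, d, f)
    · rw [hY, hs, h2, py_eq hu, py_eq hu]
    · exact (keep hg1 hu hT hX hj hY).2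
  · rintro Y ⟨j, hj⟩ hY
    rw [ty_eq hu hj, ty_eq hu (keep hg1 hu hT hX hj hY).1]

end

end Pool.Agent.T6.H66.EQ
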