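import Pool.Agent.T6.H66.EQ.Defs

/-!
Project EQ, module G3: sites are kept by the exchange of the content of another site.
-/

set_option autoImplicit false

namespace Pool.Agent.T6.H66.EQ

open Finset Filter Topology KN KN.KQ
open scoped Classical

noncomputable section

namespace ModG3

/-- positions of different proper suffixes are different -/
theorem sfx {w r1 s1 r2 s2 : List Dir} (hw : SAP w) (h1 : w = r1 ++ s1) (h2 : w = r2 ++ s2)
    (n1 : r1 ≠ []) (n2 : r2 ≠ []) (h : pos s1 = pos s2) : s1.length = s2.length := by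
  obtain ⟨h4, h0, hn⟩ := hw
  have hl : (path w).tail.length = w.length := by rw [List.length_tail, path_length]; omega
  have e : ∀ m (hm : m < (path w).tail.length), (path w).tail[m] = pos (w.drop (m + 1)) := by
    intro m hm
    rw [List.getElem_tail]
    exact path_getElem w (m + 1) _
  have p1 : 0 < r1.length := List.length_pos_of_ne_nil n1
  have p2 : 0 < r2.length := List.length_pos_of_ne_nil n2
  have q1 : w.length = r1.length + s1.length := by rw [h1, List.length_append]
  have q2 : w.length = r2.length + s2.length := by rw [h2, List.length_append]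
  have d1 : w.drop (r1.length - 1 + 1) = s1 := by
    rw [show r1.length - 1 + 1 = r1.length by omega, h1, List.drop_left]
  have d2 : w.drop (r2.length - 1 + 1) = s2 := by
    rw [show r2.length - 1 + 1 = r2.length by omega, h2, List.drop_left]
  have e1 := e (r1.length - 1) (by omega)
  have e2 := e (r2.length - 1) (by omega)
  rw [d1] at e1
  rw [d2] at e2
  have := (hn.getElem_inj_iff (hi := by omega) (hj := by omega)).1 (e1.trans (h.trans e2.symm))
  omega

theorem mem_app {A B : List Dir} {p : Z3} :
    p ∈ path (A ++ B) ↔ p ∈ path B ∨ ∃ q ∈ path A, p = q + pos B := by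
  rw [path_append, List.mem_append, List.mem_map]
  constructor
  · rintro (⟨q, h1, h2⟩ | h)
    · exact Or.inr ⟨q, List.mem_of_mem_dropLast h1, h2.symm⟩
    · exact Or.inl h
  · rintro (h | ⟨q, h1, h2⟩)
    · exact Or.inr h
    · have h3 : (path A).dropLast ++ [(path A).getLast (path_ne_nil A)] = path A :=
        List.dropLast_append_getLast (path_ne_nil A)
      rw [path_getLast] at h3
      rw [← h3, List.mem_append, List.mem_singleton] at h1
      rcases h1 with h1 | h1
      · exact Or.inl ⟨q, h1, h2.symm⟩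
      · right
        rw [h2, h1, zero_add]
        exact pos_mem_path B

theorem mem_split {A : List Dir} {q : Z3} (h : q ∈ path A) : ∃ r s, A = r ++ s ∧ q = pos s := by
  obtain ⟨i, -, rfl⟩ := (mem_path_iff A q).1 h
  exact ⟨A.take i, A.drop i, (List.take_append_drop i A).symm, rfl⟩

/-- exchange of a subword with the same end point -/
theorem exch {P c c' S : List Dir} (h : pos c' = pos c) {p : Z3}
    (hp : p ∈ path (P ++ c' ++ S)) :
    p ∈ path (P ++ c ++ S) ∨ ∃ q ∈ path c', p = q + pos S := by
  rw [List.append_assoc, mem_app, mem_app] at hp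
  rw [List.append_assoc, mem_app, mem_app]
  rcases hp with (h1 | h1) | ⟨q, h1, h2⟩
  · exact Or.inl (Or.inl (Or.inl h1))
  · exact Or.inr h1
  · refine Or.inl (Or.inr ⟨q, h1, ?_⟩)
    rw [h2, pos_append, pos_append, h]

theorem rt_vec (d f e : Dir) : vec (rt d f e) = Rp d f (vec e) := (KN.K3YROT.Rp_vec d f e).symm

theorem Rp_bound {d f : Dir} (h : perp d f) {p : Z3} {r : ℤ} (h1 : |p.1| ≤ r)
    (h2 : |p.2.1| ≤ r) (h3 : |p.2.2| ≤ r) :
    |(Rp d f p).1| ≤ r ∧ |(Rp d f p).2.1| ≤ r ∧ |(Rp d f p).2.2| ≤ r := by
  obtain ⟨x, y, z⟩ := p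
  rw [abs_le] at h1 h2 h3
  simp only at h1 h2 h3
  cases d <;> cases f <;> first
    | exact absurd h (by decide)
    | (simp only [Rp, cr, vec, Prod.smul_mk, Prod.mk_add_mk, smul_eq_mul, abs_le]
       omega)

theorem pos_u {L : ℕ} {u : Bool → List Dir} (hG : Good L u) (i : Bool) : pos (u i) = (0, 0, 1) := by
  have h1 := (hG.smr i).1.2.1
  simp only [pos] at h1
  have : pos (u i) = - vec .zm := eq_neg_of_add_eq_zero_left h1
  rw [this]; rfl

theorem len_u {L : ℕ} {u : Bool → List Dir} (hG : Good L u) (i : Bool) :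
    (u i).length = (u true).length := by
  cases i
  · exact hG.len.symm
  · rfl

theorem len_bk {L : ℕ} {u : Bool → List Dir} (hG : Good L u) (T : ℕ) (i : Bool) (d f : Dir) :
    (bk T u i d f).length = bl T u := by
  unfold bk bl blk
  simp only [List.length_map, List.length_append, List.length_replicate]
  rw [len_u hG i]

theorem bl_eq (T : ℕ) (u : Bool → List Dir) : bl T u = (T + 1) + (u true).length + (T + 1) := by
  unfold bl blk
  simp only [List.length_append, List.length_replicate]

theorem bk_eq (T : ℕ) (u : Bool → List Dir) (i : Bool) (d f : Dir) :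
    bk T u i d f = (List.replicate (T + 1) .xm).map (rt d f) ++ (u i).map (rt d f) ++
      (List.replicate (T + 1) .xp).map (rt d f) := by
  unfold bk blk
  simp only [List.map_append]

theorem pos_rt {d f : Dir} (h : perp d f) (w : List Dir) : pos (w.map (rt d f)) = Rp d f (pos w) :=
  ((T_rtc_proof d f h).2.2.1 w).1

theorem path_rt {d f : Dir} (h : perp d f) (w : List Dir) :
    path (w.map (rt d f)) = (path w).map (Rp d f) := ((T_rtc_proof d f h).2.2.1 w).2

theorem Rp_add {d f : Dir} (h : perp d f) (p q : Z3) : Rp d f (p + q) = Rp d f p + Rp d f q :=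
  (T_rtc_proof d f h).2.2.2 p q

theorem pos_bk {L : ℕ} {u : Bool → List Dir} (hG : Good L u) (T : ℕ) (i : Bool) {d f : Dir}
    (h : perp d f) : pos (bk T u i d f) = vec f := by
  have hposb : pos (blk T (u i)) = vec .zp := by
    rw [blk, pos_append, pos_append, OV.hrepx, OV.hrepp, pos_u hG i]
    simp [vec]
  unfold bk
  rw [pos_rt h, hposb]
  simp [Rp, vec]

theorem bk_ne {T : ℕ} {u : Bool → List Dir} {i : Bool} {d f : Dir} : bk T u i d f ≠ [] := by
  rw [bk_eq, List.replicate_succ]
  simp

/-- the base polygon -/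
theorem sap_base {L : ℕ} {u : Bool → List Dir} (hG : Good L u) {T : ℕ} {l1 l2 : List Dir}
    {d f : Dir} {i : Bool} (h : perp d f) (hlen : 4 ≤ (l1 ++ f :: l2).length)
    (hw : SAP (l1 ++ bk T u i d f ++ l2)) : SAP (l1 ++ f :: l2) :=
  (T_Wrep_proof l1 l2 (bk T u i d f) f (pos_bk hG T i h) bk_ne).2 hw hlen

/-- the exchange of the content gives a polygon -/
theorem sap_swap {L : ℕ} {u : Bool → List Dir} (hG : Good L u) {T : ℕ} {l1 l2 : List Dir}
    {d f : Dir} {i : Bool} (h : perp d f) (hlen : 4 ≤ (l1 ++ f :: l2).length)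
    (hw : SAP (l1 ++ bk T u i d f ++ l2)) (hr : RmD T L d f (l1 ++ f :: l2) (pos l2))
    (j : Bool) : SAP (l1 ++ bk T u j d f ++ l2) := by
  have hbase := sap_base hG h hlen hw
  obtain ⟨⟨d', f', hp', e1, e2, e3, e4, e5, e6⟩, -, hmap, hadd⟩ := T_rtc_proof d f h
  have hmm : ∀ w : List Dir, (w.map (rt d' f')).map (rt d f) = w := by
    intro w
    rw [List.map_map]
    exact List.map_id'' e4 w
  have hb : (l1 ++ f :: l2).map (rt d' f') =
      l1.map (rt d' f') ++ .zp :: l2.map (rt d' f') := by
    rw [List.map_append, List.map_cons, e2]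
  have hS : SAP (l1.map (rt d' f') ++ .zp :: l2.map (rt d' f')) := by
    rw [← hb]
    exact (T_rt_proof d' f' hp' _ hbase).1
  have hadd' := (T_rtc_proof d' f' hp').2.2.2
  have hin : ∀ h0 : Z3, pos (l2.map (rt d' f')) + h0 ∈
      path (l1.map (rt d' f') ++ .zp :: l2.map (rt d' f')) →
      pos l2 + Rp d f h0 ∈ path (l1 ++ f :: l2) := by
    intro h0 hh
    rw [← hb, path_rt hp', pos_rt hp', List.mem_map] at hh
    obtain ⟨q, hq, hq2⟩ := hh
    have h1 : q = pos l2 + Rp d f h0 := by
      rw [← e6 q, hq2, hadd, e6]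
    rw [← h1]
    exact hq
  have hspot : Spot T L (l1.map (rt d' f')) (l2.map (rt d' f')) := by
    refine ⟨hS, ?_, ?_⟩
    · intro j' hj1 hj2
      exact ⟨fun hh => (hr.1 j' hj1 hj2).1 (hin _ hh), fun hh => (hr.1 j' hj1 hj2).2 (hin _ hh)⟩
    · intro h0 g1 g2 g3 g4 g5 hh
      exact hr.2 h0 g1 g2 g3 g4 g5 (hin _ hh)
  have h2 := d_ssap T L _ _ (u j) hspot (hG.smr j)
  have h3 := (T_rt_proof d f h _ h2).1
  rw [List.map_append, List.map_append, hmm, hmm] at h3
  exact h3

/-- the vertices of the corridor of a block are different from the vertices of a subword away from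
the block -/
theorem new_pt {L : ℕ} {u : Bool → List Dir} (hG : Good L u) {T : ℕ} {w' P c' S m1 m2 : List Dir}
    {d f : Dir} {j : Bool} (hp : perp d f) (hw : SAP w') (h1 : w' = P ++ c' ++ S) (hP : P ≠ [])
    (h2 : w' = m1 ++ bk T u j d f ++ m2)
    (hlen : bl T u + m2.length ≤ S.length ∨ (c' ++ S).length ≤ m2.length) {q : Z3}
    (hq : q ∈ path c') {k : ℕ} (hk1 : 1 ≤ k) (hk2 : k ≤ T) :
    q + pos S ≠ pos m2 + Rp d f ((k : ℤ), 0, 0) ∧ q + pos S ≠ pos m2 + Rp d f ((k : ℤ), 0, 1) := by
  obtain ⟨r, s, hrs, rfl⟩ := mem_split hq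
  have hs : s.length ≤ c'.length := by rw [hrs, List.length_append]; omega
  have hb := bl_eq T u
  have hlu := len_u hG j
  have hsuf : w' = (P ++ r) ++ (s ++ S) := by rw [h1, hrs]; simp
  have hPr : P ++ r ≠ [] := by simp [hP]
  rw [List.length_append] at hlen
  constructor
  · intro he
    have hk : T + 1 = (T + 1 - k) + k := by omega
    have h3 : w' = (m1 ++ (List.replicate (T + 1) .xm).map (rt d f) ++ (u j).map (rt d f) ++
        (List.replicate (T + 1 - k) .xp).map (rt d f)) ++
        ((List.replicate k .xp).map (rt d f) ++ m2) := by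
      rw [h2, bk_eq]
      conv_lhs => rw [hk, List.replicate_add (T + 1 - k) k Dir.xp]
      rw [← hk]
      simp only [List.map_append, List.append_assoc]
    have h4 : pos ((List.replicate k .xp).map (rt d f) ++ m2) =
        pos m2 + Rp d f ((k : ℤ), 0, 0) := by
      rw [pos_append, pos_rt hp, OV.hrepp, add_comm]
    have h5 := sfx hw hsuf h3 hPr (by simp [List.replicate_succ]) (by
      rw [h4, pos_append]; exact he)
    simp only [List.length_append, List.length_map, List.length_replicate] at h5
    omega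
  · intro he
    have hk : T + 1 = k + (T + 1 - k) := by omega
    have h3 : w' = (m1 ++ (List.replicate k .xm).map (rt d f)) ++
        ((List.replicate (T + 1 - k) .xm).map (rt d f) ++ (u j).map (rt d f) ++
        (List.replicate (T + 1) .xp).map (rt d f) ++ m2) := by
      rw [h2, bk_eq]
      have e : List.replicate (T + 1) Dir.xm =
          List.replicate k .xm ++ List.replicate (T + 1 - k) .xm := by
        rw [← List.replicate_add, ← hk]
      rw [e]
      simp only [List.map_append, List.append_assoc]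
    have h4 : pos ((List.replicate (T + 1 - k) .xm).map (rt d f) ++ (u j).map (rt d f) ++
        (List.replicate (T + 1) .xp).map (rt d f) ++ m2) =
        pos m2 + Rp d f ((k : ℤ), 0, 1) := by
      rw [pos_append, pos_append, pos_append, pos_rt hp, pos_rt hp, pos_rt hp, OV.hrepp, OV.hrepx,
        pos_u hG j, ← Rp_add hp, ← Rp_add hp, add_comm]
      congr 2
      simp only [Prod.mk_add_mk, Prod.mk.injEq]
      refine ⟨?_, by simp, by simp⟩
      rw [Nat.cast_sub (by omega)]
      push_cast
      ring
    have h5 := sfx hw hsuf h3 hPr (by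
      intro h0
      have := congrArg List.length h0
      simp only [List.length_append, List.length_map, List.length_replicate, List.length_nil] at this
      omega) (by
      rw [h4, pos_append]; exact he)
    simp only [List.length_append, List.length_map, List.length_replicate] at h5
    omega

theorem drop_app {A B C : List Dir} {n : ℕ} (h : n = (A ++ B).length) :
    (A ++ B ++ C).drop n = C := by
  rw [h, List.drop_left]

theorem take_app {A B : List Dir} {n : ℕ} (h : A.length = n) : (A ++ B).take n = A := by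
  rw [← h, List.take_left]

/-- splitting -/
theorem split_le {A B C D : List Dir} (h : A ++ B = C ++ D) (hl : A.length ≤ C.length) :
    ∃ E, C = A ++ E ∧ B = E ++ D := by
  rcases List.append_eq_append_iff.1 h with ⟨E, h1, h2⟩ | ⟨E, h1, h2⟩
  · exact ⟨E, h1, h2⟩
  · have h3 : E = [] := by
      have := congrArg List.length h1
      rw [List.length_append] at this
      exact List.length_eq_zero_iff.1 (by omega)
    subst h3
    exact ⟨[], by simpa using h1.symm, by simpa using h2.symm⟩

end ModG3

open ModG3 in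
/-- **G3**: sites are kept -/
theorem g3 (hg1 : StmtG1) (hg2 : StmtG2) : StmtG3 := by
  intro T L u hG hT w X Y hw hX hY
  obtain ⟨hXp, hXr, hXi⟩ := hX
  obtain ⟨hYp, hYr, hYi⟩ := hY
  obtain ⟨g1, g2, g3, g4, g5, g6, g7⟩ := hg2 T L u hG hT w X hXp
  have hYp' : isPl T u (swp T u w X) Y := (g5 Y).2 hYp
  have hctr : ∀ Z, isPl T u w Z → ctr T u (swp T u w X) Z = ctr T u w Z := by
    intro Z hZ
    unfold ctr
    rw [g6 Z hZ]
  have hiso : iso T L u (swp T u w X) Y := by
    intro Z hZ hne
    have hZ' := (g5 Z).1 hZ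
    rw [hctr Z hZ', hctr Y hYp]
    exact hYi Z hZ' hne
  refine ⟨hYp', ?_, hiso⟩
  by_cases hXY : Y = X
  · subst hXY
    unfold room at hYr ⊢
    rw [g3, g6 Y hYp]
    exact hYr
  -- the blocks
  obtain ⟨i, hpX, l1, l2, hl1, hwX⟩ := id hXp
  obtain ⟨j, hpY, m1, m2, hm1, hwY⟩ := id hYp
  obtain ⟨a, d, f⟩ := X
  obtain ⟨b, d', f'⟩ := Y
  simp only at hpX hl1 hwX hpY hm1 hwY
  have hb := bl_eq T u
  obtain ⟨i', hi'⟩ : ∃ i', i' = !ty T u w (a, d, f) := ⟨_, rfl⟩
  have hlenX : (l1 ++ bk T u i d f).length = a + bl T u := by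
    rw [List.length_append, len_bk hG, hl1]
  have hlenY : (m1 ++ bk T u j d' f').length = b + bl T u := by
    rw [List.length_append, len_bk hG, hm1]
  have hdX : w.drop (a + bl T u) = l2 := by rw [hwX]; exact drop_app hlenX.symm
  have htX : w.take a = l1 := by rw [hwX, List.append_assoc]; exact take_app hl1
  have hdY : w.drop (b + bl T u) = m2 := by rw [hwY]; exact drop_app hlenY.symm
  have htY : w.take b = m1 := by rw [hwY, List.append_assoc]; exact take_app hm1
  have hsw : swp T u w (a, d, f) = l1 ++ bk T u i' d f ++ l2 := by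
    unfold swp
    simp only
    rw [hdX, htX, hi']
  have hroomX : RmD T L d f (l1 ++ f :: l2) (pos l2) := by
    have := hXr
    unfold room bs py at this
    simp only at this
    rw [hdX, htX] at this
    exact this
  have hroomY : RmD T L d' f' (m1 ++ f' :: m2) (pos m2) := by
    have := hYr
    unfold room bs py at this
    simp only at this
    rw [hdY, htY] at this
    exact this
  have hctrX : ctr T u w (a, d, f) = pos l2 + Rp d f ((T : ℤ) + 1, 0, 0) := by
    unfold ctr py
    simp only
    rw [hdX]
  have hctrY : ctr T u w (b, d', f') = pos m2 + Rp d' f' ((T : ℤ) + 1, 0, 0) := by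
    unfold ctr py
    simp only
    rw [hdY]
  obtain ⟨P, hP⟩ : ∃ P, P = l1 ++ (List.replicate (T + 1) .xm).map (rt d f) := ⟨_, rfl⟩
  obtain ⟨S, hS⟩ : ∃ S, S = (List.replicate (T + 1) .xp).map (rt d f) ++ l2 := ⟨_, rfl⟩
  have hPne : P ≠ [] := by rw [hP]; simp [List.replicate_succ]
  have hPlen : P.length = a + (T + 1) := by
    rw [hP, List.length_append, List.length_map, List.length_replicate, hl1]
  have hposS : pos S = pos l2 + Rp d f ((T : ℤ) + 1, 0, 0) := by
    rw [hS, pos_append, pos_rt hpX, OV.hrepp, add_comm]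
    push_cast
    rfl
  have hwP : ∀ i, l1 ++ bk T u i d f ++ l2 = P ++ (u i).map (rt d f) ++ S := by
    intro i
    rw [hP, hS, bk_eq]
    simp only [List.append_assoc]
  have hclen : ∀ i, ((u i).map (rt d f)).length = (u true).length := by
    intro i
    rw [List.length_map, len_u hG]
  have hcpos : pos ((u i').map (rt d f)) = pos ((u i).map (rt d f)) := by
    rw [pos_rt hpX, pos_rt hpX, pos_u hG, pos_u hG]
  have hwlen : w.length = a + bl T u + l2.length := by
    rw [hwX, List.length_append, hlenX]
  have hwlenY : w.length = b + bl T u + m2.length := by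
    rw [hwY, List.length_append, hlenY]
  -- the position of the block `Y`
  have hpos := hg1 T L u hG hT w (a, d, f) (b, d', f') hXp hYp (fun h => hXY h.symm)
  simp only at hpos
  have hbase : 4 ≤ (l1 ++ f :: l2).length := by
    rw [List.length_append, List.length_cons]
    omega
  have hw' : SAP (l1 ++ bk T u i' d f ++ l2) :=
    sap_swap hG hpX hbase (hwX ▸ hw) hroomX i'
  -- no new vertex in the room of `Y`
  have hfin : ∀ m1' m2' : List Dir, l1 ++ bk T u i' d f ++ l2 = m1' ++ bk T u j d' f' ++ m2' →
      m1'.length = b → pos m2' = pos m2 →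
      (bl T u + m2'.length ≤ S.length ∨ ((u i').map (rt d f) ++ S).length ≤ m2'.length) →
      (∀ p ∈ path (m1' ++ f' :: m2'), p ∈ path (m1 ++ f' :: m2) ∨
        ∃ q ∈ path ((u i').map (rt d f)), p = q + pos S) →
      room T L u (swp T u w (a, d, f)) (b, d', f') := by
    intro m1' m2' k1 k2 k3 k4 k5
    have hlen' : (m1' ++ bk T u j d' f').length = b + bl T u := by
      rw [List.length_append, len_bk hG, k2]
    have hd' : (swp T u w (a, d, f)).drop (b + bl T u) = m2' := by
      rw [hsw, k1]; exact drop_app hlen'.symm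
    have ht' : (swp T u w (a, d, f)).take b = m1' := by
      rw [hsw, k1, List.append_assoc]; exact take_app k2
    unfold room bs py
    simp only
    rw [hd', ht', k3]
    have hcorr : ∀ q ∈ path ((u i').map (rt d f)), ∀ k : ℕ, 1 ≤ k → k ≤ T →
        q + pos S ≠ pos m2 + Rp d' f' ((k : ℤ), 0, 0) ∧
          q + pos S ≠ pos m2 + Rp d' f' ((k : ℤ), 0, 1) := by
      intro q hq k hk1 hk2
      rw [← k3]
      exact new_pt hG hpY hw' (hwP i') hPne k1 k4 hq hk1 hk2
    refine ⟨?_, ?_⟩
    · intro k hk1 hk2
      refine ⟨fun hh => ?_, fun hh => ?_⟩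
      · rcases k5 _ hh with h | ⟨q, hq, h⟩
        · exact (hroomY.1 k hk1 hk2).1 h
        · exact (hcorr q hq k hk1 hk2).1 h.symm
      · rcases k5 _ hh with h | ⟨q, hq, h⟩
        · exact (hroomY.1 k hk1 hk2).2 h
        · exact (hcorr q hq k hk1 hk2).2 h.symm
    · intro h0 e1 e2 e3 e4 e5 hh
      rcases k5 _ hh with h | ⟨q, hq, h⟩
      · exact hroomY.2 h0 e1 e2 e3 e4 e5 h
      · rw [path_rt hpX, List.mem_map] at hq
        obtain ⟨p, hp, rfl⟩ := hq
        obtain ⟨b1, b2, b3, b4, b5⟩ := (hG.smr i').2 p hp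
        have hA := Rp_bound hpX (p := p) (r := (L : ℤ) + 1)
          (by rw [abs_le]; constructor <;> omega)
          (by have := abs_le.1 b3; rw [abs_le]; constructor <;> omega)
          (by rw [abs_le]; constructor <;> omega)
        have hB := Rp_bound hpY (p := (h0.1 - ((T : ℤ) + 1), h0.2.1, h0.2.2)) (r := (L : ℤ) + 1)
          (by simp only; rw [abs_le]; constructor <;> omega)
          (by have := abs_le.1 e3; simp only; rw [abs_le]; constructor <;> omega)
          (by simp only; rw [abs_le]; constructor <;> omega)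
        have hsplit : Rp d' f' h0 = Rp d' f' ((T : ℤ) + 1, 0, 0) +
            Rp d' f' (h0.1 - ((T : ℤ) + 1), h0.2.1, h0.2.2) := by
          rw [← Rp_add hpY]
          congr 1
          ext <;> simp
        apply hYi (a, d, f) hXp (fun h => hXY h.symm)
        rw [hctrX, hctrY, ← hposS]
        rw [hsplit, ← add_assoc] at h
        obtain ⟨A, hAe⟩ : ∃ A, A = Rp d f p := ⟨_, rfl⟩
        obtain ⟨B, hBe⟩ : ∃ B, B = Rp d' f' (h0.1 - ((T : ℤ) + 1), h0.2.1, h0.2.2) := ⟨_, rfl⟩
        obtain ⟨C, hCe⟩ : ∃ C, C = pos m2 + Rp d' f' ((T : ℤ) + 1, 0, 0) := ⟨_, rfl⟩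
        obtain ⟨D, hDe⟩ : ∃ D, D = pos S := ⟨_, rfl⟩
        rw [← hAe] at hA h
        rw [← hBe] at hB h
        rw [← hCe, ← hDe]
        rw [← hCe, ← hDe] at h
        obtain ⟨A1, A2, A3⟩ := A
        obtain ⟨B1, B2, B3⟩ := B
        obtain ⟨C1, C2, C3⟩ := C
        obtain ⟨D1, D2, D3⟩ := D
        simp only [Prod.mk_add_mk, Prod.mk.injEq] at h
        simp only [abs_le] at hA hB
        unfold near
        simp only [abs_le]
        push_cast
        omega
  rcases hpos with hc | hc
  · -- the block `Y` is in `S`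
    have hsplit : P ++ (u i).map (rt d f) ++ S = m1 ++ (bk T u j d' f' ++ m2) := by
      rw [← hwP, ← hwX, hwY, List.append_assoc]
    obtain ⟨E, hE1, hE2⟩ := split_le hsplit (by
      rw [List.length_append, hPlen, hclen, hm1]; omega)
    refine hfin (P ++ (u i').map (rt d f) ++ E) m2 ?_ ?_ rfl (Or.inl ?_) ?_
    · rw [hwP, hE2]
      simp only [List.append_assoc]
    · rw [List.length_append, List.length_append, hPlen, hclen]
      have := congrArg List.length hE1
      rw [List.length_append, List.length_append, hPlen, hclen, hm1] at this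
      omega
    · rw [hE2, List.length_append, List.length_append, len_bk hG]
      omega
    · intro p hp
      have e1 : P ++ (u i').map (rt d f) ++ E ++ f' :: m2 =
          P ++ (u i').map (rt d f) ++ (E ++ f' :: m2) := by simp only [List.append_assoc]
      have e2 : m1 ++ f' :: m2 = P ++ (u i).map (rt d f) ++ (E ++ f' :: m2) := by
        rw [hE1]; simp only [List.append_assoc]
      have e3 : pos (E ++ f' :: m2) = pos S := by
        rw [hE2, pos_append, pos_append, pos_append, pos_bk hG T j hpY]
        simp only [pos]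
        abel
      rw [e1] at hp
      rw [e2, ← e3]
      exact exch hcpos hp
  · -- the block `Y` is in `P`
    have hsplit : (m1 ++ bk T u j d' f') ++ m2 = P ++ ((u i).map (rt d f) ++ S) := by
      rw [← hwY, ← List.append_assoc, ← hwP, ← hwX]
    obtain ⟨E, hE1, hE2⟩ := split_le hsplit (by
      rw [hlenY, hPlen]; omega)
    refine hfin m1 (E ++ (u i').map (rt d f) ++ S) ?_ hm1 ?_ (Or.inr ?_) ?_
    · rw [hwP, hE1]
      simp only [List.append_assoc]
    · rw [hE2, ← List.append_assoc, pos_append, pos_append, pos_append, pos_append, hcpos]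
    · have e := List.length_append (as := E) (bs := (u i').map (rt d f) ++ S)
      rw [List.append_assoc]
      omega
    · intro p hp
      have e1 : m1 ++ f' :: (E ++ (u i').map (rt d f) ++ S) =
          (m1 ++ f' :: E) ++ (u i').map (rt d f) ++ S := by simp
      have e2 : m1 ++ f' :: m2 = (m1 ++ f' :: E) ++ (u i).map (rt d f) ++ S := by
        rw [hE2]; simp
      rw [e1] at hp
      rw [e2]
      exact exch hcpos hp

end

end Pool.Agent.T6.H66.EQ
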