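import Pool.Agent.T6.H66.EQ.Defs

/-! Module G4: the swapped words are polygons, and their knot types. -/

set_option autoImplicit false

namespace Pool.Agent.T6.H66.EQ

open Finset Filter Topology KN KN.KQ
open scoped Classical

noncomputable section

namespace ModG4

/-- the content of the second type is unknotted -/
theorem hp_unknot (j : ℕ) : Same (vl (.zm :: .yp :: blk 0 (hp j) ++ [.ym])) sq := by
  have hp1 : perp .ym .zp := by decide
  have h1 := T_rt_proof .ym .zp hp1 sqw c_sq.2.1
  have e1 : sqw.map (rt .ym .zp) = [.zm, .yp] ++ .zp :: [.ym] := by decide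
  rw [e1] at h1
  have hfree : ∀ i : ℕ, 1 ≤ i → i ≤ j + 1 →
      pos [Dir.ym] + ((i : ℤ), 0, 0) ∉ path ([.zm, .yp] ++ .zp :: [.ym]) ∧
      pos [Dir.ym] + ((i : ℤ), 0, 1) ∉ path ([.zm, .yp] ++ .zp :: [.ym]) := by
    intro i hi1 hi2
    have hpath : ∀ p ∈ path ([.zm, .yp] ++ .zp :: [Dir.ym]), p.1 = 0 := by decide
    have hpos : (pos [Dir.ym]).1 = 0 := by decide
    constructor
    · intro h
      have h2 := hpath _ h
      simp only [Prod.fst_add] at h2
      rw [hpos] at h2
      omega
    · intro h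
      have h2 := hpath _ h
      simp only [Prod.fst_add] at h2
      rw [hpos] at h2
      omega
  have h2 := (T_hair_proof (j + 1) [.zm, .yp] [.ym] h1.1 hfree).2.1
  have e2 : hairL (j + 1) [.zm, .yp] ++ .zp :: hairR (j + 1) [.ym] =
      .zm :: .yp :: blk 0 (hp j) ++ [.ym] := by
    unfold hairL hairR blk hp
    have e3 : List.replicate j Dir.xp ++ [Dir.xp] = List.replicate (j + 1) Dir.xp := by
      rw [List.replicate_succ']
    simp only [zero_add, List.replicate_one, List.cons_append, List.nil_append,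
      List.append_assoc, List.replicate_succ (n := j) (a := Dir.xm)]
    rw [List.append_cons (List.replicate j Dir.xp), e3]
  rw [e2] at h2
  exact (h1.2.trans h2).symm

theorem pos_app (a b : List Dir) : pos (a ++ b) = pos a + pos b := by
  induction a with
  | nil => rw [List.nil_append]; exact (zero_add _).symm
  | cons d a ih =>
    rw [List.cons_append]
    show pos (a ++ b) + vec d = pos a + vec d + pos b
    rw [ih, add_right_comm]

theorem pos_rp (d : Dir) (n : ℕ) : pos (List.replicate n d) = n • vec d := by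
  induction n with
  | zero => rw [List.replicate_zero, zero_smul]; rfl
  | succ n ih =>
    rw [List.replicate_succ, succ_nsmul, ← ih]
    rfl

theorem pos_blk (T : ℕ) (v : List Dir) : pos (blk T v) = pos v := by
  unfold blk
  rw [pos_app, pos_app, pos_rp, pos_rp]
  have h1 : vec .xm = -vec .xp := by decide
  rw [h1, smul_neg]
  abel

theorem pos_content {L : ℕ} {c : List Dir} (h : SmR L c) : pos c = (0, 0, 1) := by
  have h1 := h.1.2.1
  have h2 : pos (Dir.zm :: c) = pos c + (0, 0, -1) := rfl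
  rw [h2] at h1
  have h3 : pos c = -((0, 0, -1) : Z3) := eq_neg_of_add_eq_zero_left h1
  rw [h3]
  rfl

end ModG4

open ModG4 in
theorem g4 : StmtG4 := by
  intro T L u hG _ k hk hfalse l1 l2 d f i hdf h4 hsap hroom
  obtain ⟨⟨d', f', hdf', hd', hf', hinv1, hinv2, hR1, hR2⟩, -, hmap, hadd⟩ := T_rtc_proof d f hdf
  obtain ⟨-, -, hmap', hadd'⟩ := T_rtc_proof d' f' hdf'
  -- the base word is a polygon
  have hpb : pos (bk T u i d f) = vec f := by
    unfold bk
    rw [(hmap _).1]
    have h1 := pos_content (hG.smr i)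
    have h2 : pos (blk T (u i)) = (0, 0, 1) := by
      rw [pos_blk, h1]
    rw [h2]
    unfold Rp
    simp
  have hne : bk T u i d f ≠ [] := by
    unfold bk blk
    simp
  have hbase : SAP (l1 ++ f :: l2) :=
    (T_Wrep_proof l1 l2 (bk T u i d f) f hpb hne).2 hsap h4
  -- rotation
  obtain ⟨A1, hA1⟩ : ∃ A, A = l1.map (rt d' f') := ⟨_, rfl⟩
  obtain ⟨A2, hA2⟩ : ∃ A, A = l2.map (rt d' f') := ⟨_, rfl⟩
  have hrot := T_rt_proof d' f' hdf' (l1 ++ f :: l2) hbase
  have eW : (l1 ++ f :: l2).map (rt d' f') = A1 ++ .zp :: A2 := by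
    rw [List.map_append, List.map_cons, hf', hA1, hA2]
  rw [eW] at hrot
  have hposA : pos A2 = Rp d' f' (pos l2) := by
    rw [hA2]
    exact (hmap' l2).1
  have hpathA : path (A1 ++ .zp :: A2) = (path (l1 ++ f :: l2)).map (Rp d' f') := by
    rw [← eW]
    exact (hmap' _).2
  have key : ∀ h : Z3, pos l2 + Rp d f h ∉ path (l1 ++ f :: l2) →
      pos A2 + h ∉ path (A1 ++ .zp :: A2) := by
    intro h hn hm
    rw [hpathA, List.mem_map] at hm
    obtain ⟨p, hp, hpe⟩ := hm
    apply hn
    have h1 : p = pos l2 + Rp d f h := by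
      have h2 := congrArg (Rp d f) hpe
      rw [hR2, hadd, hposA, hR2] at h2
      exact h2
    rw [← h1]
    exact hp
  have hspot : Spot T L A1 A2 := by
    refine ⟨hrot.1, fun j hj1 hj2 => ?_, fun h h1 h2 h3 h4 h5 => ?_⟩
    · have := hroom.1 j hj1 hj2
      exact ⟨key _ this.1, key _ this.2⟩
    · exact key _ (hroom.2 h h1 h2 h3 h4 h5)
  have hback : ∀ j, (A1 ++ blk T (u j) ++ A2).map (rt d f) = l1 ++ bk T u j d f ++ l2 := by
    intro j
    have e1 : ∀ l : List Dir, (l.map (rt d' f')).map (rt d f) = l := by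
      intro l
      rw [List.map_map]
      have : (rt d f) ∘ (rt d' f') = id := funext hinv2
      rw [this, List.map_id]
    rw [List.map_append, List.map_append, hA1, hA2, e1, e1]
    rfl
  have hS : ∀ j, SAP (A1 ++ blk T (u j) ++ A2) := fun j => d_ssap T L A1 A2 (u j) hspot (hG.smr j)
  have hSr : ∀ j, SAP (l1 ++ bk T u j d f ++ l2) ∧
      Same (vl (A1 ++ blk T (u j) ++ A2)) (vl (l1 ++ bk T u j d f ++ l2)) := by
    intro j
    have := T_rt_proof d f hdf _ (hS j)
    rw [hback] at this
    exact this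
  -- the types
  obtain ⟨m1, m2, hm, hx, hs⟩ := left_rep _ hspot.1
  have hB : BgL L m1 m2 := K2TOWU.bgL L hm hx
  have hmas : ∀ j, Same (vl (A1 ++ blk T (u j) ++ A2)) (vl (join m1 (u j) m2)) := fun j =>
    (d_master T L A1 A2 m1 m2 (u j) hspot (hG.smr j) hB hs).2
  have hF : ∀ j, Facing m1 (u j) m2 := fun j =>
    ⟨hm, hx, (hG.smr j).1, fun p hp => ((hG.smr j).2 p hp).1⟩
  have hbm : Same (vl (l1 ++ f :: l2)) (vl (m1 ++ .zp :: m2)) := hrot.2.trans hs
  refine ⟨hbase, fun j => (hSr j).1, ?_, ?_⟩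
  · obtain ⟨j, hj⟩ := hfalse
    have h1 : Same (vl (join m1 (u false) m2)) (vl (m1 ++ .zp :: m2)) := by
      refine c_glue1 m1 (u false) m2 (hF false) ?_
      rw [hj]
      exact hp_unknot j
    exact ((hbm.trans h1.symm).trans (hmas false).symm).trans (hSr false).2
  · exact ⟨m1, u true, m2, hF true, hbm.symm, hk, (hSr true).2.symm.trans (hmas true)⟩

end

end Pool.Agent.T6.H66.EQ
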