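import Pool.Agent.T6.H66.EQ.Defs

/-!
Project EQ (MP_aea6d5_co, slot 2), module G5: blocks of the engine are sites.
-/

set_option autoImplicit false

namespace Pool.Agent.T6.H66.EQ

open Finset Filter Topology KN KN.KQ
open scoped Classical

namespace ModG5

theorem pos_replicate (n : ℕ) (d : Dir) : pos (List.replicate n d) = (n : ℤ) • vec d := by
  induction n with
  | zero => simp [pos]
  | succ n ih =>
    rw [List.replicate_succ, pos, ih]
    push_cast
    rw [add_smul, one_smul]

theorem pos_app (l1 l2 : List Dir) : pos (l1 ++ l2) = pos l1 + pos l2 := by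
  induction l1 with
  | nil => simp [pos]
  | cons a l ih =>
    rw [List.cons_append, pos, pos, ih]
    abel

theorem drop_mem_path (w : List Dir) : ∀ m : ℕ, pos (w.drop m) ∈ path w := by
  induction w with
  | nil => intro m; simp [pos, path]
  | cons a l ih =>
    intro m
    cases m with
    | zero => simp [path, pos]
    | succ m =>
      rw [List.drop_succ_cons, path]
      exact List.mem_cons_of_mem _ (ih m)

theorem pos_v {L : ℕ} {v : List Dir} (h : SmR L v) : pos v = vec .zp := by
  have h1 := h.1.2.1
  simp only [pos] at h1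
  have : pos v = - vec .zm := eq_neg_of_add_eq_zero_left h1
  rw [this]; rfl

theorem pos_blk {T L : ℕ} {v : List Dir} (h : SmR L v) : pos (blk T v) = vec .zp := by
  rw [blk, pos_app, pos_app, pos_replicate, pos_replicate, pos_v h]
  have : vec .xm = - vec .xp := rfl
  rw [this, smul_neg]
  abel

theorem pos_blk_rt {T L : ℕ} {v : List Dir} (h : SmR L v) {d f : Dir} (hdf : perp d f) :
    pos ((blk T v).map (rt d f)) = vec f := by
  obtain ⟨-, -, hpp, -⟩ := T_rtc_proof d f hdf
  rw [(hpp _).1, pos_blk h, KQ.K3YROT.Rp_vec]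
  rfl

theorem Rp_bd (r : ℤ) (q : Z3) (h1 : |q.1| ≤ r) (h2 : |q.2.1| ≤ r) (h3 : |q.2.2| ≤ r) :
    ∀ d f : Dir, perp d f →
      |(Rp d f q).1| ≤ r ∧ |(Rp d f q).2.1| ≤ r ∧ |(Rp d f q).2.2| ≤ r := by
  intro d f hdf
  cases d <;> cases f <;>
    first
    | exact absurd rfl hdf
    | (simp only [Rp, vec, cr, Prod.smul_mk, smul_eq_mul, Prod.mk_add_mk, mul_zero, mul_one,
        mul_neg, add_zero, zero_add, abs_neg]
       exact ⟨by assumption, by assumption, by assumption⟩)

theorem deep_blk (T s : ℕ) (c : List Dir) : blk T (deep s c) = blk (T + s) c := by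
  have h1 : List.replicate (T + 1) Dir.xm ++ List.replicate s Dir.xm =
      List.replicate (T + s + 1) Dir.xm := by
    rw [List.replicate_append_replicate]
    congr 1
    omega
  have h2 : List.replicate s Dir.xp ++ List.replicate (T + 1) Dir.xp =
      List.replicate (T + s + 1) Dir.xp := by
    rw [List.replicate_append_replicate]
    congr 1
    omega
  unfold blk deep
  rw [← h1, ← h2]
  simp only [List.append_assoc]

theorem bk_len {L : ℕ} {u : Bool → List Dir} (hG : Good L u) (T : ℕ) (i : Bool) (d f : Dir) :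
    (bk T u i d f).length = bl T u := by
  unfold bk bl blk
  cases i
  · simp [hG.len]
  · simp

theorem bl_eq (T : ℕ) (u : Bool → List Dir) : bl T u = 2 * (T + 1) + (u true).length := by
  unfold bl blk
  simp
  omega

/-- the vertices outside the block are vertices of the base -/
theorem mem_base {T L : ℕ} {u : Bool → List Dir} (hG : Good L u) {w l1 l2 : List Dir}
    {d f : Dir} (hdf : perp d f) (hw : w = l1 ++ bk T u true d f ++ l2) (m : ℕ)
    (hm : m ≤ l1.length ∨ l1.length + bl T u ≤ m) :
    pos (w.drop m) ∈ path (l1 ++ f :: l2) := by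
  rcases hm with hm | hm
  · have h1 : w.drop m = l1.drop m ++ (bk T u true d f ++ l2) := by
      rw [hw, List.append_assoc, List.drop_append_of_le_length hm]
    have h2 : (l1 ++ f :: l2).drop m = l1.drop m ++ f :: l2 := by
      rw [List.drop_append_of_le_length hm]
    have h3 : pos (w.drop m) = pos ((l1 ++ f :: l2).drop m) := by
      rw [h1, h2, pos_app, pos_app, pos_app, bk, pos_blk_rt (hG.smr true) hdf, pos]
      abel
    rw [h3]
    exact drop_mem_path _ _
  · have h1 : w.drop m = l2.drop (m - (l1.length + bl T u)) := by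
      rw [hw, List.drop_append, List.length_append, bk_len hG,
        List.drop_eq_nil_of_le (by rw [List.length_append, bk_len hG]; exact hm),
        List.nil_append]
    have h2 : (l1 ++ f :: l2).drop (l1.length + 1 + (m - (l1.length + bl T u))) =
        l2.drop (m - (l1.length + bl T u)) := by
      have : l1 ++ f :: l2 = (l1 ++ [f]) ++ l2 := by simp
      rw [this, ← List.drop_drop]
      congr 1
      rw [List.drop_append]
      simp
    rw [h1, ← h2]
    exact drop_mem_path _ _

theorem ctr_eq {T L : ℕ} {u : Bool → List Dir} (hG : Good L u) {w : List Dir} {Y : Pt}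
    (hY : isPl T u w Y) : ctr T u w Y = pos (w.drop (Y.1 + (T + 1) + (u true).length)) := by
  obtain ⟨i, hp, l1, l2, hl, hw⟩ := hY
  have h1 : w.drop (Y.1 + bl T u) = l2 := by
    rw [hw, List.drop_append, List.length_append, bk_len hG, hl,
      List.drop_eq_nil_of_le (by rw [List.length_append, bk_len hG, hl])]
    simp
  have hul : (u i).length = (u true).length := by
    cases i
    · exact hG.len.symm
    · rfl
  have h2 : w.drop (Y.1 + (T + 1) + (u true).length) = List.replicate (T + 1) Y.2.1 ++ l2 := by
    have h3 : w = (l1 ++ ((List.replicate (T + 1) Dir.xm).map (rt Y.2.1 Y.2.2) ++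
        (u i).map (rt Y.2.1 Y.2.2))) ++ (List.replicate (T + 1) Y.2.1 ++ l2) := by
      rw [hw, bk, blk, List.map_append, List.map_append]
      have h4 : (List.replicate (T + 1) Dir.xp).map (rt Y.2.1 Y.2.2) =
          List.replicate (T + 1) Y.2.1 := by
        rw [List.map_replicate]
        rfl
      rw [h4]
      simp only [List.append_assoc]
    rw [h3, List.drop_append, List.drop_eq_nil_of_le (by simp [hul, hl]; omega)]
    simp [hul, hl]
    rw [show Y.1 + (T + 1) + (u true).length - (Y.1 + (T + 1 + (u true).length)) = 0 by omega]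
    rfl
  unfold ctr py
  rw [h1, h2, pos_app, pos_replicate]
  simp only [Rp]
  push_cast
  simp
  abel

end ModG5

theorem g5 (hg1 : StmtG1) : StmtG5 := by
  intro T₀ s Lr L u hG hT hs hLr w hw d f l1 l2 hVB
  obtain ⟨hwe, hp, hr⟩ := hVB
  rw [ModG5.deep_blk] at hwe
  have hwe' : w = l1 ++ bk (T₀ + s) u true d f ++ l2 := hwe
  have hPl : isPl (T₀ + s) u w (l1.length, d, f) := ⟨true, hp, l1, l2, rfl, hwe'⟩
  have hdrop : w.drop (l1.length + bl (T₀ + s) u) = l2 := by
    rw [hwe', List.drop_append, List.length_append, ModG5.bk_len hG,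
      List.drop_eq_nil_of_le (by rw [List.length_append, ModG5.bk_len hG])]
    simp
  have htake : w.take l1.length = l1 := by
    rw [hwe', List.append_assoc, List.take_left']
    rfl
  have hbs : bs (T₀ + s) u w (l1.length, d, f) = l1 ++ f :: l2 := by
    unfold bs
    rw [hdrop, htake]
  have hpy : py (T₀ + s) u w (l1.length, d, f) = pos l2 := by
    unfold py
    rw [hdrop]
  refine ⟨hPl, ?_, ?_⟩
  · unfold room
    rw [hbs, hpy]
    refine ⟨?_, ?_⟩
    · intro j hj1 hj2
      by_cases hj : j ≤ T₀
      · exact hr.1 j hj1 hj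
      · constructor
        · exact hr.2 ((j : ℤ), 0, 0) (by dsimp only; omega) (by dsimp only; omega)
            (by simp) (by dsimp only; omega) (by dsimp only; omega)
        · exact hr.2 ((j : ℤ), 0, 1) (by dsimp only; omega) (by dsimp only; omega)
            (by simp) (by dsimp only; omega) (by dsimp only; omega)
    · intro h h1 h2 h3 h4 h5
      push_cast at h1 h2
      exact hr.2 h (by omega) (by omega) (by omega) (by omega) (by omega)
  · intro Y hY hne hnear
    have hY2 := ModG5.ctr_eq hG hY
    have hg := hg1 (T₀ + s) L u hG (by omega) w (l1.length, d, f) Y hPl hY (Ne.symm hne)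
    have hbl := ModG5.bl_eq (T₀ + s) u
    have hmem : ctr (T₀ + s) u w Y ∈ path (l1 ++ f :: l2) := by
      rw [hY2]
      apply ModG5.mem_base hG hp hwe'
      dsimp only at hg
      omega
    -- the box
    obtain ⟨⟨d', f', hp', -, -, -, -, -, hinv⟩, -, -, hadd⟩ := T_rtc_proof d f hp
    set q : Z3 := ctr (T₀ + s) u w Y - ctr (T₀ + s) u w (l1.length, d, f) with hq
    obtain ⟨n1, n2, n3⟩ := hnear
    have hb := ModG5.Rp_bd ((3 * L + 5 : ℕ) : ℤ) q n1 n2 n3 d' f' hp'
    set h' : Z3 := Rp d' f' q with hh'
    have hqe : Rp d f h' = q := hinv q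
    have hctr : ctr (T₀ + s) u w Y = pos l2 + Rp d f ((((T₀ + s : ℕ) : ℤ) + 1, 0, 0) + h') := by
      rw [hadd, hqe, hq]
      have : ctr (T₀ + s) u w (l1.length, d, f) =
          pos l2 + Rp d f (((T₀ + s : ℕ) : ℤ) + 1, 0, 0) := by
        unfold ctr
        rw [hpy]
      rw [this]
      abel
    rw [hctr] at hmem
    obtain ⟨b1, b2, b3⟩ := hb
    rw [abs_le] at b1 b2 b3
    push_cast at b1 b2 b3
    refine hr.2 _ ?_ ?_ ?_ ?_ ?_ hmem
    · simp only [Prod.fst_add]
      push_cast
      omega
    · simp only [Prod.fst_add]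
      push_cast
      omega
    · simp only [Prod.snd_add, Prod.fst_add, zero_add, abs_le]
      omega
    · simp only [Prod.snd_add, zero_add]
      omega
    · simp only [Prod.snd_add, zero_add]
      omega

end Pool.Agent.T6.H66.EQ
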