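import Pool.Agent.T6.H66.EQ.Defs

set_option autoImplicit false

namespace Pool.Agent.T6.H66.EQ

open Finset

noncomputable section

namespace ModORB

/-- one step towards the base point -/
def stp {α σ : Type} (s : α → σ → α) (t : α → σ → Bool) (w : α) (X : σ) : α :=
  bif t w X then s w X else w

/-- all the steps of a list -/
def fwd {α σ : Type} (s : α → σ → α) (t : α → σ → Bool) : List σ → α → α
  | [], w => w
  | X :: l, w => fwd s t l (stp s t w X)

/-- the hypothesis -/
def Hy {α σ : Type} (Ω : Finset α) (S : Finset σ) (s : α → σ → α) (t : α → σ → Bool) : Prop :=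
  ∀ w ∈ Ω, ∀ X ∈ S, s w X ∈ Ω ∧ s (s w X) X = w ∧ t (s w X) X = !t w X ∧
    ∀ Y ∈ S, Y ≠ X → t (s w X) Y = t w Y

theorem stp_mem {α σ : Type} {Ω : Finset α} {S : Finset σ} {s : α → σ → α} {t : α → σ → Bool}
    (h : Hy Ω S s t) {w : α} (hw : w ∈ Ω) {X : σ} (hX : X ∈ S) : stp s t w X ∈ Ω := by
  unfold stp
  cases t w X
  · simpa using hw
  · simpa using (h w hw X hX).1

theorem stp_self {α σ : Type} {Ω : Finset α} {S : Finset σ} {s : α → σ → α} {t : α → σ → Bool}
    (h : Hy Ω S s t) {w : α} (hw : w ∈ Ω) {X : σ} (hX : X ∈ S) : t (stp s t w X) X = false := by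
  unfold stp
  have h1 := (h w hw X hX).2.2.1
  cases h2 : t w X
  · simpa using h2
  · rw [h2] at h1
    simpa using h1

theorem stp_ne {α σ : Type} {Ω : Finset α} {S : Finset σ} {s : α → σ → α} {t : α → σ → Bool}
    (h : Hy Ω S s t) {w : α} (hw : w ∈ Ω) {X : σ} (hX : X ∈ S) {Y : σ} (hY : Y ∈ S) (hne : Y ≠ X) :
    t (stp s t w X) Y = t w Y := by
  unfold stp
  have h1 := (h w hw X hX).2.2.2 Y hY hne
  cases h2 : t w X
  · simp
  · simpa using h1

theorem fwd_mem {α σ : Type} {Ω : Finset α} {S : Finset σ} {s : α → σ → α} {t : α → σ → Bool}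
    (h : Hy Ω S s t) : ∀ (l : List σ), (∀ X ∈ l, X ∈ S) → ∀ w ∈ Ω, fwd s t l w ∈ Ω := by
  intro l
  induction l with
  | nil => intro _ w hw; exact hw
  | cons X l ih =>
    intro hl w hw
    exact ih (fun Y hY => hl Y (List.mem_cons_of_mem _ hY)) _
      (stp_mem h hw (hl X List.mem_cons_self))

theorem fwd_out {α σ : Type} {Ω : Finset α} {S : Finset σ} {s : α → σ → α} {t : α → σ → Bool}
    (h : Hy Ω S s t) : ∀ (l : List σ), (∀ X ∈ l, X ∈ S) → ∀ w ∈ Ω, ∀ Y ∈ S, Y ∉ l →
      t (fwd s t l w) Y = t w Y := by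
  intro l
  induction l with
  | nil => intro _ w _ Y _ _; rfl
  | cons X l ih =>
    intro hl w hw Y hY hYl
    have hX : X ∈ S := hl X List.mem_cons_self
    have h1 := ih (fun Y hY => hl Y (List.mem_cons_of_mem _ hY)) _ (stp_mem h hw hX) Y hY
      (fun h' => hYl (List.mem_cons_of_mem _ h'))
    have hne : Y ≠ X := fun h' => hYl (h' ▸ List.mem_cons_self)
    exact h1.trans (stp_ne h hw hX hY hne)

theorem fwd_in {α σ : Type} {Ω : Finset α} {S : Finset σ} {s : α → σ → α} {t : α → σ → Bool}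
    (h : Hy Ω S s t) : ∀ (l : List σ), l.Nodup → (∀ X ∈ l, X ∈ S) → ∀ w ∈ Ω, ∀ Y ∈ l,
      t (fwd s t l w) Y = false := by
  intro l
  induction l with
  | nil => intro _ _ w _ Y hY; simp at hY
  | cons X l ih =>
    intro hn hl w hw Y hY
    have hX : X ∈ S := hl X List.mem_cons_self
    have hl' : ∀ Y ∈ l, Y ∈ S := fun Y hY => hl Y (List.mem_cons_of_mem _ hY)
    rw [List.nodup_cons] at hn
    by_cases hYl : Y ∈ l
    · exact ih hn.2 hl' _ (stp_mem h hw hX) Y hYl
    · have hYX : Y = X := by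
        rcases List.mem_cons.1 hY with h' | h'
        · exact h'
        · exact absurd h' hYl
      subst hYX
      exact (fwd_out h l hl' _ (stp_mem h hw hX) Y hX hYl).trans (stp_self h hw hX)

theorem stp_inj {α σ : Type} {Ω : Finset α} {S : Finset σ} {s : α → σ → α} {t : α → σ → Bool}
    (h : Hy Ω S s t) {w w' : α} (hw : w ∈ Ω) (hw' : w' ∈ Ω) {X : σ} (hX : X ∈ S)
    (he : stp s t w X = stp s t w' X) (hb : t w X = t w' X) : w = w' := by
  unfold stp at he
  rw [← hb] at he
  cases h2 : t w X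
  · rw [h2] at he
    simpa using he
  · rw [h2] at he
    simp only [cond_true] at he
    rw [← (h w hw X hX).2.1, ← (h w' hw' X hX).2.1, he]

theorem fwd_inj {α σ : Type} {Ω : Finset α} {S : Finset σ} {s : α → σ → α} {t : α → σ → Bool}
    (h : Hy Ω S s t) : ∀ (l : List σ), l.Nodup → (∀ X ∈ l, X ∈ S) → ∀ w ∈ Ω, ∀ w' ∈ Ω,
      fwd s t l w = fwd s t l w' → (∀ Y ∈ l, t w Y = t w' Y) → w = w' := by
  intro l
  induction l with
  | nil => intro _ _ w _ w' _ he _; exact he
  | cons X l ih =>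
    intro hn hl w hw w' hw' he hb
    have hX : X ∈ S := hl X List.mem_cons_self
    have hl' : ∀ Y ∈ l, Y ∈ S := fun Y hY => hl Y (List.mem_cons_of_mem _ hY)
    rw [List.nodup_cons] at hn
    have h1 := ih hn.2 hl' _ (stp_mem h hw hX) _ (stp_mem h hw' hX) he (by
      intro Y hY
      have hne : Y ≠ X := fun h' => hn.1 (h' ▸ hY)
      rw [stp_ne h hw hX (hl' Y hY) hne, stp_ne h hw' hX (hl' Y hY) hne]
      exact hb Y (List.mem_cons_of_mem _ hY))
    exact stp_inj h hw hw' hX h1 (hb X List.mem_cons_self)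

theorem fwd_surj {α σ : Type} {Ω : Finset α} {S : Finset σ} {s : α → σ → α} {t : α → σ → Bool}
    (h : Hy Ω S s t) (A : Finset σ) : ∀ (l : List σ), l.Nodup → (∀ X ∈ l, X ∈ S) → ∀ w₀ ∈ Ω,
      (∀ X ∈ l, t w₀ X = false) → ∃ w ∈ Ω, fwd s t l w = w₀ ∧ (∀ X ∈ l, t w X = true ↔ X ∈ A) ∧
        ∀ Y ∈ S, Y ∉ l → t w Y = t w₀ Y := by
  intro l
  induction l with
  | nil => intro _ _ w₀ hw _; exact ⟨w₀, hw, rfl, by simp, fun _ _ _ => rfl⟩
  | cons X l ih =>
    intro hn hl w₀ hw hb
    have hX : X ∈ S := hl X List.mem_cons_self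
    have hl' : ∀ Y ∈ l, Y ∈ S := fun Y hY => hl Y (List.mem_cons_of_mem _ hY)
    rw [List.nodup_cons] at hn
    obtain ⟨w, hwΩ, h1, h2, h3⟩ := ih hn.2 hl' w₀ hw (fun Y hY => hb Y (List.mem_cons_of_mem _ hY))
    have h4 : t w X = false := by
      rw [h3 X hX hn.1]; exact hb X List.mem_cons_self
    by_cases hA : X ∈ A
    · obtain ⟨g1, g2, g3, g4⟩ := h w hwΩ X hX
      have g5 : t (s w X) X = true := by rw [g3, h4]; rfl
      refine ⟨s w X, g1, ?_, ?_, ?_⟩
      · show fwd s t l (stp s t (s w X) X) = w₀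
        have : stp s t (s w X) X = w := by
          unfold stp
          rw [g5]
          simpa using g2
        rw [this, h1]
      · intro Y hY
        by_cases hne : Y = X
        · subst hne; simp [g5, hA]
        · rw [g4 Y (hl Y hY) hne]
          exact h2 Y ((List.mem_cons.1 hY).resolve_left hne)
      · intro Y hY hYl
        have hne : Y ≠ X := fun h' => hYl (h' ▸ List.mem_cons_self)
        rw [g4 Y hY hne]
        exact h3 Y hY (fun h' => hYl (List.mem_cons_of_mem _ h'))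
    · refine ⟨w, hwΩ, ?_, ?_, ?_⟩
      · show fwd s t l (stp s t w X) = w₀
        have : stp s t w X = w := by
          unfold stp
          rw [h4]; rfl
        rw [this, h1]
      · intro Y hY
        by_cases hne : Y = X
        · subst hne; simp [h4, hA]
        · exact h2 Y ((List.mem_cons.1 hY).resolve_left hne)
      · intro Y hY hYl
        exact h3 Y hY (fun h' => hYl (List.mem_cons_of_mem _ h'))

theorem fwd_G {α σ β : Type} {Ω : Finset α} {S : Finset σ} {s : α → σ → α} {t : α → σ → Bool}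
    (h : Hy Ω S s t) (G : ℕ → α → β)
    (hG : ∀ w ∈ Ω, ∀ X ∈ S, t w X = false → ∀ j, G j (s w X) = G (j + 1) w) :
    ∀ (l : List σ), l.Nodup → (∀ X ∈ l, X ∈ S) → ∀ w ∈ Ω, ∀ j,
      G j w = G (j + l.countP (fun X => t w X)) (fwd s t l w) := by
  intro l
  induction l with
  | nil => intro _ _ w _ j; rfl
  | cons X l ih =>
    intro hn hl w hw j
    have hX : X ∈ S := hl X List.mem_cons_self
    have hl' : ∀ Y ∈ l, Y ∈ S := fun Y hY => hl Y (List.mem_cons_of_mem _ hY)
    rw [List.nodup_cons] at hn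
    have hc : l.countP (fun Y => t (stp s t w X) Y) = l.countP (fun Y => t w Y) := by
      apply List.countP_congr
      intro Y hY
      have hne : Y ≠ X := fun h' => hn.1 (h' ▸ hY)
      rw [stp_ne h hw hX (hl' Y hY) hne]
    have h1 := fun j => ih hn.2 hl' _ (stp_mem h hw hX) j
    rw [hc] at h1
    show G j w = G (j + (X :: l).countP (fun X => t w X)) (fwd s t l (stp s t w X))
    rw [List.countP_cons]
    cases h4 : t w X
    · have h5 : stp s t w X = w := by
        unfold stp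
        rw [h4]; rfl
      rw [h5] at h1 ⊢
      simpa using h1 j
    · have h5 : stp s t w X = s w X := by
        unfold stp
        rw [h4]; rfl
      rw [h5] at h1 ⊢
      obtain ⟨g1, g2, g3, g4⟩ := h w hw X hX
      have g5 : t (s w X) X = false := by rw [g3, h4]; rfl
      have h6 := hG (s w X) g1 X hX g5 j
      rw [g2] at h6
      rw [h6, h1 (j + 1)]
      congr 1
      simp
      ring

end ModORB

open ModORB in
theorem orb : StmtORB := by
  intro α σ _ _ Ω S s t h
  have hS : ∀ X ∈ S.toList, X ∈ S := fun X hX => Finset.mem_toList.1 hX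
  have hn : S.toList.Nodup := Finset.nodup_toList S
  refine ⟨fwd s t S.toList, ?_, ?_, ?_, ?_⟩
  · intro w hw
    exact ⟨fwd_mem h _ hS w hw, fun X hX => fwd_in h _ hn hS w hw X (Finset.mem_toList.2 hX)⟩
  · intro w₀ hw₀ hb A hA
    obtain ⟨w, h1, h2, h3, _⟩ := fwd_surj h A _ hn hS w₀ hw₀ (fun X hX => hb X (hS X hX))
    refine ⟨w, h1, h2, ?_⟩
    ext X
    rw [Finset.mem_filter]
    constructor
    · rintro ⟨hX, hX'⟩
      exact (h3 X (Finset.mem_toList.2 hX)).1 hX'
    · intro hX
      exact ⟨hA hX, (h3 X (Finset.mem_toList.2 (hA hX))).2 hX⟩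
  · intro w hw w' hw' he hf
    refine fwd_inj h _ hn hS w hw w' hw' he (fun Y hY => ?_)
    have h1 := Finset.ext_iff.1 hf Y
    rw [Finset.mem_filter, Finset.mem_filter] at h1
    have hY' := hS Y hY
    cases h2 : t w Y <;> cases h3 : t w' Y <;> simp_all
  · intro β G hG w hw j
    rw [fwd_G h G hG _ hn hS w hw j]
    congr 2
    rw [Finset.card_def, Finset.filter_val, ← Multiset.countP_eq_card_filter,
      ← Finset.coe_toList, Multiset.coe_countP]
    simp

end

end Pool.Agent.T6.H66.EQ
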