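import Pool.Agent.T6.H66.EQ.Rts
import Pool.Agent.T6.H66.EQ.CONT
import Pool.Agent.T6.H66.EQ.G1
import Pool.Agent.T6.H66.EQ.G2
import Pool.Agent.T6.H66.EQ.G3
import Pool.Agent.T6.H66.EQ.G4
import Pool.Agent.T6.H66.EQ.G5
import Pool.Agent.T6.H66.EQ.DEEP
import Pool.Agent.T6.H66.EQ.A1
import Pool.Agent.T6.H66.EQ.A2
import Pool.Agent.T6.H66.EQ.A3
import Pool.Agent.T6.H66.EQ.A4
import Pool.Agent.T6.H66.EQ.A5
import Pool.Agent.T6.H66.EQ.ORB
import Pool.Agent.T6.H66.EQ.CUBE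

/-!
Project EQ: assembly.
-/

set_option autoImplicit false

namespace Pool.Agent.T6.H66.EQ

open Finset Filter Topology KN KN.KQ
open scoped Classical

theorem princ {Q : List Dir → Prop} (hQ : KClass Q) (hc : CSum Q) {k : List V}
    (hQk : ∃ w, SAP w ∧ Q w ∧ Same (vl w) k) (hrem : Rem Q k) :
    ∃ c C : ℝ, 0 < c ∧ 0 < C ∧ Princ Q k c C :=
  principle cont g1 (g2 g1) (g3 g1 (g2 g1)) g4 (g5 g1) deep_proof
    (a5 (a3 a1 a2) a4) orb hQ hc hQk hrem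

end Pool.Agent.T6.H66.EQ
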