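import Pool.Agent.T6.H66.EQ.Defs

set_option autoImplicit false

namespace Pool.Agent.T6.H66.EQ

open Finset

noncomputable section

namespace ModCUBE

/-- binomial coefficients decrease after the middle -/
theorem choose_anti (m r : ℕ) (h : m / 2 ≤ r) : m.choose (r + 1) ≤ m.choose r := by
  have h1 := Nat.choose_succ_right_eq m r
  have h2 : m - r ≤ r + 1 := by omega
  have h3 : m.choose (r + 1) * (r + 1) ≤ m.choose r * (r + 1) := by
    rw [h1]; exact Nat.mul_le_mul_left _ h2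
  exact Nat.le_of_mul_le_mul_right h3 (Nat.succ_pos r)

/-- Abel summation for a unimodal sequence -/
theorem unimodal (c f : ℕ → ℝ) (hf : ∀ j, |f j| ≤ 1) (h : ℕ) (hup : ∀ r < h, c r ≤ c (r + 1))
    (hdn : ∀ r, h ≤ r → c (r + 1) ≤ c r) (h0 : 0 ≤ c 0) (n : ℕ) :
    |∑ j ∈ range (h + n), c j * (f (j + 1) - f j) - c (h + n) * f (h + n)| ≤
      2 * c h - c (h + n) := by
  induction n with
  | zero =>
    simp only [add_zero]
    have key : ∀ k, k ≤ h →
        |∑ j ∈ range k, c j * (f (j + 1) - f j) - c k * f k| ≤ c k := by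
      intro k
      induction k with
      | zero =>
        intro _
        simp only [range_zero, sum_empty, zero_sub, abs_neg, abs_mul]
        rw [abs_of_nonneg h0]
        have := hf 0
        nlinarith
      | succ k ih =>
        intro hk
        have h1 := ih (by omega)
        have h2 := hup k (by omega)
        rw [Finset.sum_range_succ]
        have h3 : ∑ j ∈ range k, c j * (f (j + 1) - f j) + c k * (f (k + 1) - f k) -
            c (k + 1) * f (k + 1) = (∑ j ∈ range k, c j * (f (j + 1) - f j) - c k * f k) +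
              (c k - c (k + 1)) * f (k + 1) := by ring
        rw [h3]
        refine (abs_add_le _ _).trans ?_
        rw [abs_mul, abs_of_nonpos (by linarith : c k - c (k + 1) ≤ 0)]
        have h4 := hf (k + 1)
        nlinarith
    have := key h le_rfl
    linarith
  | succ n ih =>
    have h2 := hdn (h + n) (by omega)
    rw [show h + (n + 1) = (h + n) + 1 from rfl, Finset.sum_range_succ]
    have h3 : ∑ j ∈ range (h + n), c j * (f (j + 1) - f j) +
        c (h + n) * (f (h + n + 1) - f (h + n)) - c (h + n + 1) * f (h + n + 1) =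
        (∑ j ∈ range (h + n), c j * (f (j + 1) - f j) - c (h + n) * f (h + n)) +
          (c (h + n) - c (h + n + 1)) * f (h + n + 1) := by ring
    rw [h3]
    refine (abs_add_le _ _).trans ?_
    rw [abs_mul, abs_of_nonneg (by linarith : 0 ≤ c (h + n) - c (h + n + 1))]
    have h4 := hf (h + n + 1)
    nlinarith

theorem part2 (m : ℕ) (f : ℕ → ℝ) (hf : ∀ j, |f j| ≤ 1) :
    |∑ j ∈ range (m + 1), (m.choose j : ℝ) * (f (j + 1) - f j)| ≤
      2 * (m.choose (m / 2) : ℝ) := by
  have h1 := unimodal (fun j => (m.choose j : ℝ)) f hf (m / 2)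
    (fun r hr => by exact_mod_cast Nat.choose_le_succ_of_lt_half_left hr)
    (fun r hr => by exact_mod_cast choose_anti m r hr) (by positivity) (m + 1 - m / 2)
  have h2 : m / 2 + (m + 1 - m / 2) = m + 1 := by omega
  rw [h2] at h1
  simpa using h1

theorem central (k : ℕ) : (Nat.centralBinom k) ^ 2 * (2 * k + 1) ≤ 4 ^ (2 * k) := by
  induction k with
  | zero => simp
  | succ k ih =>
    have h1 := Nat.succ_mul_centralBinom_succ k
    have h2 : (k + 1) ^ 2 * ((Nat.centralBinom (k + 1)) ^ 2 * (2 * (k + 1) + 1)) ≤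
        (k + 1) ^ 2 * 4 ^ (2 * (k + 1)) := by
      have h3 : (k + 1) ^ 2 * ((Nat.centralBinom (k + 1)) ^ 2 * (2 * (k + 1) + 1)) =
          4 * ((2 * k + 1) * (2 * k + 3)) * ((Nat.centralBinom k) ^ 2 * (2 * k + 1)) := by
        have : (k + 1) ^ 2 * ((Nat.centralBinom (k + 1)) ^ 2 * (2 * (k + 1) + 1)) =
            ((k + 1) * Nat.centralBinom (k + 1)) ^ 2 * (2 * k + 3) := by ring
        rw [this, h1]
        ring
      rw [h3]
      have h4 : 4 * ((2 * k + 1) * (2 * k + 3)) ≤ 16 * (k + 1) ^ 2 := by nlinarith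
      calc 4 * ((2 * k + 1) * (2 * k + 3)) * ((Nat.centralBinom k) ^ 2 * (2 * k + 1))
          ≤ 16 * (k + 1) ^ 2 * 4 ^ (2 * k) := Nat.mul_le_mul h4 ih
        _ = (k + 1) ^ 2 * 4 ^ (2 * (k + 1)) := by ring
    exact Nat.le_of_mul_le_mul_left h2 (by positivity)

theorem middle (m : ℕ) : (m.choose (m / 2)) ^ 2 * (m + 1) ≤ (2 * 2 ^ m) ^ 2 := by
  rcases Nat.even_or_odd' m with ⟨k, hk | hk⟩
  · subst hk
    have h1 : 2 * k / 2 = k := by omega
    have h2 := central k
    rw [Nat.centralBinom_eq_two_mul_choose] at h2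
    rw [h1]
    refine h2.trans ?_
    calc (4 : ℕ) ^ (2 * k) = (2 ^ (2 * k)) ^ 2 := by
          rw [← pow_mul, mul_comm (2 * k) 2, pow_mul 2 2 (2 * k)]; norm_num
      _ ≤ (2 * 2 ^ (2 * k)) ^ 2 := Nat.pow_le_pow_left (by omega) 2
  · subst hk
    have h1 : (2 * k + 1) / 2 = k := by omega
    have h2 := central (k + 1)
    rw [Nat.centralBinom_eq_two_mul_choose] at h2
    rw [h1]
    have h3 : (2 * (k + 1)).choose (k + 1) = 2 * (2 * k + 1).choose k := by
      rw [show 2 * (k + 1) = (2 * k + 1) + 1 from rfl, Nat.choose_succ_succ,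
        Nat.choose_symm_half k]
      ring
    rw [h3] at h2
    have h5 : (4 : ℕ) ^ (2 * (k + 1)) = 4 * (2 ^ (2 * k + 1)) ^ 2 := by
      rw [← pow_mul, show (4 : ℕ) = 2 ^ 2 by norm_num, ← pow_mul, ← pow_add]
      congr 1
      ring
    rw [h5] at h2
    have h6 : ((2 * k + 1).choose k) ^ 2 * (2 * k + 1 + 1) ≤
        (2 * (2 * k + 1).choose k) ^ 2 * (2 * (k + 1) + 1) := by
      have : (2 * (2 * k + 1).choose k) ^ 2 * (2 * (k + 1) + 1) =
        ((2 * k + 1).choose k) ^ 2 * (4 * (2 * (k + 1) + 1)) := by ring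
      rw [this]
      exact Nat.mul_le_mul_left _ (by omega)
    calc ((2 * k + 1).choose k) ^ 2 * (2 * k + 1 + 1) ≤ _ := h6
      _ ≤ _ := h2
      _ = _ := by ring

theorem part3 (m : ℕ) : (m.choose (m / 2) : ℝ) * √(m + 1) ≤ 2 * 2 ^ m := by
  have h1 : ((m.choose (m / 2) : ℝ)) ^ 2 * (m + 1) ≤ (2 * 2 ^ m) ^ 2 := by
    exact_mod_cast middle m
  have h2 : ((m.choose (m / 2) : ℝ) * √(m + 1)) ^ 2 ≤ (2 * 2 ^ m) ^ 2 := by
    rw [mul_pow, Real.sq_sqrt (by positivity)]
    exact h1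
  exact le_of_sq_le_sq h2 (by positivity)

theorem part4 (σ : Type) [DecidableEq σ] (S : Finset σ) (𝒜 : Finset (Finset σ))
    (h𝒜 : 𝒜 ⊆ S.powerset) (h : ∀ A ∈ 𝒜, ∀ B ∈ 𝒜, A ⊆ B → A = B) :
    𝒜.card ≤ S.card.choose (S.card / 2) := by
  classical
  have key : ∀ A ∈ 𝒜, ∀ B ∈ 𝒜, A.subtype (· ∈ S) ⊆ B.subtype (· ∈ S) → A ⊆ B := by
    intro A hA B hB hAB x hx
    have hxS : x ∈ S := Finset.mem_powerset.1 (h𝒜 hA) hx
    have h1 : (⟨x, hxS⟩ : {x // x ∈ S}) ∈ A.subtype (· ∈ S) := Finset.mem_subtype.2 hx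
    exact Finset.mem_subtype.1 (hAB h1)
  have hinj : Set.InjOn (fun A : Finset σ => A.subtype (· ∈ S)) (𝒜 : Set (Finset σ)) := by
    intro A hA B hB hAB
    exact h A hA B hB (key A hA B hB (le_of_eq hAB))
  have h1 : (𝒜.image (fun A : Finset σ => A.subtype (· ∈ S))).card = 𝒜.card :=
    Finset.card_image_of_injOn hinj
  have h2 : IsAntichain (· ⊆ ·)
      ((𝒜.image (fun A : Finset σ => A.subtype (· ∈ S)) : Finset (Finset {x // x ∈ S})) :
        Set (Finset {x // x ∈ S})) := by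
    intro a ha b hb hne hab
    rw [Finset.mem_coe, Finset.mem_image] at ha hb
    obtain ⟨A, hA, rfl⟩ := ha
    obtain ⟨B, hB, rfl⟩ := hb
    exact hne (by rw [h A hA B hB (key A hA B hB hab)])
  have h3 := IsAntichain.sperner h2
  rw [h1, Fintype.card_coe] at h3
  exact h3

end ModCUBE

open ModCUBE in
theorem cube : StmtCUBE := by
  refine ⟨?_, ?_, part3, fun σ _ S 𝒜 h𝒜 h => part4 σ S 𝒜 h𝒜 h⟩
  · intro σ _ S ζ
    have h1 := Finset.sum_pow_mul_eq_add_pow ζ 1 S
    simp only [one_pow, mul_one] at h1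
    rw [h1, add_comm]
  · intro σ _ S f hf
    have h1 := Finset.sum_powerset_apply_card (x := S) (fun j => f (j + 1) - f j)
    rw [h1]
    have h2 := part2 S.card f hf
    simpa [nsmul_eq_mul] using h2

end

end Pool.Agent.T6.H66.EQ
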