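import Pool.Agent.T6.H44.LK.Cor

/-!
Project EQ (MP_aea6d5_co, slot 2): swappable blocks in lattice polygons. Definitions and module
statements.

Words are lists of letters, the LAST letter of the list is the first step of the walk. A block of
type `i` in the frame `(d, f)` replaces an edge `f`: `T + 1` steps `d`, then the content `u i`, then
`T + 1` steps `-d` (in the list: `neg d` repeated, the rotated content, `d` repeated).
-/

set_option autoImplicit false

namespace Pool.Agent.T6.H66.EQ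

open Finset Filter Topology KN KN.KQ
open scoped Classical

noncomputable section

/-! ## Blocks, places, sites, swaps -/

/-- the block of type `i` in the frame `(d, f)` -/
def bk (T : ℕ) (u : Bool → List Dir) (i : Bool) (d f : Dir) : List Dir :=
  (blk T (u i)).map (rt d f)

/-- the length of the blocks -/
def bl (T : ℕ) (u : Bool → List Dir) : ℕ := (blk T (u true)).length

/-- a place: index of the first letter of the block, direction, edge -/
abbrev Pt := ℕ × Dir × Dir

/-- the word `w` has a block of type `i` at the place `X` -/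
def At (T : ℕ) (u : Bool → List Dir) (w : List Dir) (i : Bool) (X : Pt) : Prop :=
  perp X.2.1 X.2.2 ∧ ∃ l1 l2 : List Dir, l1.length = X.1 ∧ w = l1 ++ bk T u i X.2.1 X.2.2 ++ l2

/-- the word `w` has a block at the place `X` -/
def isPl (T : ℕ) (u : Bool → List Dir) (w : List Dir) (X : Pt) : Prop := ∃ i, At T u w i X

/-- the point where the block starts (in time) -/
def py (T : ℕ) (u : Bool → List Dir) (w : List Dir) (X : Pt) : Z3 := pos (w.drop (X.1 + bl T u))

/-- the point where the content of the block starts (in time) -/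
def ctr (T : ℕ) (u : Bool → List Dir) (w : List Dir) (X : Pt) : Z3 :=
  py T u w X + Rp X.2.1 X.2.2 ((T : ℤ) + 1, 0, 0)

/-- the word in which the block is replaced by the edge -/
def bs (T : ℕ) (u : Bool → List Dir) (w : List Dir) (X : Pt) : List Dir :=
  w.take X.1 ++ X.2.2 :: w.drop (X.1 + bl T u)

/-- the rest of the polygon avoids the corridor and the box of the content -/
def room (T L : ℕ) (u : Bool → List Dir) (w : List Dir) (X : Pt) : Prop :=
  RmD T L X.2.1 X.2.2 (bs T u w X) (py T u w X)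

/-- no other block of `w` has its content near the content of the block at `X` -/
def iso (T L : ℕ) (u : Bool → List Dir) (w : List Dir) (X : Pt) : Prop :=
  ∀ Y : Pt, isPl T u w Y → Y ≠ X → ¬ near (3 * L + 5) (ctr T u w Y) (ctr T u w X)

/-- a site: a place where the content can be exchanged -/
def site (T L : ℕ) (u : Bool → List Dir) (w : List Dir) (X : Pt) : Prop :=
  isPl T u w X ∧ room T L u w X ∧ iso T L u w X

/-- the sites of a word -/
def sites (T L : ℕ) (u : Bool → List Dir) (w : List Dir) : Finset Pt :=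
  (range (w.length + 1) ×ˢ (univ : Finset (Dir × Dir))).filter (fun X => site T L u w X)

/-- the type of the block at `X` -/
def ty (T : ℕ) (u : Bool → List Dir) (w : List Dir) (X : Pt) : Bool := decide (At T u w true X)

/-- exchange the content of the block at `X` -/
def swp (T : ℕ) (u : Bool → List Dir) (w : List Dir) (X : Pt) : List Dir :=
  w.take X.1 ++ bk T u (!ty T u w X) X.2.1 X.2.2 ++ w.drop (X.1 + bl T u)

/-- good contents: in a box of size `L`, of the same length, different, the first step is not `xp`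
and the last step is not `xm` -/
structure Good (L : ℕ) (u : Bool → List Dir) : Prop where
  smr : ∀ i, SmR L (u i)
  len : (u true).length = (u false).length
  ne : u true ≠ u false
  hd : ∀ i, (u i).head? ≠ some .xm
  lt : ∀ i, (u i).getLast? ≠ some .xp

/-- a hairpin -/
def hp (j : ℕ) : List Dir := List.replicate j .xm ++ .zp :: List.replicate j .xp

/-- blocks of the engine of `Pool/Agent/TH945/KQ`: positions in the word `w` of the blocks with
content `v₀` which have room (corridor of length `T₀`, box of size `Lr`) -/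
def EP (T₀ Lr : ℕ) (v₀ : List Dir) (w : List Dir) : Finset ℕ :=
  (range (w.length + 1)).filter (fun m => ∃ (d f : Dir) (l1 l2 : List Dir), l1.length = m ∧
    OV.VB T₀ Lr (fun _ => v₀) w 0 d f l1 l2)

/-- content of the engine block: the content `u true` moved `s` units away -/
def deep (s : ℕ) (c : List Dir) : List Dir := List.replicate s .xm ++ c ++ List.replicate s .xp

/-! ## Module statements -/

/-- CONT: good contents. For every knot type `k` of a lattice polygon there are `L` and good contents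
`u` with `u true` of type `k` and `u false` a (wrapped) hairpin. Take `v` from `T_vex_proof`, `j` with
`v.length = 2 j + 1`, `u true = ym :: blk 0 v ++ [yp]`, `u false = yp :: blk 0 (hp j) ++ [ym]`. -/
def StmtCONT : Prop := ∀ k : List V, (∃ w, SAP w ∧ Same (vl w) k) →
  ∃ (L : ℕ) (u : Bool → List Dir), Good L u ∧ Same (vl (.zm :: u true)) k ∧
    ∃ j, u false = .yp :: blk 0 (hp j) ++ [.ym]

/-- G1: different blocks of a word overlap only in their corridors. -/
def StmtG1 : Prop := ∀ (T L : ℕ) (u : Bool → List Dir), Good L u → 2 * L + 4 ≤ T →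
  ∀ (w : List Dir) (X Y : Pt), isPl T u w X → isPl T u w Y → X ≠ Y →
    X.1 + (T + 1) + (u true).length ≤ Y.1 ∨ Y.1 + (T + 1) + (u true).length ≤ X.1

/-- G2: swaps and places. -/
def StmtG2 : Prop := ∀ (T L : ℕ) (u : Bool → List Dir), Good L u → 2 * L + 4 ≤ T →
  ∀ (w : List Dir) (X : Pt), isPl T u w X →
    (swp T u w X).length = w.length ∧ swp T u (swp T u w X) X = w ∧
    bs T u (swp T u w X) X = bs T u w X ∧
    ty T u (swp T u w X) X = !ty T u w X ∧
    (∀ Y, isPl T u (swp T u w X) Y ↔ isPl T u w Y) ∧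
    (∀ Y, isPl T u w Y → py T u (swp T u w X) Y = py T u w Y) ∧
    (∀ Y, isPl T u w Y → Y ≠ X → ty T u (swp T u w X) Y = ty T u w Y)

/-- G3: sites are kept (one direction). -/
def StmtG3 : Prop := ∀ (T L : ℕ) (u : Bool → List Dir), Good L u → 2 * L + 4 ≤ T →
  ∀ (w : List Dir) (X Y : Pt), SAP w → site T L u w X → site T L u w Y →
    site T L u (swp T u w X) Y

/-- G4: the swapped words are polygons, and their knot types. -/
def StmtG4 : Prop := ∀ (T L : ℕ) (u : Bool → List Dir), Good L u → 2 * L + 4 ≤ T →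
  ∀ k : List V, Same (vl (.zm :: u true)) k → (∃ j, u false = .yp :: blk 0 (hp j) ++ [.ym]) →
  ∀ (l1 l2 : List Dir) (d f : Dir) (i : Bool), perp d f → 4 ≤ (l1 ++ f :: l2).length →
    SAP (l1 ++ bk T u i d f ++ l2) → RmD T L d f (l1 ++ f :: l2) (pos l2) →
    SAP (l1 ++ f :: l2) ∧ (∀ j, SAP (l1 ++ bk T u j d f ++ l2)) ∧
    Same (vl (l1 ++ f :: l2)) (vl (l1 ++ bk T u false d f ++ l2)) ∧
    IsSum (vl (l1 ++ f :: l2)) k (vl (l1 ++ bk T u true d f ++ l2))

/-- G5: blocks of the engine are sites. -/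
def StmtG5 : Prop := ∀ (T₀ s Lr L : ℕ) (u : Bool → List Dir), Good L u → 2 * L + 4 ≤ T₀ →
  3 * L + 5 ≤ s → s + (3 * L + 5) ≤ Lr → ∀ w : List Dir, SAP w →
  ∀ (d f : Dir) (l1 l2 : List Dir), OV.VB T₀ Lr (fun _ => deep s (u true)) w 0 d f l1 l2 →
    site (T₀ + s) L u w (l1.length, d, f)

/-- DEEP: the deep content has the same type. (`deep s c = xm :: blk (s - 2) c ++ [xp]`, `T_T1`.) -/
def StmtDEEP : Prop := ∀ (L s : ℕ) (c : List Dir), SmR L c → 2 ≤ s →
  SmR (s + L) (deep s c) ∧ ∀ k : List V, Same (vl (.zm :: c)) k → Same (vl (.zm :: deep s c)) k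

/-- A1: rotations. -/
def StmtA1 : Prop := ∀ (T₀ Lr : ℕ) (v₀ : List Dir) (d f : Dir), perp d f → ∀ w : List Dir,
  EP T₀ Lr v₀ (w.map (rt d f)) ⊆ EP T₀ Lr v₀ w

/-- A2: a change of a short subword creates boundedly many engine blocks. -/
def StmtA2 : Prop := ∀ (T₀ Lr : ℕ) (v₀ : List Dir), SmR Lr v₀ → ∃ C : ℕ, ∀ l1 I J l2 : List Dir,
  SAP (l1 ++ I ++ l2) → SAP (l1 ++ J ++ l2) → pos I = pos J →
  J.length ≤ (blk T₀ v₀).length + 2 →
  (∃ z : Z3, ∀ p ∈ path (l1 ++ I ++ l2), p ∈ path (l1 ++ J ++ l2) ∨ p = z) →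
  (EP T₀ Lr v₀ (l1 ++ J ++ l2)).card ≤ (EP T₀ Lr v₀ (l1 ++ I ++ l2)).card + C

/-- A3: one more block, in words with few engine blocks. -/
def StmtA3 : Prop := ∀ (T₀ Lr R : ℕ) (v₀ : List Dir), SmR Lr v₀ → LLat T₀ Lr R → 1 ≤ R →
  ∃ (c₁ c₂ : ℝ) (C n₀ : ℕ), 0 < c₁ ∧ 0 < c₂ ∧ 1 ≤ n₀ ∧
    ∀ 𝒬 : List V → Prop, TC 𝒬 → ∀ n : ℕ, n₀ ≤ n → ∀ N M : ℕ,
      (N : ℝ) ≤ c₂ * (n : ℝ) ^ (2 / 3 : ℝ) →
      c₁ * (n : ℝ) ^ (2 / 3 : ℝ) * ((VZ 𝒬 T₀ Lr (fun _ => v₀) N n).filter
          (fun W => (EP T₀ Lr v₀ (EZ T₀ (fun _ => v₀) W)).card ≤ M)).card ≤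
        ((VZ 𝒬 T₀ Lr (fun _ => v₀) (N + 1) n).filter
          (fun W => (EP T₀ Lr v₀ (EZ T₀ (fun _ => v₀) W)).card ≤ M + C)).card

/-- A4: multiplicity. -/
def StmtA4 : Prop := ∀ (T₀ Lr : ℕ) (v₀ : List Dir), SmR Lr v₀ → ∀ (𝒬 : List V → Prop)
  (N n M : ℕ) (w : List Dir), (EP T₀ Lr v₀ w).card ≤ M →
  ((VZ 𝒬 T₀ Lr (fun _ => v₀) N n).filter (fun W => EZ T₀ (fun _ => v₀) W = w)).card ≤
    2 ^ M * (N.factorial * 36 ^ N)

/-- A5: few engine blocks are rare in a class closed under connected sums. -/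
def StmtA5 : Prop := ∀ (T₀ Lr R : ℕ) (v₀ : List Dir), SmR Lr v₀ → LLat T₀ Lr R → 1 ≤ R →
  ∀ Q : List Dir → Prop, KClass Q → CSum Q → Q (.zm :: v₀) →
  ∃ c C : ℝ, 0 < c ∧ 0 < C ∧ ∀ j : ℕ,
    (((K Q (2 * j)).filter (fun w => ((EP T₀ Lr v₀ w).card : ℝ) ≤ c * (2 * j : ℝ) ^ (2 / 3 : ℝ))).card
      : ℝ) ≤ C * Real.exp (-(c * (2 * j : ℝ) ^ (2 / 3 : ℝ))) * a Q (2 * j)

/-- ORB: commuting-free abstract orbits. `Ω` is invariant under involutions `s X`, `X ∈ S`, which
change the bit `t w X` and keep the other bits. Then every point has a base point with all bits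
`false`, and the points with given base point correspond to the subsets of `S`; a quantity which
goes from `G j` to `G (j + 1)` under the changes of a bit from `false` to `true` is determined by the
base point and the number of bits `true`. -/
def StmtORB : Prop := ∀ (α σ : Type) [DecidableEq α] [DecidableEq σ] (Ω : Finset α) (S : Finset σ)
  (s : α → σ → α) (t : α → σ → Bool),
  (∀ w ∈ Ω, ∀ X ∈ S, s w X ∈ Ω ∧ s (s w X) X = w ∧ t (s w X) X = !t w X ∧
    ∀ Y ∈ S, Y ≠ X → t (s w X) Y = t w Y) →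
  ∃ base : α → α,
    (∀ w ∈ Ω, base w ∈ Ω ∧ ∀ X ∈ S, t (base w) X = false) ∧
    (∀ w₀ ∈ Ω, (∀ X ∈ S, t w₀ X = false) → ∀ A ⊆ S,
      ∃ w ∈ Ω, base w = w₀ ∧ S.filter (fun X => t w X = true) = A) ∧
    (∀ w ∈ Ω, ∀ w' ∈ Ω, base w = base w' →
      S.filter (fun X => t w X = true) = S.filter (fun X => t w' X = true) → w = w') ∧
    (∀ (β : Type) (G : ℕ → α → β),
      (∀ w ∈ Ω, ∀ X ∈ S, t w X = false → ∀ j, G j (s w X) = G (j + 1) w) →
      ∀ w ∈ Ω, ∀ j, G j w = G (j + (S.filter (fun X => t w X = true)).card) (base w))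

/-- CUBE: sums over the subsets of a finite set. -/
def StmtCUBE : Prop :=
  (∀ (σ : Type) [DecidableEq σ] (S : Finset σ) (ζ : ℂ),
    ∑ A ∈ S.powerset, ζ ^ A.card = (1 + ζ) ^ S.card) ∧
  (∀ (σ : Type) [DecidableEq σ] (S : Finset σ) (f : ℕ → ℝ), (∀ j, |f j| ≤ 1) →
    |∑ A ∈ S.powerset, (f (A.card + 1) - f A.card)| ≤ 2 * (S.card.choose (S.card / 2) : ℝ)) ∧
  (∀ m : ℕ, (m.choose (m / 2) : ℝ) * √(m + 1) ≤ 2 * 2 ^ m) ∧
  (∀ (σ : Type) [DecidableEq σ] (S : Finset σ) (𝒜 : Finset (Finset σ)), 𝒜 ⊆ S.powerset →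
    (∀ A ∈ 𝒜, ∀ B ∈ 𝒜, A ⊆ B → A = B) → 𝒜.card ≤ S.card.choose (S.card / 2))

end

end Pool.Agent.T6.H66.EQ
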