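import Pool.Agent.T6.H66.EQ.Sum

/-!
Project EQ: the orbits in a class of polygons.
-/

set_option autoImplicit false

namespace Pool.Agent.T6.H66.EQ

open Finset Filter Topology KN KN.KQ
open scoped Classical

noncomputable section

/-- the class does not lose its members when a summand of the type of `k` is removed -/
def Rem (Q : List Dir → Prop) (k : List V) : Prop := ∀ l1 v l2 : List Dir, Facing l1 v l2 →
  Same (vl (.zm :: v)) k → Q (join l1 v l2) → Q (l1 ++ .zp :: l2)

theorem mem_sites {T L : ℕ} {u : Bool → List Dir} {w : List Dir} {X : Pt} :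
    X ∈ sites T L u w ↔ X.1 < w.length + 1 ∧ site T L u w X := by
  unfold sites
  rw [mem_filter, mem_product, mem_range]
  simp

theorem bk_length {L T : ℕ} {u : Bool → List Dir} (hu : Good L u) (i : Bool) (d f : Dir) :
    (bk T u i d f).length = bl T u := by
  unfold bk bl blk
  have := hu.len
  cases i <;> simp only [List.length_map, List.length_append, List.length_replicate] <;> omega

theorem isPl_ty {T : ℕ} {u : Bool → List Dir} {w : List Dir} {X : Pt} (h : isPl T u w X) :
    At T u w (ty T u w X) X := by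
  unfold ty
  by_cases h1 : At T u w true X
  · rw [decide_eq_true h1]
    exact h1
  · rw [decide_eq_false h1]
    obtain ⟨i, hi⟩ := h
    cases i
    · exact hi
    · exact absurd hi h1

theorem SAP_len {w : List Dir} {Q : List Dir → Prop} {n : ℕ} (h : w ∈ K Q n) : w.length = n :=
  (mem_K.1 h).1

/-- the facts about a swap -/
theorem facts (g2 : StmtG2) (g3 : StmtG3) (g4 : StmtG4) {T L : ℕ} {u : Bool → List Dir}
    (hu : Good L u) (hT : 2 * L + 4 ≤ T) {k : List V} (hk : Same (vl (.zm :: u true)) k)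
    (hf : ∃ j, u false = .yp :: blk 0 (hp j) ++ [.ym]) {Q : List Dir → Prop} (hQ : KClass Q)
    (hc : CSum Q) (hQk : ∃ w, SAP w ∧ Q w ∧ Same (vl w) k) (hrem : Rem Q k) {n : ℕ}
    (hn : bl T u + 3 ≤ n) {w : List Dir} (hw : w ∈ K Q n) {X : Pt} (hX : X ∈ sites T L u w) :
    swp T u w X ∈ K Q n ∧ sites T L u (swp T u w X) = sites T L u w ∧
    swp T u (swp T u w X) X = w ∧ ty T u (swp T u w X) X = !ty T u w X ∧
    (∀ Y ∈ sites T L u w, Y ≠ X → ty T u (swp T u w X) Y = ty T u w Y) ∧
    (ty T u w X = false → IsSum (vl w) k (vl (swp T u w X))) := by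
  rw [mem_sites] at hX
  obtain ⟨hX0, hXs⟩ := hX
  obtain ⟨hwn, hwS, hwQ⟩ := mem_K.1 hw
  obtain ⟨e1, e2, e3, e4, e5, e6, e7⟩ := g2 T L u hu hT w X hXs.1
  obtain ⟨hp, l1, l2, hl1, hwe⟩ := isPl_ty hXs.1
  obtain ⟨m, d, f⟩ := X
  simp only at hp hl1 hwe hX0
  have hbl := bk_length (T := T) hu (ty T u w (m, d, f)) d f
  have hbl' := bk_length (T := T) hu (!ty T u w (m, d, f)) d f
  have ht : w.take m = l1 := by
    have h : (l1 ++ (bk T u (ty T u w (m, d, f)) d f ++ l2)).take m = l1 :=
      List.take_left' hl1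
    rw [← List.append_assoc, ← hwe] at h
    exact h
  have hd : w.drop (m + bl T u) = l2 := by
    have h : (l1 ++ bk T u (ty T u w (m, d, f)) d f ++ l2).drop (m + bl T u) = l2 :=
      List.drop_left' (by rw [List.length_append, hbl, hl1])
    rw [← hwe] at h
    exact h
  have hs : swp T u w (m, d, f) = l1 ++ bk T u (!ty T u w (m, d, f)) d f ++ l2 := by
    unfold swp
    simp only
    rw [ht, hd]
  have hb : bs T u w (m, d, f) = l1 ++ f :: l2 := by
    unfold bs
    simp only
    rw [ht, hd]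
  have hpy : py T u w (m, d, f) = pos l2 := by
    unfold py
    simp only
    rw [hd]
  have hroom : RmD T L d f (l1 ++ f :: l2) (pos l2) := by
    have := hXs.2.1
    unfold room at this
    rw [hb, hpy] at this
    exact this
  have hlen : 4 ≤ (l1 ++ f :: l2).length := by
    have h1 := congrArg List.length hwe
    rw [List.length_append, List.length_append, hbl, hwn] at h1
    rw [List.length_append, List.length_cons]
    omega
  obtain ⟨b1, b2, b3, b4⟩ := g4 T L u hu hT k hk hf l1 l2 d f (ty T u w (m, d, f)) hp hlen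
    (hwe ▸ hwS) hroom
  have hSs : SAP (swp T u w (m, d, f)) := by rw [hs]; exact b2 _
  have hsum : ty T u w (m, d, f) = false → IsSum (vl w) k (vl (swp T u w (m, d, f))) := by
    intro h0
    rw [hs, h0]
    simp only [Bool.not_false]
    obtain ⟨m1, v, m2, c1, c2, c3, c4⟩ := b4
    refine ⟨m1, v, m2, c1, c2.trans ?_, c3, c4⟩
    rw [h0] at hwe
    rw [hwe]
    exact b3
  have hQs : Q (swp T u w (m, d, f)) := by
    obtain ⟨wk, hk1, hk2, hk3⟩ := hQk
    rcases hty : ty T u w (m, d, f) with _ | _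
    · obtain ⟨m1, v, m2, c1, c2, c3, c4⟩ := hsum hty
      have h1 : Q (m1 ++ .zp :: m2) := hQ.same w _ hwS c1.1 c2.symm hwQ
      have h2 : Q (.zm :: v) := hQ.same wk _ hk1 c1.2.2.1 (hk3.trans c3.symm) hk2
      exact hQ.same _ _ (S_glueSAP_proof m1 v m2 c1) hSs c4.symm (hc m1 v m2 c1 h1 h2)
    · obtain ⟨m1, v, m2, c1, c2, c3, c4⟩ := b4
      have h1 : Same (vl w) (vl (join m1 v m2)) := by
        rw [hty] at hwe
        rw [hwe]
        exact c4
      have h2 : Q (join m1 v m2) := hQ.same w _ hwS (S_glueSAP_proof m1 v m2 c1) h1 hwQ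
      have h3 : Q (m1 ++ .zp :: m2) := hrem m1 v m2 c1 c3 h2
      have h4 : Same (vl (m1 ++ .zp :: m2)) (vl (swp T u w (m, d, f))) := by
        rw [hs, hty]
        simp only [Bool.not_true]
        exact c2.trans b3
      exact hQ.same _ _ c1.1 hSs h4 h3
  have hsK : swp T u w (m, d, f) ∈ K Q n := mem_K.2 ⟨e1.trans hwn, hSs, hQs⟩
  have hXs' : site T L u (swp T u w (m, d, f)) (m, d, f) :=
    g3 T L u hu hT w (m, d, f) (m, d, f) hwS hXs hXs
  refine ⟨hsK, ?_, e2, e4, ?_, hsum⟩
  · ext Y
    rw [mem_sites, mem_sites, e1]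
    constructor
    · rintro ⟨h1, h2⟩
      refine ⟨h1, ?_⟩
      have := g3 T L u hu hT _ (m, d, f) Y hSs hXs' h2
      rw [e2] at this
      exact this
    · rintro ⟨h1, h2⟩
      exact ⟨h1, g3 T L u hu hT w (m, d, f) Y hwS hXs h2⟩
  · intro Y hY hne
    exact e7 Y (mem_sites.1 hY).2.1 hne

end

end Pool.Agent.T6.H66.EQ
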