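import Pool.Agent.T6.H66.EQ.Thm
set_option autoImplicit false

namespace Pool.Agent.T6.H66.EQ

open Finset Filter Topology KN KN.KQ
open scoped Classical

noncomputable section

/-! ## Roots of unity -/

theorem root_lt {ω : ℂ} (h1 : ‖ω‖ = 1) (h2 : ω ≠ 1) : ‖1 + ω‖ / 2 < 1 := by
  rw [div_lt_one (by norm_num)]
  by_contra hcon
  rw [not_lt] at hcon
  have h3 : ‖1 + ω‖ ^ 2 = 2 + 2 * ω.re := by
    rw [← Complex.normSq_eq_norm_sq, Complex.normSq_apply]
    have h4 : ω.re * ω.re + ω.im * ω.im = 1 := by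
      have h5 := Complex.normSq_eq_norm_sq ω
      rw [h1, Complex.normSq_apply] at h5
      linarith
    simp only [Complex.add_re, Complex.one_re, Complex.add_im, Complex.one_im]
    nlinarith
  have h4 : ω.re * ω.re + ω.im * ω.im = 1 := by
    have h5 := Complex.normSq_eq_norm_sq ω
    rw [h1, Complex.normSq_apply] at h5
    linarith
  have h5 : 1 ≤ ω.re := by nlinarith
  apply h2
  apply Complex.ext
  · simp only [Complex.one_re]
    nlinarith [sq_nonneg ω.im]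
  · simp only [Complex.one_im]
    nlinarith [sq_nonneg ω.im]

theorem max_lt_one (s : Finset ℕ) (f : ℕ → ℝ) (h : ∀ t ∈ s, f t < 1) :
    ∃ β : ℝ, 0 < β ∧ β < 1 ∧ ∀ t ∈ s, f t ≤ β := by
  induction s using Finset.induction_on with
  | empty => exact ⟨1 / 2, by norm_num, by norm_num, by simp⟩
  | insert a s ha ih =>
    obtain ⟨β, h1, h2, h3⟩ := ih fun t ht => h t (mem_insert_of_mem ht)
    refine ⟨max β (f a), lt_max_of_lt_left h1, _root_.max_lt h2 (h a (mem_insert_self _ _)), ?_⟩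
    intro t ht
    rcases mem_insert.1 ht with rfl | ht
    · exact le_max_right _ _
    · exact (h3 t ht).trans (le_max_left _ _)

/-- **D**: additive invariants with a value of finite order -/
theorem thmD (cube : StmtCUBE) {Q : List Dir → Prop} {k : List V} {c C : ℝ} (hc : 0 < c)
    (hC : 0 < C) (hP : Princ Q k c C) (q : ℕ) (hq : 0 < q) : ∃ c₁ C₁ : ℝ, 0 < c₁ ∧ 0 < C₁ ∧
    ∀ (A : Type) [AddCommGroup A] (g : A), q • g = 0 →
    ∀ φ : List Dir → A, (∀ w w', SAP w → SAP w' → Same (vl w) (vl w') → φ w = φ w') →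
    (∀ l1 v l2, Facing l1 v l2 → Same (vl (.zm :: v)) k →
      φ (join l1 v l2) = φ (l1 ++ .zp :: l2) + g) → ∀ (B : Set A) (j : ℕ),
      |(((K Q (2 * j)).filter (fun w => φ w ∈ B)).card : ℝ) -
        (((K Q (2 * j)).filter (fun w => φ w + g ∈ B)).card : ℝ)| ≤
        C₁ * Real.exp (-(c₁ * (2 * j : ℝ) ^ (2 / 3 : ℝ))) * a Q (2 * j) := by
  obtain ⟨ζ, hζ⟩ : ∃ ζ : ℂ, ζ = Complex.exp (2 * Real.pi * Complex.I / q) := ⟨_, rfl⟩
  have hprim : IsPrimitiveRoot ζ q := by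
    rw [hζ]
    exact Complex.isPrimitiveRoot_exp q hq.ne'
  have hζq : ζ ^ q = 1 := hprim.pow_eq_one
  have hn1 : ‖ζ‖ = 1 := hprim.norm'_eq_one hq.ne'
  have hζ0 : ζ ≠ 0 := by
    intro h
    rw [h, norm_zero] at hn1
    exact zero_ne_one hn1
  obtain ⟨β, hβ0, hβ1, hβ⟩ := max_lt_one (Finset.Ico 1 q) (fun t => ‖1 + ζ ^ t‖ / 2) (by
    intro t ht
    rw [Finset.mem_Ico] at ht
    refine root_lt (by rw [norm_pow, hn1, one_pow]) ?_
    exact hprim.pow_ne_one_of_pos_of_lt (by omega) ht.2)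
  have hlog : Real.log β < 0 := Real.log_neg hβ0 hβ1
  obtain ⟨c₁, hc₁⟩ : ∃ c₁ : ℝ, c₁ = min c (c * (-Real.log β)) := ⟨_, rfl⟩
  have hc₁0 : 0 < c₁ := by
    rw [hc₁]
    exact lt_min hc (mul_pos hc (by linarith))
  refine ⟨c₁, 2 * q * (1 + C), hc₁0, by positivity, ?_⟩
  intro A _ g hg φ h1 h2 B j
  obtain ⟨x, hx⟩ : ∃ x : ℝ, x = (2 * j : ℝ) ^ (2 / 3 : ℝ) := ⟨_, rfl⟩
  have hx0 : 0 ≤ x := by rw [hx]; positivity
  rw [← hx]
  -- the functions F i
  obtain ⟨F, hF⟩ : ∃ F : ℕ → List Dir → ℂ, F = fun i w => if φ w + i • g ∈ B then 1 else 0 :=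
    ⟨_, rfl⟩
  have hFq : ∀ w, F q w = F 0 w := by
    intro w
    rw [hF]
    simp only [hg, zero_smul]
  have hFadd : ∀ i l1 v l2, Facing l1 v l2 → Same (vl (.zm :: v)) k →
      F i (join l1 v l2) = F (i + 1) (l1 ++ .zp :: l2) := by
    intro i l1 v l2 a1 a2
    rw [hF]
    simp only [h2 l1 v l2 a1 a2, add_smul, one_smul]
    have e : φ (l1 ++ .zp :: l2) + g + i • g = φ (l1 ++ .zp :: l2) + (i • g + g) := by
      rw [add_assoc, add_comm g]
    simp only [e]
  have hFn : ∀ i w, ‖F i w‖ ≤ 1 := by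
    intro i w
    rw [hF]
    simp only
    split_ifs <;> simp
  -- the characters
  obtain ⟨Z, hZ⟩ : ∃ Z : ℕ → List Dir → ℂ, Z = fun t w =>
    ∑ i ∈ range q, ((ζ ^ t)⁻¹) ^ i * F i w := ⟨_, rfl⟩
  have hZadd : ∀ t l1 v l2, Facing l1 v l2 → Same (vl (.zm :: v)) k →
      Z t (join l1 v l2) = ζ ^ t * Z t (l1 ++ .zp :: l2) := by
    intro t l1 v l2 a1 a2
    obtain ⟨w, hw⟩ : ∃ w, w = l1 ++ Dir.zp :: l2 := ⟨_, rfl⟩
    have e1 : Z t (join l1 v l2) = ∑ i ∈ range q, ((ζ ^ t)⁻¹) ^ i * F (i + 1) w := by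
      rw [hZ]
      simp only
      refine Finset.sum_congr rfl fun i _ => ?_
      rw [hFadd i l1 v l2 a1 a2, hw]
    have e2 : ∑ i ∈ range q, ((ζ ^ t)⁻¹) ^ (i + 1) * F (i + 1) w = Z t w := by
      have e3 := Finset.sum_range_succ' (fun i => ((ζ ^ t)⁻¹) ^ i * F i w) q
      have e4 := Finset.sum_range_succ (fun i => ((ζ ^ t)⁻¹) ^ i * F i w) q
      have e5 : ((ζ ^ t)⁻¹) ^ q * F q w = ((ζ ^ t)⁻¹) ^ 0 * F 0 w := by
        rw [hFq, inv_pow, ← pow_mul, mul_comm t q, pow_mul, hζq]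
        simp
      rw [e4, e5] at e3
      rw [hZ]
      exact (add_right_cancel e3).symm
    rw [e1, ← hw, ← e2, Finset.mul_sum]
    refine Finset.sum_congr rfl fun i _ => ?_
    have e6 : ζ ^ t ≠ 0 := pow_ne_zero _ hζ0
    rw [pow_succ]
    field_simp
  have hZsame : ∀ t w w', SAP w → SAP w' → Same (vl w) (vl w') → Z t w = Z t w' := by
    intro t w w' hw hw' hs
    rw [hZ, hF]
    simp only [h1 w w' hw hw' hs]
  have hZn : ∀ t w, ‖Z t w‖ ≤ q := by
    intro t w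
    rw [hZ]
    simp only
    refine (norm_sum_le _ _).trans ?_
    have h3 : ∀ i ∈ range q, ‖((ζ ^ t)⁻¹) ^ i * F i w‖ ≤ 1 := by
      intro i _
      rw [norm_mul, norm_pow, norm_inv, norm_pow, hn1, one_pow, inv_one, one_pow, one_mul]
      exact hFn i w
    refine (Finset.sum_le_sum h3).trans ?_
    simp
  have hq0 : (0 : ℝ) < q := by exact_mod_cast hq
  have hqc : (q : ℂ) ≠ 0 := by exact_mod_cast hq.ne'
  -- bound of the character sums
  have hbound : ∀ t ∈ Finset.Ico 1 q, ‖∑ w ∈ K Q (2 * j), Z t w‖ ≤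
      q * ((1 + C) * Real.exp (-(c₁ * x)) * a Q (2 * j)) := by
    intro t ht
    have h3 := thmC cube hc hP (ζ ^ t) (by rw [norm_pow, hn1, one_pow])
      (fun w => (q : ℂ)⁻¹ * Z t w)
      (fun w w' hw hw' hs => by simp only [hZsame t w w' hw hw' hs])
      (fun l1 v l2 a1 a2 => by
        simp only [hZadd t l1 v l2 a1 a2]
        ring)
      (fun w => by
        rw [norm_mul, norm_inv, Complex.norm_natCast]
        rw [inv_mul_le_iff₀ hq0, mul_one]
        exact hZn t w) j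
    rw [← hx, ← Finset.mul_sum, norm_mul, norm_inv, Complex.norm_natCast,
      inv_mul_le_iff₀ hq0] at h3
    refine h3.trans (mul_le_mul_of_nonneg_left ?_ hq0.le)
    refine mul_le_mul_of_nonneg_right ?_ (Nat.cast_nonneg _)
    have h4 : (‖1 + ζ ^ t‖ / 2) ^ (c * x) ≤ Real.exp (-(c₁ * x)) := by
      have h5 : (‖1 + ζ ^ t‖ / 2) ^ (c * x) ≤ β ^ (c * x) :=
        Real.rpow_le_rpow (by positivity) (hβ t ht) (by positivity)
      refine h5.trans ?_
      rw [Real.rpow_def_of_pos hβ0, Real.exp_le_exp]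
      have h6 : c₁ ≤ c * (-Real.log β) := by rw [hc₁]; exact min_le_right _ _
      nlinarith [mul_le_mul_of_nonneg_right h6 hx0]
    have h7 : Real.exp (-(c * x)) ≤ Real.exp (-(c₁ * x)) := by
      rw [Real.exp_le_exp]
      have h6 : c₁ ≤ c := by rw [hc₁]; exact min_le_left _ _
      nlinarith [mul_le_mul_of_nonneg_right h6 hx0]
    have h8 := mul_le_mul_of_nonneg_left h7 hC.le
    linarith
  -- inversion
  have hgeo : ∀ i : ℕ, i < q → ∑ t ∈ range q, ((ζ ^ t)⁻¹) ^ i = if i = 0 then (q : ℂ) else 0 := by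
    intro i hi
    split_ifs with h3
    · rw [h3]
      simp
    · have e1 : ∀ t, ((ζ ^ t)⁻¹) ^ i = ((ζ ^ i)⁻¹) ^ t := by
        intro t
        rw [inv_pow, inv_pow, ← pow_mul, ← pow_mul, mul_comm]
      simp only [e1]
      have e2 : (ζ ^ i)⁻¹ ≠ 1 := by
        intro h4
        rw [inv_eq_one] at h4
        exact hprim.pow_ne_one_of_pos_of_lt h3 hi h4
      rw [geom_sum_eq e2, inv_pow, ← pow_mul, mul_comm i q, pow_mul, hζq]
      simp
  have hinv : ∀ w, ∑ t ∈ range q, Z t w = q * F 0 w := by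
    intro w
    rw [hZ]
    simp only
    rw [Finset.sum_comm]
    have e1 : ∀ i ∈ range q, ∑ t ∈ range q, ((ζ ^ t)⁻¹) ^ i * F i w =
        (if i = 0 then (q : ℂ) else 0) * F i w := by
      intro i hi
      rw [← Finset.sum_mul, hgeo i (mem_range.1 hi)]
    rw [Finset.sum_congr rfl e1]
    simp only [ite_mul, zero_mul]
    rw [Finset.sum_ite_eq' (range q) 0 (fun i => (q : ℂ) * F i w), if_pos (mem_range.2 hq)]
  have hinv1 : ∀ w, ∑ t ∈ range q, ζ ^ t * Z t w = q * F 1 w := by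
    intro w
    rcases Nat.lt_or_ge 1 q with h3 | h3
    · have e0 : ∀ t, ζ ^ t * Z t w = ∑ i ∈ range q, ((ζ ^ t)⁻¹) ^ i * F (i + 1) w := by
        intro t
        have e3 := Finset.sum_range_succ' (fun i => ((ζ ^ t)⁻¹) ^ i * F i w) q
        have e4 := Finset.sum_range_succ (fun i => ((ζ ^ t)⁻¹) ^ i * F i w) q
        have e5 : ((ζ ^ t)⁻¹) ^ q * F q w = ((ζ ^ t)⁻¹) ^ 0 * F 0 w := by
          rw [hFq, inv_pow, ← pow_mul, mul_comm t q, pow_mul, hζq]
          simp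
        rw [e4, e5] at e3
        have e6 : Z t w = ∑ i ∈ range q, ((ζ ^ t)⁻¹) ^ (i + 1) * F (i + 1) w := by
          rw [hZ]
          exact add_right_cancel e3
        rw [e6, Finset.mul_sum]
        refine Finset.sum_congr rfl fun i _ => ?_
        have e7 : ζ ^ t ≠ 0 := pow_ne_zero _ hζ0
        rw [pow_succ]
        field_simp
      simp only [e0]
      rw [Finset.sum_comm]
      have e1 : ∀ i ∈ range q, ∑ t ∈ range q, ((ζ ^ t)⁻¹) ^ i * F (i + 1) w =
          (if i = 0 then (q : ℂ) else 0) * F (i + 1) w := by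
        intro i hi
        rw [← Finset.sum_mul, hgeo i (mem_range.1 hi)]
      rw [Finset.sum_congr rfl e1]
      simp only [ite_mul, zero_mul]
      rw [Finset.sum_ite_eq' (range q) 0 (fun i => (q : ℂ) * F (i + 1) w),
        if_pos (mem_range.2 hq)]
    · have h4 : q = 1 := by omega
      subst h4
      have h5 := hFq w
      simp only [range_one, sum_singleton, pow_zero, one_mul, Nat.cast_one]
      rw [h5, hZ]
      simp
  have hcard : ∀ i, (∑ w ∈ K Q (2 * j), F i w) =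
      ((((K Q (2 * j)).filter (fun w => φ w + i • g ∈ B)).card : ℝ) : ℂ) := by
    intro i
    rw [hF]
    simp only
    rw [Finset.sum_boole]
    push_cast
    rfl
  have hdiff : (q : ℂ) * ((∑ w ∈ K Q (2 * j), F 0 w) - ∑ w ∈ K Q (2 * j), F 1 w) =
      ∑ t ∈ Finset.Ico 1 q, (1 - ζ ^ t) * ∑ w ∈ K Q (2 * j), Z t w := by
    have e1 : (q : ℂ) * ((∑ w ∈ K Q (2 * j), F 0 w) - ∑ w ∈ K Q (2 * j), F 1 w) =
        ∑ t ∈ range q, (1 - ζ ^ t) * ∑ w ∈ K Q (2 * j), Z t w := by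
      calc (q : ℂ) * ((∑ w ∈ K Q (2 * j), F 0 w) - ∑ w ∈ K Q (2 * j), F 1 w)
          = ∑ w ∈ K Q (2 * j), (q * F 0 w - q * F 1 w) := by
            rw [Finset.sum_sub_distrib, mul_sub, Finset.mul_sum, Finset.mul_sum]
        _ = ∑ w ∈ K Q (2 * j), ∑ t ∈ range q, (1 - ζ ^ t) * Z t w := by
            refine Finset.sum_congr rfl fun w _ => ?_
            rw [← hinv w, ← hinv1 w, ← Finset.sum_sub_distrib]
            refine Finset.sum_congr rfl fun t _ => ?_
            ring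
        _ = _ := by
            rw [Finset.sum_comm]
            refine Finset.sum_congr rfl fun t _ => ?_
            rw [Finset.mul_sum]
    rw [e1, Finset.range_eq_Ico, Finset.sum_eq_sum_Ico_succ_bot hq]
    simp
  have hfin : (q : ℝ) * |(((K Q (2 * j)).filter (fun w => φ w ∈ B)).card : ℝ) -
        (((K Q (2 * j)).filter (fun w => φ w + g ∈ B)).card : ℝ)| ≤
      q * (2 * q * (1 + C) * Real.exp (-(c₁ * x)) * a Q (2 * j)) := by
    have e0 := hcard 0
    have e1 := hcard 1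
    simp only [zero_smul, add_zero, one_smul] at e0 e1
    have e2 : (q : ℝ) * |(((K Q (2 * j)).filter (fun w => φ w ∈ B)).card : ℝ) -
        (((K Q (2 * j)).filter (fun w => φ w + g ∈ B)).card : ℝ)| =
        ‖(q : ℂ) * ((∑ w ∈ K Q (2 * j), F 0 w) - ∑ w ∈ K Q (2 * j), F 1 w)‖ := by
      rw [e0, e1, norm_mul, Complex.norm_natCast, ← Complex.ofReal_sub, Complex.norm_real,
        Real.norm_eq_abs]
    rw [e2, hdiff]
    refine (norm_sum_le _ _).trans ?_
    have h3 : ∀ t ∈ Finset.Ico 1 q, ‖(1 - ζ ^ t) * ∑ w ∈ K Q (2 * j), Z t w‖ ≤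
        2 * (q * ((1 + C) * Real.exp (-(c₁ * x)) * a Q (2 * j))) := by
      intro t ht
      rw [norm_mul]
      refine mul_le_mul ?_ (hbound t ht) (norm_nonneg _) (by norm_num)
      refine (norm_sub_le _ _).trans ?_
      rw [norm_one, norm_pow, hn1, one_pow]
      norm_num
    refine (Finset.sum_le_sum h3).trans ?_
    rw [sum_const, nsmul_eq_mul, Nat.card_Ico]
    have h4 : ((q - 1 : ℕ) : ℝ) ≤ q := by exact_mod_cast Nat.sub_le q 1
    calc ((q - 1 : ℕ) : ℝ) * (2 * (q * ((1 + C) * Real.exp (-(c₁ * x)) * a Q (2 * j))))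
        ≤ q * (2 * (q * ((1 + C) * Real.exp (-(c₁ * x)) * a Q (2 * j)))) :=
          mul_le_mul_of_nonneg_right h4 (by positivity)
      _ = _ := by ring
  exact le_of_mul_le_mul_left hfin hq0

end

end Pool.Agent.T6.H66.EQ
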