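import Pool.Agent.T6.H66.EQ.Defs

/-!
Project EQ: sums over orbits and differences of higher order.
-/

set_option autoImplicit false

namespace Pool.Agent.T6.H66.EQ

open Finset Filter Topology
open scoped Classical

noncomputable section

/-- sums over the orbits -/
theorem orb_sum (orb : StmtORB) {α σ : Type} [DecidableEq α] [DecidableEq σ] (Ω : Finset α)
    (S : Finset σ) (s : α → σ → α) (t : α → σ → Bool)
    (h : ∀ w ∈ Ω, ∀ X ∈ S, s w X ∈ Ω ∧ s (s w X) X = w ∧ t (s w X) X = !t w X ∧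
      ∀ Y ∈ S, Y ≠ X → t (s w X) Y = t w Y) :
    ∃ (B : Finset α) (base : α → α) (N : α → ℕ), B ⊆ Ω ∧ (∀ w ∈ Ω, base w ∈ B) ∧
      (∀ (E : Type) [AddCommMonoid E] (g : α → ℕ → E),
        ∑ w ∈ Ω, g (base w) (N w) = ∑ w₀ ∈ B, ∑ A ∈ S.powerset, g w₀ A.card) ∧
      (∀ (β : Type) (G : ℕ → α → β),
        (∀ w ∈ Ω, ∀ X ∈ S, t w X = false → ∀ j, G j (s w X) = G (j + 1) w) →
        ∀ w ∈ Ω, ∀ j, G j w = G (j + N w) (base w)) := by
  obtain ⟨base, h1, h2, h3, h4⟩ := orb α σ Ω S s t h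
  refine ⟨Ω.filter (fun w => ∀ X ∈ S, t w X = false), base,
    fun w => (S.filter (fun X => t w X = true)).card, filter_subset _ _, ?_, ?_, ?_⟩
  · intro w hw
    rw [mem_filter]
    exact h1 w hw
  · intro E _ g
    have hm : ∀ w ∈ Ω, base w ∈ Ω.filter (fun w => ∀ X ∈ S, t w X = false) := by
      intro w hw
      rw [mem_filter]
      exact h1 w hw
    rw [← Finset.sum_fiberwise_of_maps_to hm]
    refine Finset.sum_congr rfl ?_
    intro w₀ hw₀
    rw [mem_filter] at hw₀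
    refine Finset.sum_nbij (fun w => S.filter (fun X => t w X = true)) ?_ ?_ ?_ ?_
    · intro w _
      rw [mem_powerset]
      exact filter_subset _ _
    · intro w hw w' hw' he
      rw [mem_coe, mem_filter] at hw hw'
      exact h3 w hw.1 w' hw'.1 (hw.2.trans hw'.2.symm) he
    · intro A hA
      rw [mem_coe, mem_powerset] at hA
      obtain ⟨w, h5, h6, h7⟩ := h2 w₀ hw₀.1 hw₀.2 A hA
      refine ⟨w, ?_, h7⟩
      rw [mem_coe, mem_filter]
      exact ⟨h5, h6⟩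
    · intro w hw
      rw [mem_filter] at hw
      simp only [hw.2]
  · exact h4

/-- bounds for sums over orbits -/
theorem orb_bound (orb : StmtORB) {α σ : Type} [DecidableEq α] [DecidableEq σ] (Ω : Finset α)
    (S : Finset σ) (s : α → σ → α) (t : α → σ → Bool)
    (h : ∀ w ∈ Ω, ∀ X ∈ S, s w X ∈ Ω ∧ s (s w X) X = w ∧ t (s w X) X = !t w X ∧
      ∀ Y ∈ S, Y ≠ X → t (s w X) Y = t w Y) :
    ∃ (base : α → α) (N : α → ℕ),
      (∀ w ∈ Ω, base w ∈ Ω) ∧
      (∀ (β : Type) (G : ℕ → α → β),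
        (∀ w ∈ Ω, ∀ X ∈ S, t w X = false → ∀ j, G j (s w X) = G (j + 1) w) →
        ∀ w ∈ Ω, ∀ j, G j w = G (j + N w) (base w)) ∧
      (∀ (E : Type) [NormedAddCommGroup E] (f : α → E) (g : α → ℕ → E) (M : ℝ),
        (∀ w ∈ Ω, f w = g (base w) (N w)) →
        (∀ w₀ ∈ Ω, ‖∑ A ∈ S.powerset, g w₀ A.card‖ ≤ M * 2 ^ S.card) →
        ‖∑ w ∈ Ω, f w‖ ≤ M * Ω.card) := by
  obtain ⟨B, base, N, h0, h1, h2, h3⟩ := orb_sum orb Ω S s t h
  refine ⟨base, N, fun w hw => h0 (h1 w hw), h3, ?_⟩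
  intro E _ f g M hf hg
  have hcard : (Ω.card : ℝ) = B.card * 2 ^ S.card := by
    have h4 := h2 ℝ (fun _ _ => 1)
    simp only [sum_const, card_powerset, nsmul_eq_mul, mul_one] at h4
    push_cast at h4
    exact h4
  rw [Finset.sum_congr rfl hf, h2 E g]
  refine (norm_sum_le _ _).trans ?_
  refine (Finset.sum_le_sum fun w₀ hw₀ => hg w₀ (h0 hw₀)).trans ?_
  rw [sum_const, nsmul_eq_mul, hcard]
  exact le_of_eq (by ring)

/-- the shift -/
def Sh : (ℕ → ℝ) →ₗ[ℝ] (ℕ → ℝ) where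
  toFun h := fun j => h (j + 1)
  map_add' _ _ := rfl
  map_smul' _ _ := rfl

theorem Sh_apply (h : ℕ → ℝ) (j : ℕ) : Sh h j = h (j + 1) := rfl

theorem pow_add_sh {σ : Type} [DecidableEq σ] (S : Finset σ) : ∀ (h : ℕ → ℝ) (j : ℕ),
    (((1 : Module.End ℝ (ℕ → ℝ)) + Sh) ^ S.card) h j = ∑ A ∈ S.powerset, h (j + A.card) := by
  induction S using Finset.induction_on with
  | empty =>
    intro h j
    simp
  | insert a S ha ih =>
    intro h j
    rw [Finset.sum_powerset_insert ha, card_insert_of_notMem ha, pow_succ]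
    have h1 : (((1 : Module.End ℝ (ℕ → ℝ)) + Sh) ^ S.card * (1 + Sh)) h =
        (((1 : Module.End ℝ (ℕ → ℝ)) + Sh) ^ S.card) (h + Sh h) := rfl
    rw [h1, map_add, Pi.add_apply, ih, ih]
    congr 1
    refine Finset.sum_congr rfl fun A hA => ?_
    have hA' : a ∉ A := fun h2 => ha (mem_powerset.1 hA h2)
    rw [Sh_apply, card_insert_of_notMem hA']
    rfl

/-- bound for one difference -/
theorem one_diff (cube : StmtCUBE) (q : ℕ) (h : ℕ → ℝ) (M : ℝ) (hM : ∀ j, |h j| ≤ M) (j : ℕ) :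
    |((((1 : Module.End ℝ (ℕ → ℝ)) + Sh) ^ q * (1 - Sh)) h) j| ≤ M * (4 * 2 ^ q / √(q + 1)) := by
  obtain ⟨-, h2, h3, -⟩ := cube
  have hM0 : 0 ≤ M := (abs_nonneg _).trans (hM 0)
  have e1 : ((((1 : Module.End ℝ (ℕ → ℝ)) + Sh) ^ q * (1 - Sh)) h) j =
      -(∑ A ∈ (range q).powerset, (h (j + A.card + 1) - h (j + A.card))) := by
    have e2 : ((((1 : Module.End ℝ (ℕ → ℝ)) + Sh) ^ q * (1 - Sh)) h) =
      (((1 : Module.End ℝ (ℕ → ℝ)) + Sh) ^ (range q).card) (h - Sh h) := by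
      rw [card_range]
      rfl
    rw [e2, pow_add_sh, ← Finset.sum_neg_distrib]
    refine Finset.sum_congr rfl fun A _ => ?_
    rw [Pi.sub_apply, Sh_apply]
    ring
  rw [e1, abs_neg]
  have hs : 0 < √((q : ℝ) + 1) := Real.sqrt_pos.2 (by positivity)
  rcases hM0.eq_or_lt with h0 | h0
  · have h5 : ∀ i, h i = 0 := by
      intro i
      have := hM i
      rw [← h0] at this
      exact abs_nonpos_iff.1 this
    simp only [h5, sub_zero, Finset.sum_const_zero, abs_zero]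
    rw [← h0]
    simp
  have h4 := h2 ℕ (range q) (fun i => h (j + i) / M) (by
    intro i
    rw [abs_div, abs_of_pos h0, div_le_one h0]
    exact hM _)
  rw [card_range] at h4
  have e3 : ∑ A ∈ (range q).powerset, (h (j + A.card + 1) - h (j + A.card)) =
      M * ∑ A ∈ (range q).powerset, (h (j + (A.card + 1)) / M - h (j + A.card) / M) := by
    rw [Finset.mul_sum]
    refine Finset.sum_congr rfl fun A _ => ?_
    field_simp
    rfl
  rw [e3, abs_mul, abs_of_pos h0]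
  refine mul_le_mul_of_nonneg_left (h4.trans ?_) h0.le
  rw [le_div_iff₀ hs]
  have := h3 q
  linarith

/-- bound for several differences -/
theorem many_diff (cube : StmtCUBE) (q m : ℕ) : ∀ (r : ℕ) (h : ℕ → ℝ) (M : ℝ), (∀ j, |h j| ≤ M) →
    ∀ j, |((((1 : Module.End ℝ (ℕ → ℝ)) + Sh) ^ (q * r + m) * (1 - Sh) ^ r) h) j| ≤
      M * (4 * 2 ^ q / √(q + 1)) ^ r * 2 ^ m := by
  intro r
  induction r with
  | zero =>
    intro h M hM j
    have e1 : ((((1 : Module.End ℝ (ℕ → ℝ)) + Sh) ^ (q * 0 + m) *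
        (1 - Sh : Module.End ℝ (ℕ → ℝ)) ^ 0 : Module.End ℝ (ℕ → ℝ)) h) j =
        ∑ A ∈ (range m).powerset, h (j + A.card) := by
      rw [← pow_add_sh, card_range, mul_zero, zero_add, pow_zero, mul_one]
    rw [e1, pow_zero, mul_one]
    refine (Finset.abs_sum_le_sum_abs _ _).trans ?_
    refine (Finset.sum_le_sum (fun A _ => hM _)).trans ?_
    rw [Finset.sum_const, card_powerset, card_range, nsmul_eq_mul]
    push_cast
    rw [mul_comm]
  | succ r ih =>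
    intro h M hM j
    have e1 : (((1 : Module.End ℝ (ℕ → ℝ)) + Sh) ^ (q * (r + 1) + m) * (1 - Sh) ^ (r + 1)) =
        ((1 + Sh) ^ (q * r + m) * (1 - Sh) ^ r) * ((1 + Sh) ^ q * (1 - Sh)) := by
      have hc : Commute ((1 : Module.End ℝ (ℕ → ℝ)) + Sh) (1 - Sh) := by
        unfold Commute SemiconjBy
        noncomm_ring
      have hc2 : Commute ((1 - Sh : Module.End ℝ (ℕ → ℝ)) ^ r) ((1 + Sh) ^ q) :=
        (hc.symm.pow_left r).pow_right q
      rw [show q * (r + 1) + m = (q * r + m) + q by ring, pow_add, pow_succ]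
      calc ((1 : Module.End ℝ (ℕ → ℝ)) + Sh) ^ (q * r + m) * (1 + Sh) ^ q * ((1 - Sh) ^ r * (1 - Sh))
          = (1 + Sh) ^ (q * r + m) * ((1 + Sh) ^ q * (1 - Sh) ^ r) * (1 - Sh) := by
            simp only [mul_assoc]
        _ = (1 + Sh) ^ (q * r + m) * ((1 - Sh) ^ r * (1 + Sh) ^ q) * (1 - Sh) := by
            rw [hc2.eq]
        _ = _ := by simp only [mul_assoc]
    rw [e1, Module.End.mul_apply]
    refine (ih _ _ (one_diff cube q h M hM) j).trans (le_of_eq ?_)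
    rw [pow_succ]
    ring

/-- the alternating sum -/
theorem alt_sum (r : ℕ) (h : ℕ → ℝ) (j : ℕ) :
    (((1 - Sh : Module.End ℝ (ℕ → ℝ)) ^ r) h) j =
      ∑ i ∈ range (r + 1), (-1 : ℝ) ^ i * (r.choose i : ℝ) * h (j + i) := by
  induction r generalizing h j with
  | zero => simp
  | succ r ih =>
    rw [pow_succ']
    have e1 : ((((1 - Sh : Module.End ℝ (ℕ → ℝ))) * (1 - Sh) ^ r) h) j =
        (((1 - Sh : Module.End ℝ (ℕ → ℝ)) ^ r) h) j -
          (((1 - Sh : Module.End ℝ (ℕ → ℝ)) ^ r) h) (j + 1) := rfl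
    rw [e1, ih, ih]
    rw [Finset.sum_range_succ' _ (r + 1)]
    have e2 : ∑ i ∈ range (r + 1), (-1 : ℝ) ^ (i + 1) * ((r + 1).choose (i + 1) : ℝ) * h (j + (i + 1)) =
        -(∑ i ∈ range (r + 1), (-1 : ℝ) ^ i * (r.choose i : ℝ) * h (j + 1 + i)) +
        ∑ i ∈ range (r + 1), (-1 : ℝ) ^ (i + 1) * (r.choose (i + 1) : ℝ) * h (j + (i + 1)) := by
      rw [← Finset.sum_neg_distrib, ← Finset.sum_add_distrib]
      refine Finset.sum_congr rfl fun i _ => ?_
      rw [Nat.choose_succ_succ, show j + 1 + i = j + (i + 1) by ring]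
      push_cast
      ring
    have e3 : ∑ i ∈ range (r + 1), (-1 : ℝ) ^ i * (r.choose i : ℝ) * h (j + i) =
        ∑ i ∈ range (r + 1), (-1 : ℝ) ^ (i + 1) * (r.choose (i + 1) : ℝ) * h (j + (i + 1)) +
          h j := by
      rw [Finset.sum_range_succ']
      congr 1
      · rw [Finset.sum_range_succ (fun i => (-1 : ℝ) ^ (i + 1) * (r.choose (i + 1) : ℝ) * h (j + (i + 1))) r]
        rw [Nat.choose_succ_self]
        simp
      · simp
    rw [e2, e3]
    simp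
    ring

/-- sums over the subsets of a set, differences of order `r` -/
theorem diff_sum (cube : StmtCUBE) (r : ℕ) : ∃ C : ℝ, 0 < C ∧ ∀ (σ : Type) [DecidableEq σ]
    (S : Finset σ) (h : ℕ → ℝ), (∀ j, |h j| ≤ 1) →
    |∑ A ∈ S.powerset, ∑ i ∈ range (r + 1), (-1 : ℝ) ^ i * (r.choose i : ℝ) * h (A.card + i)| ≤
      C * 2 ^ S.card * ((S.card : ℝ) + 1) ^ (-(r / 2 : ℝ)) := by
  rcases Nat.eq_zero_or_pos r with h0 | h0
  · subst h0
    refine ⟨1, one_pos, ?_⟩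
    intro σ _ S h hh
    simp only [Nat.cast_zero, zero_div, neg_zero, Real.rpow_zero, one_mul, mul_one, zero_add,
      range_one, sum_singleton, pow_zero, Nat.choose_zero_right, Nat.cast_one, add_zero]
    refine (Finset.abs_sum_le_sum_abs _ _).trans ?_
    refine (Finset.sum_le_sum (fun A _ => hh _)).trans ?_
    rw [Finset.sum_const, card_powerset, nsmul_eq_mul]
    push_cast
    rw [mul_one]
  have hr : (0 : ℝ) < r := by exact_mod_cast h0
  refine ⟨(4 * √r) ^ r, by positivity, ?_⟩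
  intro σ _ S h hh
  obtain ⟨q, hq⟩ : ∃ q, q = S.card / r := ⟨_, rfl⟩
  obtain ⟨m, hm⟩ : ∃ m, m = S.card % r := ⟨_, rfl⟩
  have hS : q * r + m = S.card := by rw [hq, hm, mul_comm]; exact Nat.div_add_mod _ _
  have h1 := many_diff cube q m r h 1 hh 0
  have e1 : ((((1 : Module.End ℝ (ℕ → ℝ)) + Sh) ^ (q * r + m) * (1 - Sh) ^ r) h) 0 =
      ∑ A ∈ S.powerset, ∑ i ∈ range (r + 1), (-1 : ℝ) ^ i * (r.choose i : ℝ) * h (A.card + i) := by
    rw [hS, Module.End.mul_apply, pow_add_sh]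
    refine Finset.sum_congr rfl fun A _ => ?_
    rw [zero_add, alt_sum]
  rw [e1] at h1
  refine h1.trans ?_
  have hq1 : ((S.card : ℝ) + 1) / r ≤ q + 1 := by
    rw [div_le_iff₀ hr]
    have h2 : S.card + 1 ≤ (q + 1) * r := by
      rw [← hS]
      have := Nat.mod_lt S.card h0
      rw [← hm] at this
      nlinarith
    exact_mod_cast h2
  have hS0 : (0 : ℝ) < (S.card : ℝ) + 1 := by positivity
  have h5 : (4 * 2 ^ q / √((q : ℝ) + 1)) ^ r ≤
      (4 * √r) ^ r * (2 ^ q) ^ r * ((S.card : ℝ) + 1) ^ (-(r / 2 : ℝ)) := by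
    have h6 : ((S.card : ℝ) + 1) ^ (-(r / 2 : ℝ)) = (1 / √((S.card : ℝ) + 1)) ^ r := by
      rw [Real.sqrt_eq_rpow, one_div, ← Real.rpow_neg hS0.le, ← Real.rpow_natCast, ← Real.rpow_mul hS0.le]
      congr 1
      ring
    rw [h6, ← mul_pow, ← mul_pow]
    refine pow_le_pow_left₀ (by positivity) ?_ r
    have h7 : √((S.card : ℝ) + 1) ≤ √r * √((q : ℝ) + 1) := by
      rw [← Real.sqrt_mul hr.le]
      refine Real.sqrt_le_sqrt ?_
      rw [div_le_iff₀ hr] at hq1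
      linarith
    have h8 : 0 < √((q : ℝ) + 1) := Real.sqrt_pos.2 (by positivity)
    have h9 : 0 < √((S.card : ℝ) + 1) := Real.sqrt_pos.2 (by positivity)
    rw [div_le_iff₀ h8]
    have h10 : 4 * √(r : ℝ) * 2 ^ q * (1 / √((S.card : ℝ) + 1)) * √((q : ℝ) + 1) =
        4 * 2 ^ q * ((√(r : ℝ) * √((q : ℝ) + 1)) / √((S.card : ℝ) + 1)) := by
      field_simp
    rw [h10]
    refine le_mul_of_one_le_right (by positivity) ?_
    rw [le_div_iff₀ h9]
    linarith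
  rw [one_mul]
  calc (4 * 2 ^ q / √((q : ℝ) + 1)) ^ r * 2 ^ m
      ≤ (4 * √r) ^ r * (2 ^ q) ^ r * ((S.card : ℝ) + 1) ^ (-(r / 2 : ℝ)) * 2 ^ m :=
        mul_le_mul_of_nonneg_right h5 (by positivity)
    _ = (4 * √r) ^ r * 2 ^ S.card * ((S.card : ℝ) + 1) ^ (-(r / 2 : ℝ)) := by
        rw [← hS, pow_add, pow_mul]
        ring

/-- summable functions: one more factor -/
theorem diff_sum1 (cube : StmtCUBE) (r : ℕ) : ∃ C : ℝ, 0 < C ∧ ∀ (σ : Type) [DecidableEq σ]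
    (S : Finset σ) (h : ℕ → ℝ), (∀ N, ∑ i ∈ range N, |h i| ≤ 1) →
    |∑ A ∈ S.powerset, ∑ i ∈ range (r + 1), (-1 : ℝ) ^ i * (r.choose i : ℝ) * h (A.card + i)| ≤
      C * 2 ^ S.card * ((S.card : ℝ) + 1) ^ (-((r + 1) / 2 : ℝ)) := by
  have hr : (0 : ℝ) < (r : ℝ) + 1 := by positivity
  refine ⟨(4 * √((r : ℝ) + 1)) ^ (r + 1), by positivity, ?_⟩
  intro σ _ S h hh
  obtain ⟨q, hq⟩ : ∃ q, q = S.card / (r + 1) := ⟨_, rfl⟩
  obtain ⟨m, hm⟩ : ∃ m, m = S.card % (r + 1) := ⟨_, rfl⟩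
  have hS : q * (r + 1) + m = S.card := by rw [hq, hm, mul_comm]; exact Nat.div_add_mod _ _
  have hs : 0 < √((q : ℝ) + 1) := Real.sqrt_pos.2 (by positivity)
  have hE : ∀ j, |((((1 : Module.End ℝ (ℕ → ℝ)) + Sh) ^ q) h) j| ≤ 4 * 2 ^ q / √((q : ℝ) + 1) := by
    intro j
    have e1 : ((((1 : Module.End ℝ (ℕ → ℝ)) + Sh) ^ q) h) j =
        ∑ A ∈ (range q).powerset, h (j + A.card) := by
      rw [← pow_add_sh, card_range]
    rw [e1, Finset.sum_powerset_apply_card (fun i => h (j + i)), card_range]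
    refine (Finset.abs_sum_le_sum_abs _ _).trans ?_
    have h1 : ∀ i ∈ range (q + 1), |q.choose i • h (j + i)| ≤
        (q.choose (q / 2) : ℝ) * |h (j + i)| := by
      intro i _
      rw [nsmul_eq_mul, abs_mul, Nat.abs_cast]
      refine mul_le_mul_of_nonneg_right ?_ (abs_nonneg _)
      exact_mod_cast Nat.choose_le_middle i q
    refine (Finset.sum_le_sum h1).trans ?_
    rw [← Finset.mul_sum]
    have h2 : ∑ i ∈ range (q + 1), |h (j + i)| ≤ 1 := by
      refine le_trans ?_ (hh (j + (q + 1)))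
      have e3 := Finset.sum_range_add (fun i => |h i|) j (q + 1)
      have : 0 ≤ ∑ i ∈ range j, |h i| := Finset.sum_nonneg fun i _ => abs_nonneg _
      linarith
    have h3 : (q.choose (q / 2) : ℝ) ≤ 4 * 2 ^ q / √((q : ℝ) + 1) := by
      rw [le_div_iff₀ hs]
      have := cube.2.2.1 q
      have h4 : (0 : ℝ) < 2 ^ q := by positivity
      linarith
    calc (q.choose (q / 2) : ℝ) * ∑ i ∈ range (q + 1), |h (j + i)|
        ≤ (q.choose (q / 2) : ℝ) * 1 := mul_le_mul_of_nonneg_left h2 (Nat.cast_nonneg _)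
      _ ≤ _ := by rw [mul_one]; exact h3
  have h1 := many_diff cube q m r _ _ hE 0
  have e1 : ((((1 : Module.End ℝ (ℕ → ℝ)) + Sh) ^ (q * r + m) *
      (1 - Sh : Module.End ℝ (ℕ → ℝ)) ^ r : Module.End ℝ (ℕ → ℝ))
        (((1 + Sh : Module.End ℝ (ℕ → ℝ)) ^ q) h)) 0 =
      ∑ A ∈ S.powerset, ∑ i ∈ range (r + 1), (-1 : ℝ) ^ i * (r.choose i : ℝ) * h (A.card + i) := by
    have hc : Commute ((1 : Module.End ℝ (ℕ → ℝ)) + Sh) (1 - Sh) := by
      unfold Commute SemiconjBy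
      noncomm_ring
    have hc2 : Commute ((1 - Sh : Module.End ℝ (ℕ → ℝ)) ^ r) ((1 + Sh) ^ q) :=
      (hc.symm.pow_left r).pow_right q
    have e2 : ((1 : Module.End ℝ (ℕ → ℝ)) + Sh) ^ (q * r + m) * (1 - Sh) ^ r * (1 + Sh) ^ q =
        (1 + Sh) ^ S.card * (1 - Sh) ^ r := by
      rw [mul_assoc, hc2.eq, ← mul_assoc, ← pow_add, ← hS]
      congr 2
      ring
    rw [← Module.End.mul_apply, e2, Module.End.mul_apply, pow_add_sh]
    refine Finset.sum_congr rfl fun A _ => ?_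
    rw [zero_add, alt_sum]
  rw [e1] at h1
  refine h1.trans ?_
  have hq1 : ((S.card : ℝ) + 1) / (r + 1) ≤ q + 1 := by
    rw [div_le_iff₀ hr]
    have h2 : S.card + 1 ≤ (q + 1) * (r + 1) := by
      rw [← hS]
      have := Nat.mod_lt S.card (Nat.succ_pos r)
      rw [Nat.succ_eq_add_one, ← hm] at this
      nlinarith
    exact_mod_cast h2
  have hS0 : (0 : ℝ) < (S.card : ℝ) + 1 := by positivity
  have h5 : (4 * 2 ^ q / √((q : ℝ) + 1)) ^ (r + 1) ≤
      (4 * √((r : ℝ) + 1)) ^ (r + 1) * (2 ^ q) ^ (r + 1) *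
        ((S.card : ℝ) + 1) ^ (-((r + 1) / 2 : ℝ)) := by
    have h6 : ((S.card : ℝ) + 1) ^ (-((r + 1) / 2 : ℝ)) = (1 / √((S.card : ℝ) + 1)) ^ (r + 1) := by
      rw [Real.sqrt_eq_rpow, one_div, ← Real.rpow_neg hS0.le, ← Real.rpow_natCast,
        ← Real.rpow_mul hS0.le]
      congr 1
      push_cast
      ring
    rw [h6, ← mul_pow, ← mul_pow]
    refine pow_le_pow_left₀ (by positivity) ?_ (r + 1)
    have h7 : √((S.card : ℝ) + 1) ≤ √((r : ℝ) + 1) * √((q : ℝ) + 1) := by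
      rw [← Real.sqrt_mul hr.le]
      refine Real.sqrt_le_sqrt ?_
      rw [div_le_iff₀ hr] at hq1
      linarith
    have h9 : 0 < √((S.card : ℝ) + 1) := Real.sqrt_pos.2 (by positivity)
    rw [div_le_iff₀ hs]
    have h10 : 4 * √((r : ℝ) + 1) * 2 ^ q * (1 / √((S.card : ℝ) + 1)) * √((q : ℝ) + 1) =
        4 * 2 ^ q * ((√((r : ℝ) + 1) * √((q : ℝ) + 1)) / √((S.card : ℝ) + 1)) := by
      field_simp
    rw [h10]
    refine le_mul_of_one_le_right (by positivity) ?_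
    rw [le_div_iff₀ h9]
    linarith
  calc 4 * 2 ^ q / √((q : ℝ) + 1) * (4 * 2 ^ q / √((q : ℝ) + 1)) ^ r * 2 ^ m
      = (4 * 2 ^ q / √((q : ℝ) + 1)) ^ (r + 1) * 2 ^ m := by ring
    _ ≤ (4 * √((r : ℝ) + 1)) ^ (r + 1) * (2 ^ q) ^ (r + 1) *
        ((S.card : ℝ) + 1) ^ (-((r + 1) / 2 : ℝ)) * 2 ^ m :=
        mul_le_mul_of_nonneg_right h5 (by positivity)
    _ = (4 * √((r : ℝ) + 1)) ^ (r + 1) * 2 ^ S.card *
        ((S.card : ℝ) + 1) ^ (-((r + 1) / 2 : ℝ)) := by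
        have e4 : (2 : ℝ) ^ S.card = (2 ^ q) ^ (r + 1) * 2 ^ m := by
          rw [← hS, pow_add, pow_mul]
        rw [e4]
        ring

end

end Pool.Agent.T6.H66.EQ
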