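import Pool.Agent.T6.H66.EQ.Tot

/-!
Project EQ: the theorems, from the module statements.
-/

set_option autoImplicit false

namespace Pool.Agent.T6.H66.EQ

open Finset Filter Topology KN KN.KQ
open Pool.Agent.T6.H44.LK (noHas Has Has_TC up_iff)
open scoped Classical

noncomputable section

/-- the conclusion of the principle -/
def Princ (Q : List Dir → Prop) (k : List V) (c C : ℝ) : Prop :=
    ∀ (j : ℕ) (E : Type) [NormedAddCommGroup E]
    (β : Type) (G : ℕ → List Dir → β) (Φ : (ℕ → β) → E) (D ρ : ℝ), 0 ≤ ρ →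
    (∀ i w w', SAP w → SAP w' → Same (vl w) (vl w') → G i w = G i w') →
    (∀ i l1 v l2, Facing l1 v l2 → Same (vl (.zm :: v)) k →
      G i (join l1 v l2) = G (i + 1) (l1 ++ .zp :: l2)) →
    (∀ w ∈ K Q (2 * j), ‖Φ (fun i => G i w)‖ ≤ D) →
    (∀ w ∈ K Q (2 * j), ∀ S : Finset Pt, c * (2 * j : ℝ) ^ (2 / 3 : ℝ) ≤ S.card →
      ‖∑ A ∈ S.powerset, Φ (fun i => G (i + A.card) w)‖ ≤ ρ * 2 ^ S.card) →
    ‖∑ w ∈ K Q (2 * j), Φ (fun i => G i w)‖ ≤
      (ρ + D * (C * Real.exp (-(c * (2 * j : ℝ) ^ (2 / 3 : ℝ))))) * a Q (2 * j)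

/-- `F i w` is the value of a function of the knot type at `w` with `i` further summands `k` -/
structure Adds (k : List V) {β : Type} (F : ℕ → List Dir → β) : Prop where
  same : ∀ i w w', SAP w → SAP w' → Same (vl w) (vl w') → F i w = F i w'
  add : ∀ i l1 v l2, Facing l1 v l2 → Same (vl (.zm :: v)) k →
      F i (join l1 v l2) = F (i + 1) (l1 ++ .zp :: l2)

/-- `exp (-c n^(2/3))` is smaller than any power -/
theorem exp_small (c e : ℝ) (hc : 0 < c) (he : 0 ≤ e) : ∃ C : ℝ, 0 < C ∧ ∀ n : ℕ, 1 ≤ n →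
    Real.exp (-(c * (n : ℝ) ^ (2 / 3 : ℝ))) ≤ C * (n : ℝ) ^ (-e) := by
  obtain ⟨r, hr⟩ : ∃ r : ℕ, (3 / 2 * e : ℝ) ≤ r := exists_nat_ge _
  refine ⟨r.factorial / c ^ r, by positivity, fun n hn => ?_⟩
  have hn1 : (1 : ℝ) ≤ n := by exact_mod_cast hn
  have hn0 : (0 : ℝ) < n := by linarith
  obtain ⟨x, hx⟩ : ∃ x : ℝ, x = (n : ℝ) ^ (2 / 3 : ℝ) := ⟨_, rfl⟩
  have hx0 : 0 < x := by rw [hx]; positivity
  have h1 : (c * x) ^ r / r.factorial ≤ Real.exp (c * x) :=
    Real.pow_div_factorial_le_exp _ (by positivity) r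
  have h2 : x ^ r = (n : ℝ) ^ (2 / 3 * r : ℝ) := by
    rw [hx, ← Real.rpow_natCast, ← Real.rpow_mul hn0.le]
  have h3 : (n : ℝ) ^ e ≤ x ^ r := by
    rw [h2]
    exact Real.rpow_le_rpow_of_exponent_le hn1 (by linarith)
  rw [← hx, Real.exp_neg, Real.rpow_neg hn0.le]
  have h4 : 0 < (n : ℝ) ^ e := by positivity
  have h5 : c ^ r * (n : ℝ) ^ e / r.factorial ≤ Real.exp (c * x) := by
    refine le_trans ?_ h1
    rw [mul_pow]
    gcongr
  calc (Real.exp (c * x))⁻¹ ≤ (c ^ r * (n : ℝ) ^ e / r.factorial)⁻¹ :=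
        inv_anti₀ (by positivity) h5
    _ = _ := by field_simp

/-- from a bound for large sets of sites to a power of `n` -/
theorem pow_small (c e : ℝ) (hc : 0 < c) (he : 0 ≤ e) (n : ℕ) (hn : 1 ≤ n) (m : ℕ)
    (hm : c * (n : ℝ) ^ (2 / 3 : ℝ) ≤ m) :
    ((m : ℝ) + 1) ^ (-(e / 2)) ≤ c ^ (-(e / 2)) * (n : ℝ) ^ (-(e / 3)) := by
  have hn0 : (0 : ℝ) < n := by exact_mod_cast (by omega : 0 < n)
  have h1 : ((m : ℝ) + 1) ^ (-(e / 2)) ≤ (c * (n : ℝ) ^ (2 / 3 : ℝ)) ^ (-(e / 2)) := by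
    apply Real.rpow_le_rpow_of_nonpos (by positivity) (by linarith) (by linarith)
  refine h1.trans (le_of_eq ?_)
  rw [Real.mul_rpow hc.le (by positivity), ← Real.rpow_mul hn0.le]
  congr 2
  ring

/-- binomial sum of alternating signs -/
theorem abs_alt (r : ℕ) (h : ℕ → ℝ) (hh : ∀ i, |h i| ≤ 1) :
    |∑ i ∈ range (r + 1), (-1 : ℝ) ^ i * (r.choose i : ℝ) * h i| ≤ 2 ^ r := by
  refine (Finset.abs_sum_le_sum_abs _ _).trans ?_
  have h1 : ∀ i ∈ range (r + 1), |(-1 : ℝ) ^ i * (r.choose i : ℝ) * h i| ≤ (r.choose i : ℝ) := by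
    intro i _
    rw [abs_mul, abs_mul, abs_pow, abs_neg, abs_one, one_pow, one_mul, Nat.abs_cast]
    exact mul_le_of_le_one_right (Nat.cast_nonneg _) (hh i)
  refine (Finset.sum_le_sum h1).trans (le_of_eq ?_)
  have := Nat.sum_range_choose r
  exact_mod_cast this

/-- **A**: differences of all orders in the direction of adding `k` -/
theorem thmA (cube : StmtCUBE) {Q : List Dir → Prop} {k : List V} {c C : ℝ} (hc : 0 < c)
    (hC : 0 < C) (hP : Princ Q k c C) (r : ℕ) : ∃ C₁ : ℝ, 0 < C₁ ∧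
    ∀ F : ℕ → List Dir → ℝ, Adds k F → (∀ i w, |F i w| ≤ 1) → ∀ j : ℕ,
      |∑ w ∈ K Q (2 * j), ∑ i ∈ range (r + 1), (-1 : ℝ) ^ i * (r.choose i : ℝ) * F i w| ≤
        C₁ * (2 * j : ℝ) ^ (-(r / 3 : ℝ)) * a Q (2 * j) := by
  obtain ⟨C₂, hC₂, hd⟩ := diff_sum cube r
  obtain ⟨C₃, hC₃, he⟩ := exp_small c (r / 3 : ℝ) hc (by positivity)
  refine ⟨C₂ * c ^ (-(r / 2 : ℝ)) + 2 ^ r * (C * C₃), by positivity, ?_⟩
  intro F hF hF1 j
  rcases Nat.eq_zero_or_pos j with h0 | h0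
  · have h1 : K Q (2 * j) = ∅ := by
      rw [h0]
      ext w
      rw [mem_K]
      constructor
      · rintro ⟨h1, h2, -⟩
        have := h2.1
        omega
      · simp
    have h2 : a Q (2 * j) = 0 := by
      unfold a
      rw [h1, card_empty]
    rw [h1, h2]
    simp
  have hj : 1 ≤ 2 * j := by omega
  have hnr : (2 * j : ℝ) = ((2 * j : ℕ) : ℝ) := by push_cast; ring
  have h1 := hP j ℝ ℝ F (fun h => ∑ i ∈ range (r + 1), (-1 : ℝ) ^ i * (r.choose i : ℝ) * h i)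
    (2 ^ r) (C₂ * (c ^ (-(r / 2 : ℝ)) * (2 * j : ℝ) ^ (-(r / 3 : ℝ)))) (by positivity)
    hF.same hF.add (fun w _ => by
      rw [Real.norm_eq_abs]
      exact abs_alt r _ (fun i => hF1 i w)) (by
      intro w _ S hS
      rw [Real.norm_eq_abs]
      have h2 := hd Pt S (fun i => F i w) (fun i => hF1 i w)
      have h3 : ∑ A ∈ S.powerset, ∑ i ∈ range (r + 1), (-1 : ℝ) ^ i * (r.choose i : ℝ) *
          F (i + A.card) w = ∑ A ∈ S.powerset, ∑ i ∈ range (r + 1),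
          (-1 : ℝ) ^ i * (r.choose i : ℝ) * F (A.card + i) w := by
        refine Finset.sum_congr rfl fun A _ => Finset.sum_congr rfl fun i _ => ?_
        rw [Nat.add_comm]
      rw [h3]
      refine h2.trans ?_
      rw [hnr] at hS ⊢
      have h4 := pow_small c r hc (by positivity) (2 * j) hj S.card hS
      calc C₂ * 2 ^ S.card * ((S.card : ℝ) + 1) ^ (-(r / 2 : ℝ))
          ≤ C₂ * 2 ^ S.card * (c ^ (-(r / 2 : ℝ)) * ((2 * j : ℕ) : ℝ) ^ (-(r / 3 : ℝ))) :=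
            mul_le_mul_of_nonneg_left h4 (by positivity)
        _ = _ := by ring)
  rw [Real.norm_eq_abs] at h1
  refine h1.trans ?_
  refine mul_le_mul_of_nonneg_right ?_ (Nat.cast_nonneg _)
  have h2 := he (2 * j) hj
  rw [← hnr] at h2
  have h3 : (2 : ℝ) ^ r * (C * Real.exp (-(c * (2 * j : ℝ) ^ (2 / 3 : ℝ)))) ≤
      2 ^ r * (C * (C₃ * (2 * j : ℝ) ^ (-(r / 3 : ℝ)))) := by gcongr
  refine (add_le_add le_rfl h3).trans (le_of_eq ?_)
  ring

/-- **C**: characters -/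
theorem thmC (cube : StmtCUBE) {Q : List Dir → Prop} {k : List V} {c C : ℝ} (hc : 0 < c)
    (hP : Princ Q k c C) (ζ : ℂ) (hζ : ‖ζ‖ ≤ 1) (Z : List Dir → ℂ)
    (hZ : ∀ w w', SAP w → SAP w' → Same (vl w) (vl w') → Z w = Z w')
    (hZa : ∀ l1 v l2, Facing l1 v l2 → Same (vl (.zm :: v)) k →
      Z (join l1 v l2) = ζ * Z (l1 ++ .zp :: l2)) (hZ1 : ∀ w, ‖Z w‖ ≤ 1) (j : ℕ) :
    ‖∑ w ∈ K Q (2 * j), Z w‖ ≤ ((‖1 + ζ‖ / 2) ^ (c * (2 * j : ℝ) ^ (2 / 3 : ℝ)) +
      C * Real.exp (-(c * (2 * j : ℝ) ^ (2 / 3 : ℝ)))) * a Q (2 * j) := by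
  have hle : ‖1 + ζ‖ / 2 ≤ 1 := by
    have := norm_add_le (1 : ℂ) ζ
    rw [norm_one] at this
    linarith
  have h1 := hP j ℂ ℂ (fun i w => ζ ^ i * Z w) (fun h => h 0) 1
    ((‖1 + ζ‖ / 2) ^ (c * (2 * j : ℝ) ^ (2 / 3 : ℝ))) (by positivity)
    (fun i w w' h1 h2 h3 => by simp only [hZ w w' h1 h2 h3])
    (fun i l1 v l2 h1 h2 => by
      simp only [hZa l1 v l2 h1 h2]
      ring)
    (fun w _ => by
      simp only [pow_zero, one_mul]
      exact hZ1 w)
    (by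
      intro w _ S hS
      simp only [zero_add]
      rw [← Finset.sum_mul, cube.1 Pt S ζ, norm_mul, norm_pow]
      have h2 : ‖1 + ζ‖ ^ S.card = (‖1 + ζ‖ / 2) ^ S.card * 2 ^ S.card := by
        rw [div_pow]
        field_simp
      have h3 : (‖1 + ζ‖ / 2) ^ S.card ≤ (‖1 + ζ‖ / 2) ^ (c * (2 * j : ℝ) ^ (2 / 3 : ℝ)) := by
        rcases (norm_nonneg (1 + ζ)).eq_or_lt with h0 | h0
        · rw [← h0, zero_div]
          rcases Nat.eq_zero_or_pos S.card with h4 | h4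
          · have h5 : c * (2 * j : ℝ) ^ (2 / 3 : ℝ) = 0 := by
              rw [h4] at hS
              refine le_antisymm (by simpa using hS) (by positivity)
            rw [h5, h4]
            simp
          · rw [zero_pow (by omega)]
            exact Real.rpow_nonneg le_rfl _
        · rw [← Real.rpow_natCast]
          exact Real.rpow_le_rpow_of_exponent_ge (by positivity) hle hS
      calc ‖1 + ζ‖ ^ S.card * ‖Z w‖ ≤ ‖1 + ζ‖ ^ S.card * 1 :=
            mul_le_mul_of_nonneg_left (hZ1 w) (by positivity)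
        _ = (‖1 + ζ‖ / 2) ^ S.card * 2 ^ S.card := by rw [mul_one, h2]
        _ ≤ _ := mul_le_mul_of_nonneg_right h3 (by positivity))
  simp only [pow_zero, one_mul] at h1
  exact h1

/-- **B**: differences, summable functions -/
theorem thmB (cube : StmtCUBE) {Q : List Dir → Prop} {k : List V} {c C : ℝ} (hc : 0 < c)
    (hC : 0 < C) (hP : Princ Q k c C) (r : ℕ) : ∃ C₁ : ℝ, 0 < C₁ ∧
    ∀ F : ℕ → List Dir → ℝ, Adds k F → (∀ w, SAP w → ∀ N, ∑ i ∈ range N, |F i w| ≤ 1) → ∀ j : ℕ,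
      |∑ w ∈ K Q (2 * j), ∑ i ∈ range (r + 1), (-1 : ℝ) ^ i * (r.choose i : ℝ) * F i w| ≤
        C₁ * (2 * j : ℝ) ^ (-((r + 1) / 3 : ℝ)) * a Q (2 * j) := by
  obtain ⟨C₂, hC₂, hd⟩ := diff_sum1 cube r
  obtain ⟨C₃, hC₃, he⟩ := exp_small c ((r + 1) / 3 : ℝ) hc (by positivity)
  refine ⟨C₂ * c ^ (-((r + 1) / 2 : ℝ)) + 2 ^ r * (C * C₃), by positivity, ?_⟩
  intro F hF hF1 j
  rcases Nat.eq_zero_or_pos j with h0 | h0
  · have h1 : K Q (2 * j) = ∅ := by
      rw [h0]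
      ext w
      rw [mem_K]
      constructor
      · rintro ⟨h1, h2, -⟩
        have := h2.1
        omega
      · simp
    have h2 : a Q (2 * j) = 0 := by
      unfold a
      rw [h1, card_empty]
    rw [h1, h2]
    simp
  have hj : 1 ≤ 2 * j := by omega
  have hnr : (2 * j : ℝ) = ((2 * j : ℕ) : ℝ) := by push_cast; ring
  have hle : ∀ w, SAP w → ∀ i, |F i w| ≤ 1 := by
    intro w hw i
    refine le_trans ?_ (hF1 w hw (i + 1))
    rw [Finset.sum_range_succ]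
    have : 0 ≤ ∑ x ∈ range i, |F x w| := Finset.sum_nonneg fun i _ => abs_nonneg _
    linarith
  have h1 := hP j ℝ ℝ F (fun h => ∑ i ∈ range (r + 1), (-1 : ℝ) ^ i * (r.choose i : ℝ) * h i)
    (2 ^ r) (C₂ * (c ^ (-((r + 1) / 2 : ℝ)) * (2 * j : ℝ) ^ (-((r + 1) / 3 : ℝ)))) (by positivity)
    hF.same hF.add (fun w hw => by
      rw [Real.norm_eq_abs]
      exact abs_alt r _ (fun i => hle w (mem_K.1 hw).2.1 i)) (by
      intro w hw S hS
      rw [Real.norm_eq_abs]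
      have h2 := hd Pt S (fun i => F i w) (hF1 w (mem_K.1 hw).2.1)
      have h3 : ∑ A ∈ S.powerset, ∑ i ∈ range (r + 1), (-1 : ℝ) ^ i * (r.choose i : ℝ) *
          F (i + A.card) w = ∑ A ∈ S.powerset, ∑ i ∈ range (r + 1),
          (-1 : ℝ) ^ i * (r.choose i : ℝ) * F (A.card + i) w := by
        refine Finset.sum_congr rfl fun A _ => Finset.sum_congr rfl fun i _ => ?_
        rw [Nat.add_comm]
      rw [h3]
      refine h2.trans ?_
      rw [hnr] at hS ⊢
      have h4 := pow_small c (r + 1) hc (by positivity) (2 * j) hj S.card hS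
      calc C₂ * 2 ^ S.card * ((S.card : ℝ) + 1) ^ (-((r + 1) / 2 : ℝ))
          ≤ C₂ * 2 ^ S.card * (c ^ (-((r + 1) / 2 : ℝ)) *
            ((2 * j : ℕ) : ℝ) ^ (-((r + 1) / 3 : ℝ))) :=
            mul_le_mul_of_nonneg_left h4 (by positivity)
        _ = _ := by ring)
  rw [Real.norm_eq_abs] at h1
  refine h1.trans ?_
  refine mul_le_mul_of_nonneg_right ?_ (Nat.cast_nonneg _)
  have h2 := he (2 * j) hj
  rw [← hnr] at h2
  have h3 : (2 : ℝ) ^ r * (C * Real.exp (-(c * (2 * j : ℝ) ^ (2 / 3 : ℝ)))) ≤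
      2 ^ r * (C * (C₃ * (2 * j : ℝ) ^ (-((r + 1) / 3 : ℝ)))) := by gcongr
  refine (add_le_add le_rfl h3).trans (le_of_eq ?_)
  ring

/-- indicator functions with at most one nonzero value -/
theorem ind_sum (P : ℕ → Prop) (h : ∀ i i', P i → P i' → i = i') (N : ℕ) :
    ∑ i ∈ range N, |(if P i then (1 : ℝ) else 0)| ≤ 1 := by
  have h1 : ∀ i, |(if P i then (1 : ℝ) else 0)| = if P i then 1 else 0 := by
    intro i
    split_ifs <;> simp
  simp only [h1]
  rw [Finset.sum_boole]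
  have h2 : (filter P (range N)).card ≤ 1 := by
    rw [card_le_one]
    intro x hx y hy
    exact h x y (mem_filter.1 hx).2 (mem_filter.1 hy).2
  exact_mod_cast h2

/-- counting -/
theorem alt_count (Q : List Dir → Prop) (n r : ℕ) (P : ℕ → List Dir → Prop) :
    ∑ w ∈ K Q n, ∑ i ∈ range (r + 1), (-1 : ℝ) ^ i * (r.choose i : ℝ) *
      (if P i w then (1 : ℝ) else 0) = ∑ i ∈ range (r + 1), (-1 : ℝ) ^ i * (r.choose i : ℝ) *
      (((K Q n).filter (P i)).card : ℝ) := by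
  rw [Finset.sum_comm]
  refine Finset.sum_congr rfl fun i _ => ?_
  rw [← Finset.mul_sum, Finset.sum_boole]

/-- **F**: additive invariants and sets which meet every progression with difference `g` at most
once -/
theorem thmF (cube : StmtCUBE) {Q : List Dir → Prop} {k : List V} {c C : ℝ} (hc : 0 < c)
    (hC : 0 < C) (hP : Princ Q k c C) (r : ℕ) : ∃ C₁ : ℝ, 0 < C₁ ∧
    ∀ (A : Type) [AddCommGroup A] (g : A) (B : Set A), (∀ x ∈ B, ∀ i : ℕ, 0 < i → x + i • g ∉ B) →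
    ∀ φ : List Dir → A, (∀ w w', SAP w → SAP w' → Same (vl w) (vl w') → φ w = φ w') →
    (∀ l1 v l2, Facing l1 v l2 → Same (vl (.zm :: v)) k →
      φ (join l1 v l2) = φ (l1 ++ .zp :: l2) + g) → ∀ (j : ℕ),
      |∑ i ∈ range (r + 1), (-1 : ℝ) ^ i * (r.choose i : ℝ) *
        (((K Q (2 * j)).filter (fun w => φ w + i • g ∈ B)).card : ℝ)| ≤
        C₁ * (2 * j : ℝ) ^ (-((r + 1) / 3 : ℝ)) * a Q (2 * j) := by
  obtain ⟨C₁, hC₁, h⟩ := thmB cube hc hC hP r
  refine ⟨C₁, hC₁, ?_⟩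
  intro A _ g B hB φ h1 h2 j
  have h3 := h (fun i w => if φ w + i • g ∈ B then 1 else 0) ⟨?_, ?_⟩ ?_ j
  · rw [alt_count Q (2 * j) r (fun i w => φ w + i • g ∈ B)] at h3
    exact h3
  · intro i w w' hw hw' hs
    simp only [h1 w w' hw hw' hs]
  · intro i l1 v l2 hF hv
    simp only [h2 l1 v l2 hF hv, add_smul, one_smul]
    have e : φ (l1 ++ .zp :: l2) + g + i • g = φ (l1 ++ .zp :: l2) + (i • g + g) := by
      rw [add_assoc, add_comm g]
    simp only [e]
  · intro w _ N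
    refine ind_sum (fun i => φ w + i • g ∈ B) ?_ N
    have key : ∀ i i' : ℕ, i < i' → φ w + i • g ∈ B → φ w + i' • g ∈ B → False := by
      intro i i' hlt e1 e2
      obtain ⟨m, rfl⟩ := Nat.exists_eq_add_of_lt hlt
      refine hB _ e1 (m + 1) (Nat.succ_pos m) ?_
      rw [show i + m + 1 = i + (m + 1) by ring, add_smul, ← add_assoc] at e2
      exact e2
    intro i i' e1 e2
    rcases lt_trichotomy i i' with h4 | h4 | h4
    · exact (key i i' h4 e1 e2).elim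
    · exact h4
    · exact (key i' i h4 e2 e1).elim

/-! ## Iterated sums -/

theorem sums_comp (k : List V) (P : List V → Prop) (m : ℕ) : ∀ (j : ℕ) (l : List V),
    SumsC (SumsC P (fun _ => k) m) (fun _ => k) j l ↔ SumsC P (fun _ => k) (m + j) l := by
  intro j
  induction j with
  | zero => exact fun l => Iff.rfl
  | succ j ih =>
    intro l
    constructor
    · rintro ⟨l1, v, l2, h1, h2, h3, h4⟩
      exact ⟨l1, v, l2, h1, (ih _).1 h2, h3, h4⟩
    · rintro ⟨l1, v, l2, h1, h2, h3, h4⟩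
      exact ⟨l1, v, l2, h1, (ih _).2 h2, h3, h4⟩

theorem sums_mono (k : List V) {P P' : List V → Prop} (h : ∀ l, P l → P' l) : ∀ (j : ℕ)
    (l : List V), SumsC P (fun _ => k) j l → SumsC P' (fun _ => k) j l := by
  intro j
  induction j with
  | zero => exact h
  | succ j ih =>
    rintro l ⟨l1, v, l2, h1, h2, h3, h4⟩
    exact ⟨l1, v, l2, h1, ih _ h2, h3, h4⟩

/-- the polygons of the type of `l` -/
def Typ (l : List V) : List V → Prop := fun l' => Same l' l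

theorem sums_uniq (k l₀ : List V) : ∀ (j : ℕ) (l l' : List V),
    SumsC (Typ l₀) (fun _ => k) j l → SumsC (Typ l₀) (fun _ => k) j l' → Same l l' := by
  intro j
  induction j with
  | zero => exact fun l l' h h' => Same.trans h (Same.symm h')
  | succ j ih =>
    rintro l l' ⟨l1, v, l2, h1, h2, h3, h4⟩ ⟨m1, v', m2, c1, c2, c3, c4⟩
    exact isSum_unique (k := vl (l1 ++ .zp :: l2)) (l := k) ⟨l1, v, l2, h1, Same.refl _, h3, h4⟩
      ⟨m1, v', m2, c1, ih _ _ c2 h2, c3, c4⟩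

theorem sums_TC (k l₀ : List V) (j : ℕ) : TC (SumsC (Typ l₀) (fun _ => k) j) := by
  intro l l' h h1
  cases j with
  | zero => exact Same.trans h.symm h1
  | succ j =>
    obtain ⟨l1, v, l2, h2, h3, h4, h5⟩ := h1
    exact ⟨l1, v, l2, h2, h3, h4, h.symm.trans h5⟩

/-- one summand -/
theorem sums_one (k : List V) {l1 v l2 : List Dir} (hF : Facing l1 v l2)
    (hv : Same (vl (.zm :: v)) k) : SumsC (Typ (vl (l1 ++ .zp :: l2))) (fun _ => k) 1 =
      Typ (vl (join l1 v l2)) := by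
  funext l
  apply propext
  constructor
  · intro h
    exact sums_uniq k (vl (l1 ++ .zp :: l2)) 1 l _ h ⟨l1, v, l2, hF, Same.refl _, hv, Same.refl _⟩
  · intro h
    exact ⟨l1, v, l2, hF, Same.refl _, hv, h⟩

/-- a polygon is not a sum of itself and copies of `k` -/
theorem no_self {k : List V} (hk : FNAG k) {w₀ : List Dir} (hw₀ : SAP w₀) (m : ℕ) (hm : 0 < m) :
    ¬ SumsC (Typ (vl w₀)) (fun _ => k) m (vl w₀) := by
  intro h
  obtain ⟨M, hM⟩ := noHas hw₀ hk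
  have h1 : ∀ t : ℕ, SumsC (Typ (vl w₀)) (fun _ => k) (m * t) (vl w₀) := by
    intro t
    induction t with
    | zero => exact Same.refl _
    | succ t ih =>
      rw [Nat.mul_succ, Nat.add_comm, ← sums_comp]
      refine sums_mono k ?_ (m * t) _ ih
      intro l hl
      exact sums_TC k (vl w₀) m _ _ (Same.symm hl) h
  have h2 : Has k (m * M) (vl w₀) := sums_mono k (fun _ _ => trivial) _ _ (h1 M)
  exact hM w₀ (Or.inl (Same.refl _))
    (Pool.Agent.T6.H44.LK.Has_le (Nat.le_mul_of_pos_left M hm) h2)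

/-- **E**: knot types -/
theorem thmE (cube : StmtCUBE) {Q : List Dir → Prop} {k : List V} (hk : FNAG k) {c C : ℝ}
    (hc : 0 < c) (hC : 0 < C) (hP : Princ Q k c C) (r : ℕ) : ∃ C₁ : ℝ, 0 < C₁ ∧
    ∀ w₀, SAP w₀ → ∀ j : ℕ,
      |∑ i ∈ range (r + 1), (-1 : ℝ) ^ i * (r.choose i : ℝ) *
        (((K Q (2 * j)).filter
          (fun w => SumsC (fun l => Same l (vl w)) (fun _ => k) i (vl w₀))).card : ℝ)| ≤
        C₁ * (2 * j : ℝ) ^ (-((r + 1) / 3 : ℝ)) * a Q (2 * j) := by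
  obtain ⟨C₁, hC₁, h⟩ := thmB cube hc hC hP r
  refine ⟨C₁, hC₁, ?_⟩
  intro w₀ hw₀ j
  have h3 := h (fun i w => if SumsC (Typ (vl w)) (fun _ => k) i (vl w₀) then 1 else 0)
    ⟨?_, ?_⟩ ?_ j
  · rw [alt_count Q (2 * j) r (fun i w => SumsC (Typ (vl w)) (fun _ => k) i (vl w₀))] at h3
    exact h3
  · intro i w w' _ _ hs
    have e : Typ (vl w) = Typ (vl w') := by
      funext l
      exact propext ⟨fun h => Same.trans h hs, fun h => Same.trans h hs.symm⟩
    simp only [e]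
  · intro i l1 v l2 hF hv
    have e : SumsC (Typ (vl (join l1 v l2))) (fun _ => k) i (vl w₀) ↔
        SumsC (Typ (vl (l1 ++ .zp :: l2))) (fun _ => k) (i + 1) (vl w₀) := by
      rw [← sums_one k hF hv, sums_comp, Nat.add_comm]
    simp only [e]
  · intro w _ N
    refine ind_sum (fun i => SumsC (Typ (vl w)) (fun _ => k) i (vl w₀)) ?_ N
    have key : ∀ i i' : ℕ, i < i' → SumsC (Typ (vl w)) (fun _ => k) i (vl w₀) →
        SumsC (Typ (vl w)) (fun _ => k) i' (vl w₀) → False := by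
      intro i i' hlt e1 e2
      obtain ⟨m, rfl⟩ := Nat.exists_eq_add_of_lt hlt
      rw [show i + m + 1 = i + (m + 1) by ring, ← sums_comp] at e2
      refine no_self hk hw₀ (m + 1) (Nat.succ_pos m) ?_
      refine sums_mono k ?_ _ _ e2
      intro l hl
      exact sums_uniq k (vl w) i _ _ hl e1
    intro i i' e1 e2
    rcases lt_trichotomy i i' with h4 | h4 | h4
    · exact (key i i' h4 e1 e2).elim
    · exact h4
    · exact (key i' i h4 e2 e1).elim

end

end Pool.Agent.T6.H66.EQ
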