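import Pool.Agent.T6.H66.EQ.Fac

/-!
Project EQ: sums over a class of polygons.
-/

set_option autoImplicit false

namespace Pool.Agent.T6.H66.EQ

open Finset Filter Topology KN KN.KQ
open scoped Classical

noncomputable section

/-- sums over the words with given sites -/
theorem total {Q : List Dir → Prop} {n : ℕ} (T L : ℕ) (u : Bool → List Dir) {E : Type}
    [NormedAddCommGroup E] (f : List Dir → E) (m₀ ρ D : ℝ) (hρ : 0 ≤ ρ)
    (hD : ∀ w ∈ K Q n, ‖f w‖ ≤ D)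
    (h : ∀ S : Finset Pt, m₀ ≤ S.card →
      ‖∑ w ∈ (K Q n).filter (fun w => sites T L u w = S), f w‖ ≤
        ρ * ((K Q n).filter (fun w => sites T L u w = S)).card) :
    ‖∑ w ∈ K Q n, f w‖ ≤ ρ * a Q n +
      D * ((K Q n).filter (fun w => ((sites T L u w).card : ℝ) < m₀)).card := by
  rw [← Finset.sum_filter_add_sum_filter_not (K Q n)
    (fun w => m₀ ≤ ((sites T L u w).card : ℝ)) f]
  refine (norm_add_le _ _).trans (add_le_add ?_ ?_)
  · obtain ⟨I, hI⟩ : ∃ I, I = ((K Q n).filter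
      (fun w => m₀ ≤ ((sites T L u w).card : ℝ))).image (sites T L u) := ⟨_, rfl⟩
    have hm : ∀ w ∈ (K Q n).filter (fun w => m₀ ≤ ((sites T L u w).card : ℝ)),
        sites T L u w ∈ I := by
      intro w hw
      rw [hI]
      exact mem_image_of_mem _ hw
    have hfib : ∀ S ∈ I, ((K Q n).filter (fun w => m₀ ≤ ((sites T L u w).card : ℝ))).filter
        (fun w => sites T L u w = S) = (K Q n).filter (fun w => sites T L u w = S) := by
      intro S hS
      rw [hI, mem_image] at hS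
      obtain ⟨w', hw', rfl⟩ := hS
      rw [mem_filter] at hw'
      ext w
      simp only [mem_filter]
      constructor
      · rintro ⟨⟨h1, -⟩, h2⟩
        exact ⟨h1, h2⟩
      · rintro ⟨h1, h2⟩
        refine ⟨⟨h1, ?_⟩, h2⟩
        rw [h2]
        exact hw'.2
    rw [← Finset.sum_fiberwise_of_maps_to hm]
    refine (norm_sum_le _ _).trans ?_
    have h1 : ∀ S ∈ I, ‖∑ w ∈ ((K Q n).filter
        (fun w => m₀ ≤ ((sites T L u w).card : ℝ))).filter (fun w => sites T L u w = S), f w‖ ≤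
        ρ * (((K Q n).filter (fun w => m₀ ≤ ((sites T L u w).card : ℝ))).filter
          (fun w => sites T L u w = S)).card := by
      intro S hS
      rw [hfib S hS]
      apply h
      rw [hI, mem_image] at hS
      obtain ⟨w', hw', rfl⟩ := hS
      exact (mem_filter.1 hw').2
    refine (Finset.sum_le_sum h1).trans ?_
    rw [← Finset.mul_sum]
    refine mul_le_mul_of_nonneg_left ?_ hρ
    have h2 := Finset.card_eq_sum_card_fiberwise hm
    have h3 : ((K Q n).filter (fun w => m₀ ≤ ((sites T L u w).card : ℝ))).card ≤ a Q n :=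
      Finset.card_filter_le _ _
    rw [h2] at h3
    exact_mod_cast h3
  · have e : (K Q n).filter (fun w => ¬ m₀ ≤ ((sites T L u w).card : ℝ)) =
        (K Q n).filter (fun w => ((sites T L u w).card : ℝ) < m₀) := by
      apply Finset.filter_congr
      intro w _
      rw [not_le]
    rw [e]
    refine (norm_sum_le _ _).trans ?_
    refine (Finset.sum_le_sum fun w hw => hD w (mem_filter.1 hw).1).trans ?_
    rw [sum_const, nsmul_eq_mul, mul_comm]

theorem smr_mono {L L' : ℕ} (h : L ≤ L') {v : List Dir} (hv : SmR L v) : SmR L' v := by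
  refine ⟨hv.1, fun p hp => ?_⟩
  obtain ⟨h1, h2, h3, h4, h5⟩ := hv.2 p hp
  have h6 : (L : ℤ) ≤ L' := by exact_mod_cast h
  exact ⟨h1, by omega, h3.trans h6, by omega, by omega⟩

/-- the number of engine blocks is at most the number of sites -/
theorem ep_le (g1 : StmtG1) (g5 : StmtG5) {T₀ s Lr L : ℕ} {u : Bool → List Dir} (hu : Good L u)
    (h1 : 2 * L + 4 ≤ T₀) (h2 : 3 * L + 5 ≤ s) (h3 : s + (3 * L + 5) ≤ Lr) {w : List Dir}
    (hw : SAP w) : (EP T₀ Lr (deep s (u true)) w).card ≤ (sites (T₀ + s) L u w).card := by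
  have hsub : EP T₀ Lr (deep s (u true)) w ⊆ (sites (T₀ + s) L u w).image Prod.fst := by
    intro m hm
    unfold EP at hm
    rw [mem_filter, mem_range] at hm
    obtain ⟨hm0, d, f, l1, l2, h4, h5⟩ := hm
    rw [mem_image]
    refine ⟨(m, d, f), ?_, rfl⟩
    rw [mem_sites]
    refine ⟨hm0, ?_⟩
    rw [← h4]
    exact g5 T₀ s Lr L u hu h1 h2 h3 w hw d f l1 l2 h5
  exact (card_le_card hsub).trans card_image_le

/-- **the principle** -/
theorem principle (cont : StmtCONT) (g1 : StmtG1) (g2 : StmtG2) (g3 : StmtG3) (g4 : StmtG4)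
    (g5 : StmtG5) (dp : StmtDEEP) (a5 : StmtA5) (orb : StmtORB) {Q : List Dir → Prop}
    (hQ : KClass Q) (hc : CSum Q) {k : List V} (hQk : ∃ w, SAP w ∧ Q w ∧ Same (vl w) k)
    (hrem : Rem Q k) : ∃ c C : ℝ, 0 < c ∧ 0 < C ∧ ∀ (j : ℕ) (E : Type) [NormedAddCommGroup E]
    (β : Type) (G : ℕ → List Dir → β) (Φ : (ℕ → β) → E) (D ρ : ℝ), 0 ≤ ρ →
    (∀ i w w', SAP w → SAP w' → Same (vl w) (vl w') → G i w = G i w') →
    (∀ i l1 v l2, Facing l1 v l2 → Same (vl (.zm :: v)) k →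
      G i (join l1 v l2) = G (i + 1) (l1 ++ .zp :: l2)) →
    (∀ w ∈ K Q (2 * j), ‖Φ (fun i => G i w)‖ ≤ D) →
    (∀ w ∈ K Q (2 * j), ∀ S : Finset Pt, c * (2 * j : ℝ) ^ (2 / 3 : ℝ) ≤ S.card →
      ‖∑ A ∈ S.powerset, Φ (fun i => G (i + A.card) w)‖ ≤ ρ * 2 ^ S.card) →
    ‖∑ w ∈ K Q (2 * j), Φ (fun i => G i w)‖ ≤
      (ρ + D * (C * Real.exp (-(c * (2 * j : ℝ) ^ (2 / 3 : ℝ))))) * a Q (2 * j) := by
  obtain ⟨wk, hk1, hk2, hk3⟩ := hQk
  obtain ⟨L, u, hu, hku, hf⟩ := cont k ⟨wk, hk1, hk3⟩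
  obtain ⟨s, hs⟩ : ∃ s, s = 3 * L + 5 := ⟨_, rfl⟩
  obtain ⟨Lr, hLr⟩ : ∃ Lr, Lr = s + (3 * L + 5) := ⟨_, rfl⟩
  obtain ⟨T₀, hT₀⟩ : ∃ T₀, T₀ = 2 * Lr + 4 := ⟨_, rfl⟩
  obtain ⟨R, hR, hLL⟩ := d_LL T₀ Lr hT₀.ge
  obtain ⟨d1, d2⟩ := dp L s (u true) (hu.smr true) (by omega)
  have hSm : SmR Lr (deep s (u true)) := smr_mono (by omega) d1
  have hQv : Q (.zm :: deep s (u true)) :=
    hQ.same wk _ hk1 hSm.1 (hk3.trans (d2 k hku).symm) hk2
  obtain ⟨c, C₀, hc0, hC0, hA⟩ := a5 T₀ Lr R _ hSm hLL hR Q hQ hc hQv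
  obtain ⟨T, hT⟩ : ∃ T, T = T₀ + s := ⟨_, rfl⟩
  obtain ⟨b, hb⟩ : ∃ b, b = bl T u + 3 := ⟨_, rfl⟩
  refine ⟨c, max C₀ (Real.exp (c * (b : ℝ) ^ (2 / 3 : ℝ))), hc0, lt_max_of_lt_left hC0, ?_⟩
  intro j E _ β G Φ D ρ hρ hG1 hG2 hD hin
  obtain ⟨n, hn⟩ : ∃ n, n = 2 * j := ⟨_, rfl⟩
  have hnr : (2 * j : ℝ) = (n : ℝ) := by rw [hn]; push_cast; ring
  have hA' := hA j
  rw [hnr, ← hn] at hA'
  rw [hnr] at hin ⊢
  rw [← hn] at hD hin ⊢
  have hD0 : ∀ w ∈ K Q n, 0 ≤ D := fun w hw => (norm_nonneg _).trans (hD w hw)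
  rcases Nat.eq_zero_or_pos (a Q n) with h0 | h0
  · have h1 : K Q n = ∅ := by
      unfold a at h0
      exact card_eq_zero.1 h0
    rw [h1, h0]
    simp
  have hDn : 0 ≤ D := by
    unfold a at h0
    obtain ⟨w, hw⟩ := card_pos.1 h0
    exact hD0 w hw
  rcases Nat.lt_or_ge n b with hsmall | hbig
  · have h1 : ‖∑ w ∈ K Q n, Φ (fun i => G i w)‖ ≤ D * a Q n := by
      refine (norm_sum_le _ _).trans ?_
      refine (Finset.sum_le_sum hD).trans ?_
      rw [sum_const, nsmul_eq_mul, mul_comm]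
      rfl
    refine h1.trans ?_
    refine mul_le_mul_of_nonneg_right ?_ (Nat.cast_nonneg _)
    have h2 : 1 ≤ max C₀ (Real.exp (c * (b : ℝ) ^ (2 / 3 : ℝ))) *
        Real.exp (-(c * (n : ℝ) ^ (2 / 3 : ℝ))) := by
      calc (1 : ℝ) = Real.exp (c * (n : ℝ) ^ (2 / 3 : ℝ)) *
            Real.exp (-(c * (n : ℝ) ^ (2 / 3 : ℝ))) := by
            rw [← Real.exp_add]
            simp
        _ ≤ _ := by
            refine mul_le_mul_of_nonneg_right (le_trans ?_ (le_max_right _ _)) (Real.exp_pos _).le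
            refine Real.exp_le_exp.2 (mul_le_mul_of_nonneg_left ?_ hc0.le)
            refine Real.rpow_le_rpow (Nat.cast_nonneg n) ?_ (by norm_num)
            exact_mod_cast hsmall.le
    nlinarith
  have htot := total (Q := Q) (n := n) T L u (fun w => Φ (fun i => G i w))
    (c * (n : ℝ) ^ (2 / 3 : ℝ)) ρ D hρ hD ?_
  · refine htot.trans ?_
    rw [add_mul]
    refine add_le_add le_rfl ?_
    rw [mul_assoc]
    refine mul_le_mul_of_nonneg_left ?_ hDn
    have h1 : ((K Q n).filter (fun w => ((sites T L u w).card : ℝ) <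
        c * (n : ℝ) ^ (2 / 3 : ℝ))) ⊆ (K Q n).filter (fun w =>
          ((EP T₀ Lr (deep s (u true)) w).card : ℝ) ≤ c * (n : ℝ) ^ (2 / 3 : ℝ)) := by
      intro w hw
      rw [mem_filter] at hw ⊢
      refine ⟨hw.1, ?_⟩
      have h2 := ep_le g1 g5 hu (T₀ := T₀) (s := s) (Lr := Lr) (by omega) hs.ge hLr.ge
        (mem_K.1 hw.1).2.1
      rw [← hT] at h2
      have h3 : ((EP T₀ Lr (deep s (u true)) w).card : ℝ) ≤ (sites T L u w).card := by
        exact_mod_cast h2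
      exact h3.trans hw.2.le
    have h2 : (((K Q n).filter (fun w => ((sites T L u w).card : ℝ) <
        c * (n : ℝ) ^ (2 / 3 : ℝ))).card : ℝ) ≤ ((K Q n).filter (fun w =>
          ((EP T₀ Lr (deep s (u true)) w).card : ℝ) ≤ c * (n : ℝ) ^ (2 / 3 : ℝ))).card := by
      exact_mod_cast card_le_card h1
    refine h2.trans (hA'.trans ?_)
    refine mul_le_mul_of_nonneg_right ?_ (Nat.cast_nonneg _)
    exact mul_le_mul_of_nonneg_right (le_max_left _ _) (Real.exp_pos _).le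
  · intro S hS
    have hT4 : 2 * L + 4 ≤ T := by omega
    obtain ⟨base, N, hb1, hb2, hb3⟩ := orb_bound orb
      ((K Q n).filter (fun w => sites T L u w = S)) S (swp T u) (ty T u) (by
        intro w hw X hX
        rw [mem_filter] at hw
        have hX' : X ∈ sites T L u w := by rw [hw.2]; exact hX
        obtain ⟨f1, f2, f3, f4, f5, -⟩ := facts g2 g3 g4 hu hT4 hku hf hQ hc
          ⟨wk, hk1, hk2, hk3⟩ hrem (by omega) hw.1 hX'
        refine ⟨mem_filter.2 ⟨f1, f2.trans hw.2⟩, f3, f4, ?_⟩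
        intro Y hY hne
        refine f5 Y ?_ hne
        rw [hw.2]
        exact hY)
    have hGG := hb2 β G (by
      intro w hw X hX hty i
      rw [mem_filter] at hw
      have hX' : X ∈ sites T L u w := by rw [hw.2]; exact hX
      obtain ⟨f1, -, -, -, -, f6⟩ := facts g2 g3 g4 hu hT4 hku hf hQ hc
        ⟨wk, hk1, hk2, hk3⟩ hrem (by omega) hw.1 hX'
      obtain ⟨m1, v, m2, c1, c2, c3, c4⟩ := f6 hty
      rw [hG1 i _ (join m1 v m2) (mem_K.1 f1).2.1 (S_glueSAP_proof m1 v m2 c1) c4,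
        hG2 i m1 v m2 c1 c3]
      exact hG1 (i + 1) _ w c1.1 (mem_K.1 hw.1).2.1 c2)
    refine hb3 E _ (fun w₀ m => Φ (fun i => G (i + m) w₀)) ρ ?_ ?_
    · intro w hw
      congr 1
      funext i
      exact hGG w hw i
    · intro w₀ hw₀
      exact hin w₀ (mem_filter.1 hw₀).1 S hS

end

end Pool.Agent.T6.H66.EQ
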